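import Mathlib
import Pool.Agent.Lib.MP_551055_al.Trim.Descent
import Pool.Agent.Lib.MP_551055_al.Trim.LS.Pos
import Pool.Agent.Lib.MP_551055_al.Trim.OneRelation
import Pool.Agent.Lib.MP_551055_al.Trim.Red.Defs
import Pool.Agent.Lib.MP_551055_al.Trim.Red.Orb
import Pool.Agent.Lib.MP_551055_al.Trim.Red.Res
import Pool.Agent.Lib.MP_551055_al.Trim.VNDefs

/-!
# Long segments: definitions and statements of the modules
-/

set_option autoImplicit false

namespace Pool.Agent.Lib.MP_551055_al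
end Pool.Agent.Lib.MP_551055_al

namespace Pool.Agent.Lib.MP_551055_al.Red
end Pool.Agent.Lib.MP_551055_al.Red

namespace Pool.Agent.Lib.MP_551055_al.LS

open Pool.Agent.Lib.MP_551055_al

open Pool.Agent.Lib.MP_551055_al.Red (res Vec Img)

universe u v w

/-! ## Rings and classes of automorphisms -/

/-- `M` has a resolution of length `d` by finitely generated projective modules. -/
def FFR (R : Type u) [Ring R] : ℕ → ∀ (M : Type u) [AddCommGroup M] [Module R M], Prop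
  | 0, M, _, _ => Module.Finite R M ∧ Module.Projective R M
  | d + 1, M, _, _ =>
      ∃ (n : ℕ) (f : (Fin n → R) →ₗ[R] M), Function.Surjective f ∧ FFR R d (LinearMap.ker f)

/-- `R` is regular coherent: every finitely presented left module has a finite resolution by
finitely generated projective modules. -/
def RegCoh (R : Type u) [Ring R] : Prop :=
  ∀ (M : Type u) [AddCommGroup M] [Module R M], Module.FinitePresentation R M → ∃ d, FFR R d M

section Blocks

variable {S : Type u} [Ring S] {ι κ ι' κ' : Type}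

/-- The map `(x, y) ↦ (f x, c x + g y)`. -/
noncomputable def blk (f : (ι → S) →ₗ[S] (ι' → S)) (c : (ι → S) →ₗ[S] (κ' → S)) (g : (κ → S) →ₗ[S] (κ' → S)) :
    (ι ⊕ κ → S) →ₗ[S] (ι' ⊕ κ' → S) where
  toFun y := Sum.elim (f (y ∘ Sum.inl)) (c (y ∘ Sum.inl) + g (y ∘ Sum.inr))
  map_add' y z := by
    have h1 : (y + z) ∘ (Sum.inl : ι → ι ⊕ κ) = y ∘ Sum.inl + z ∘ Sum.inl := rfl
    have h2 : (y + z) ∘ (Sum.inr : κ → ι ⊕ κ) = y ∘ Sum.inr + z ∘ Sum.inr := rfl
    funext j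
    rcases j with j | j
    · simp [h1]
    · simp only [h1, h2, map_add, Sum.elim_inr, Pi.add_apply]
      abel
  map_smul' s y := by
    have h1 : (s • y) ∘ (Sum.inl : ι → ι ⊕ κ) = s • (y ∘ Sum.inl) := rfl
    have h2 : (s • y) ∘ (Sum.inr : κ → ι ⊕ κ) = s • (y ∘ Sum.inr) := rfl
    funext j
    rcases j with j | j
    · simp [h1]
    · simp [h1, h2, mul_add]

end Blocks

/-- A class of bijective linear maps between finite free modules with the formal properties of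
having class zero in a quotient of `K₁(S)`. All index types are finite (but `G` is defined without
this assumption). -/
structure K1C (S : Type u) [Ring S] where
  G : ∀ {ι κ : Type}, ((ι → S) →ₗ[S] (κ → S)) → Prop
  bij : ∀ {ι κ : Type} [Finite ι] [Finite κ] (f : (ι → S) →ₗ[S] (κ → S)), G f →
    Function.Bijective f
  comp : ∀ {ι κ μ : Type} [Finite ι] [Finite κ] [Finite μ] (f : (ι → S) →ₗ[S] (κ → S))
    (g : (κ → S) →ₗ[S] (μ → S)), G f → G g → G (g ∘ₗ f)
  left : ∀ {ι κ μ : Type} [Finite ι] [Finite κ] [Finite μ] (f : (ι → S) →ₗ[S] (κ → S))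
    (g : (κ → S) →ₗ[S] (μ → S)), G (g ∘ₗ f) → G f → G g
  right : ∀ {ι κ μ : Type} [Finite ι] [Finite κ] [Finite μ] (f : (ι → S) →ₗ[S] (κ → S))
    (g : (κ → S) →ₗ[S] (μ → S)), G (g ∘ₗ f) → G g → G f
  perm : ∀ {ι κ : Type} [Finite ι] [Finite κ] (e : ι ≃ κ), G (LinearMap.funLeft S S e.symm)
  tri : ∀ {ι κ ι' κ' : Type} [Finite ι] [Finite κ] [Finite ι'] [Finite κ']
    (f : (ι → S) →ₗ[S] (ι' → S)) (c : (ι → S) →ₗ[S] (κ' → S)) (g : (κ → S) →ₗ[S] (κ' → S)),
    G f → G g → G (blk f c g)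
  unst : ∀ {ι κ ι' : Type} [Finite ι] [Finite κ] [Finite ι']
    (f : (ι → S) →ₗ[S] (ι' → S)), G (blk f 0 (LinearMap.id : (κ → S) →ₗ[S] (κ → S))) → G f

/-- The class extended to endomorphisms of direct summands of finite free modules. -/
def K1C.GA {S : Type u} [Ring S] (K : K1C S) {Y : Type u} [AddCommGroup Y] [Module S Y]
    (f : Y →ₗ[S] Y) : Prop :=
  ∃ (n : ℕ) (Z : Type u) (_ : AddCommGroup Z) (_ : Module S Z) (e : (Y × Z) ≃ₗ[S] (Fin n → S)),
    K.G (e.toLinearMap ∘ₗ (f.prodMap LinearMap.id) ∘ₗ e.symm.toLinearMap)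

/-- Module K1a. -/
def StConj : Prop :=
  ∀ (S : Type u) [Ring S] (K : K1C S) (ι κ : Type) [Finite ι] [Finite κ]
    (f : (ι → S) →ₗ[S] (ι → S)) (h : (ι → S) ≃ₗ[S] (κ → S)),
    K.G f → K.G (h.toLinearMap ∘ₗ f ∘ₗ h.symm.toLinearMap)

/-- Module K1b. -/
def StSwap : Prop :=
  ∀ (S : Type u) [Ring S] (K : K1C S) (ι κ : Type) [Finite ι] [Finite κ]
    (a : (ι → S) →ₗ[S] (κ → S)) (b : (κ → S) →ₗ[S] (ι → S)),
    K.G (LinearMap.id + a ∘ₗ b) → K.G (LinearMap.id + b ∘ₗ a)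

/-- Module K1c. `N` is strictly triangular with respect to the rank `ρ`. -/
def StUnip : Prop :=
  ∀ (S : Type u) [Ring S] (K : K1C S) (ι : Type) [Finite ι] (ρ : ι → ℕ)
    (N : (ι → S) →ₗ[S] (ι → S)),
    (∀ (t : ℕ) (y : ι → S), (∀ j, t + 1 ≤ ρ j → y j = 0) → ∀ j, t ≤ ρ j → N y j = 0) →
    K.G (LinearMap.id + N)

/-- Module K1d. Independence of the complement. -/
def StGAInd : Prop :=
  ∀ (S : Type u) [Ring S] (K : K1C S) (Y : Type u) [AddCommGroup Y] [Module S Y] (f : Y →ₗ[S] Y),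
    K.GA f → ∀ (n : ℕ) (Z : Type u) [AddCommGroup Z] [Module S Z] (e : (Y × Z) ≃ₗ[S] (Fin n → S)),
      K.G (e.toLinearMap ∘ₗ (f.prodMap LinearMap.id) ∘ₗ e.symm.toLinearMap)

/-- Module K1d. -/
def StGAFree : Prop :=
  ∀ (S : Type u) [Ring S] (K : K1C S) (ι : Type) [Finite ι] (f : (ι → S) →ₗ[S] (ι → S)),
    K.GA f ↔ K.G f

/-- Module K1e. The class and short exact sequences. -/
def StSES : Prop :=
  ∀ (S : Type u) [Ring S] (K : K1C S) (Y' Y Y'' : Type u) [AddCommGroup Y'] [AddCommGroup Y]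
    [AddCommGroup Y''] [Module S Y'] [Module S Y] [Module S Y'']
    (i : Y' →ₗ[S] Y) (q : Y →ₗ[S] Y'') (f' : Y' →ₗ[S] Y') (f : Y →ₗ[S] Y) (f'' : Y'' →ₗ[S] Y''),
    Module.Finite S Y → Module.Projective S Y → Module.Projective S Y'' →
    Function.Injective i → Function.Surjective q → LinearMap.range i = LinearMap.ker q →
    i ∘ₗ f' = f ∘ₗ i → q ∘ₗ f = f'' ∘ₗ q →
    (K.GA f' → K.GA f'' → K.GA f) ∧ (K.GA f' → K.GA f → K.GA f'') ∧ (K.GA f'' → K.GA f → K.GA f')

/-- Module Dev (devissage). -/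
def StDev : Prop :=
  ∀ (S : Type u) [Ring S] (K : K1C S) (d k : ℕ) (Y : Type u) [AddCommGroup Y] [Module S Y]
    (Fil : ℕ → Submodule S Y) (ν : Y →ₗ[S] Y), Module.Finite S Y → Module.Projective S Y →
    Fil 0 = ⊥ → Fil k = ⊤ → Monotone Fil → (∀ i, ∀ y ∈ Fil (i + 1), ν y ∈ Fil i) →
    (∀ i < k, FFR S d (Fil (i + 1) ⧸ (Fil i).submoduleOf (Fil (i + 1)))) →
    K.GA (LinearMap.id + ν)

/-- Module Coh. Kernels of maps to free modules over a regular coherent ring. -/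
def StCoh : Prop :=
  ∀ (R : Type u) [Ring R], RegCoh R → ∀ (P E E' : Type u) [AddCommGroup P] [AddCommGroup E]
    [AddCommGroup E'] [Module R P] [Module R E] [Module R E'] (g : P →ₗ[R] E) (g' : P →ₗ[R] E'),
    Module.Finite R P → Module.Projective R P → Module.Free R E → Module.Free R E' →
    LinearMap.ker g ≤ LinearMap.ker g' →
    ∃ d, FFR R d (LinearMap.ker g' ⧸ (LinearMap.ker g).submoduleOf (LinearMap.ker g'))

/-! ## Positions -/

section Positions

variable {Γ : Type u} [Group Γ] {X : Type v} [MulAction Γ X] {ι κ : Type}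

/-- Iterates of a relation. -/
def itr (r : X → X → Prop) : ℕ → X → X → Prop
  | 0, a, c => a = c
  | i + 1, a, c => ∃ b, r a b ∧ itr r i b c

theorem vec_smul_induction {H : Subgroup Γ} {Q : Vec H ι → Prop} {y : Vec H ι} (h0 : Q 0)
    (ha : ∀ a b, Q a → Q b → Q (a + b))
    (hs : ∀ (γ : H) (c : ℤ), Q (MonoidAlgebra.single γ c • y)) (s : MonoidAlgebra ℤ H) :
    Q (s • y) := by
  induction s using MonoidAlgebra.induction_linear with
  | zero => rwa [zero_smul]
  | add a b h1 h2 => rw [add_smul]; exact ha _ _ h1 h2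
  | single γ c => exact hs γ c

/-- A vector, considered as a module over the smaller ring, as a vector again. -/
abbrev asF {H : Subgroup Γ} (y : Vec H ι) : F Γ ι := y

theorem vec_single {H : Subgroup Γ} (γ : H) (c : ℤ) (y : Vec H ι) :
    (MonoidAlgebra.single γ c : MonoidAlgebra ℤ H) • y
      = ((MonoidAlgebra.single (γ : Γ) c : ZG Γ) • asF y : F Γ ι) := by
  funext i
  rw [Red.vec_smul_apply, inc_single]
  rfl

/-- The vectors in `B` with all positions equal to `x`, as a module over the group ring of the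
stabiliser of `x`. -/
def homIn (B : Submodule (ZG Γ) (F Γ ι)) (p : ι → X) (x : X) :
    Submodule (MonoidAlgebra ℤ (MulAction.stabilizer Γ x)) (Vec (MulAction.stabilizer Γ x) ι) where
  carrier := {y | In p {x} (y : F Γ ι) ∧ (y : F Γ ι) ∈ B}
  add_mem' h h' := ⟨h.1.add h'.1, B.add_mem h.2 h'.2⟩
  zero_mem' := ⟨In.zero p {x}, B.zero_mem⟩
  smul_mem' s y h := by
    refine vec_smul_induction (Q := fun y : Vec (MulAction.stabilizer Γ x) ι =>
      In p {x} (y : F Γ ι) ∧ (y : F Γ ι) ∈ B) ⟨In.zero p {x}, B.zero_mem⟩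
      (fun a b h h' => ⟨h.1.add h'.1, B.add_mem h.2 h'.2⟩) (fun γ c => ?_) s
    rw [vec_single]
    refine ⟨h.1.smul _ _ fun a ha => ?_, B.smul_mem _ h.2⟩
    rw [Set.mem_singleton_iff.1 ha]
    exact γ.2

/-- The vectors all of whose parts are killed by `ν ^ i`. -/
def kerFil (p : ι → X) (ν : Module.End (ZG Γ) (F Γ ι)) (i : ℕ) : Submodule (ZG Γ) (F Γ ι) where
  carrier := {y | ∀ x, (ν ^ i) (pr p {x} y) = 0}
  add_mem' h h' x := by rw [map_add, map_add, h x, h' x, add_zero]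
  zero_mem' x := by rw [map_zero, map_zero]
  smul_mem' s y h := by
    refine smul_induction (Q := fun y => ∀ x, (ν ^ i) (pr p {x} y) = 0) (fun x => ?_)
      (fun a b h h' x => ?_) (fun γ c x => ?_) s
    · rw [map_zero, map_zero]
    · rw [map_add, map_add, h x, h' x, add_zero]
    · have hx : x = γ • (γ⁻¹ • x) := by rw [smul_smul, mul_inv_cancel, one_smul]
      rw [hx, pr_smul_singleton, map_smul, h, smul_zero]

end Positions

/-- Module VecFree. -/
def StVecFree : Prop :=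
  ∀ (Γ : Type u) [Group Γ] (H : Subgroup Γ) (κ : Type) [Finite κ],
    Module.Free (MonoidAlgebra ℤ H) (Vec H κ)

/-- Module HomFree. -/
def StHomFree : Prop :=
  ∀ (Γ : Type u) [Group Γ] (X : Type v) [MulAction Γ X] (ι : Type) [Finite ι] (p : ι → X) (x : X),
    ∃ n : ℕ, Nonempty (homIn (⊤ : Submodule (ZG Γ) (F Γ ι)) p x
      ≃ₗ[MonoidAlgebra ℤ (MulAction.stabilizer Γ x)] (Fin n → MonoidAlgebra ℤ
        (MulAction.stabilizer Γ x)))

/-- Module Ind. Resolutions over the stabilisers of the positions give resolutions over `ℤ[Γ]`. -/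
def StInd : Prop :=
  ∀ (Γ : Type u) [Group Γ] (X : Type v) [MulAction Γ X] (d : ℕ) (ι : Type) [Finite ι] (p : ι → X)
    (A B : Submodule (ZG Γ) (F Γ ι)), A ≤ B → (∀ P, ∀ y ∈ A, pr p P y ∈ A) →
    (∀ P, ∀ y ∈ B, pr p P y ∈ B) →
    (∀ i, FFR (MonoidAlgebra ℤ (MulAction.stabilizer Γ (p i))) d
      (homIn B p (p i) ⧸ (homIn A p (p i)).submoduleOf (homIn B p (p i)))) →
    FFR (ZG Γ) d (B ⧸ A.submoduleOf B)

/-- The relation `r` is invariant and the iterates of different successors of `a` never meet. -/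
structure UR {Γ : Type u} [Group Γ] {X : Type v} [MulAction Γ X] (r : X → X → Prop) : Prop where
  inv : ∀ (γ : Γ) (a b : X), r a b → r (γ • a) (γ • b)
  uniq : ∀ (i : ℕ) (a b b' c : X), r a b → r a b' → itr r i b c → itr r i b' c → b = b'

/-- Module Fil. The kernel filtration. -/
def StFil : Prop :=
  ∀ (Γ : Type u) [Group Γ] (X : Type v) [MulAction Γ X] (r : X → X → Prop), UR (Γ := Γ) r →
    ∀ (ι : Type) [Finite ι] (p : ι → X) (ν : Module.End (ZG Γ) (F Γ ι)) (k : ℕ), ν ^ k = 0 →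
    Tr r p p ν →
    kerFil p ν 0 = ⊥ ∧ kerFil p ν k = ⊤ ∧ Monotone (kerFil p ν) ∧
    (∀ i, ∀ y ∈ kerFil p ν (i + 1), ν y ∈ kerFil p ν i) ∧
    (∀ i P, ∀ y ∈ kerFil p ν i, pr p P y ∈ kerFil p ν i)

/-- Module Nil. Nilpotent maps along `r` have class zero if the stabilisers are regular coherent. -/
def StNil : Prop :=
  ∀ (Γ : Type u) [Group Γ] (K : K1C (ZG Γ)) (X : Type v) [MulAction Γ X] (r : X → X → Prop),
    UR (Γ := Γ) r → ∀ (ι : Type) [Finite ι] (p : ι → X) (ν : Module.End (ZG Γ) (F Γ ι)),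
    IsNilpotent ν → Tr r p p ν →
    (∀ i, RegCoh (MonoidAlgebra ℤ (MulAction.stabilizer Γ (p i)))) →
    K.G ((1 : Module.End (ZG Γ) (F Γ ι)) + ν)

/-- Module NF. Graded idempotents are stably standard. -/
def StNF : Prop :=
  ∀ (Γ : Type u) [Group Γ] (X : Type v) [MulAction Γ X] (ι : Type) [Finite ι] (p : ι → X)
    (π : F Γ ι →ₗ[ZG Γ] F Γ ι), Gr p p π → π ∘ₗ π = π →
    (∀ i, VN.ProjStFree (MulAction.stabilizer Γ (p i))) →
    ∃ (A B C D : Type) (_ : Finite A) (_ : Finite B) (_ : Finite C) (_ : Finite D)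
      (a : A → X) (b : B → X) (c : C → X) (d : D → X)
      (β : F Γ ((ι ⊕ A) ⊕ B) ≃ₗ[ZG Γ] F Γ (C ⊕ D)),
      (∀ x, (x ∈ Set.range a ∨ x ∈ Set.range b ∨ x ∈ Set.range c ∨ x ∈ Set.range d) →
        x ∈ Set.range p) ∧
      Gr (Sum.elim (Sum.elim p a) b) (Sum.elim c d) β.toLinearMap ∧
      β.toLinearMap ∘ₗ blk (blk π 0 LinearMap.id) 0 0 = blk LinearMap.id 0 0 ∘ₗ β.toLinearMap

/-! ## Trees -/

/-- `Γ` acts on the tree `T` without inversions. -/
structure TreeAct (Γ : Type u) [Group Γ] (V : Type v) [MulAction Γ V] (T : SimpleGraph V) :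
    Prop where
  tree : T.IsTree
  adj : ∀ (γ : Γ) (u v : V), T.Adj u v → T.Adj (γ • u) (γ • v)
  inv : ∀ (γ : Γ) (u v : V), T.Adj u v → γ • u = v → γ • v ≠ u

section Trees

variable {V : Type v} (T : SimpleGraph V)

/-- The segment `b` (of length `l`) is the segment `a` moved by one step backwards. -/
def sh (l : ℕ) (a b : V × V) : Prop :=
  T.Adj b.1 a.1 ∧ T.Adj b.2 a.2 ∧ T.dist b.1 b.2 = l ∧ T.dist a.1 a.2 = l ∧
    T.dist b.1 a.2 = l + 1

/-- The side of `v` of the edge `uv`. -/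
def side (u v : V) : Set V := {w | T.dist w v < T.dist w u}

end Trees

/-- Module TreeA: half-trees. -/
def StTreeA : Prop :=
  ∀ (V : Type v) (T : SimpleGraph V), T.IsTree → ∀ u v : V, T.Adj u v →
    v ∈ side T u v ∧ u ∉ side T u v ∧ (side T u v)ᶜ = side T v u ∧
    (∀ a b, T.Adj a b → a ∈ side T u v → b ∉ side T u v → a = v ∧ b = u)

/-- Module TreeB: segments. -/
def StTreeB : Prop :=
  ∀ (Γ : Type u) [Group Γ] (V : Type v) [MulAction Γ V] (T : SimpleGraph V), TreeAct Γ V T →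
    ∀ l : ℕ, 1 ≤ l → UR (Γ := Γ) (sh T l) ∧
      (∀ a b c, sh T l a b → sh T l b c → sh T (l + 1) (b.1, a.2) (c.1, b.2)) ∧
      (∀ u v w, T.Adj v w → T.Adj u v → u ≠ w → sh T 1 (v, w) (u, v))

/-- Module TreeC: invariant orientations. -/
def StTreeC : Prop :=
  ∀ (Γ : Type u) [Group Γ] (V : Type v) [MulAction Γ V] (T : SimpleGraph V), TreeAct Γ V T →
    (∀ (γ : Γ) (u v : V), T.dist (γ • u) (γ • v) = T.dist u v) ∧
    ∃ O : Set (V × V), (∀ (γ : Γ), ∀ a ∈ O, γ • a ∈ O) ∧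
      ∀ u v, T.Adj u v → ((u, v) ∈ O ↔ (v, u) ∉ O)

/-! ## Systems -/

/-- The positions of the basis of the source of a system: edges and vertices. -/
def cell {V : Type v} {K I : Type} (f : K → V × V) (v : I → V) : K ⊕ I → V × V :=
  Sum.elim f fun i => (v i, v i)

/-- A system on the tree `T`: an isomorphism `Φ` from a free module with basis vectors placed at
oriented edges `f k` and at vertices `v i` to a free module with basis vectors placed at vertices
`w j`, such that `Φ` moves edges to their end points and preserves vertices. -/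
structure Sys (Γ : Type u) [Group Γ] {V : Type v} [MulAction Γ V] (T : SimpleGraph V) where
  K : Type
  I : Type
  J : Type
  fK : Finite K
  fI : Finite I
  fJ : Finite J
  f : K → V × V
  v : I → V
  w : J → V
  adj : ∀ k, T.Adj (f k).1 (f k).2
  Φ : F Γ (K ⊕ I) ≃ₗ[ZG Γ] F Γ J
  tr : Tr (fun (a : V × V) (b : V) => b = a.1 ∨ b = a.2) (cell f v) w Φ.toLinearMap

attribute [instance] Sys.fK Sys.fI Sys.fJ

section Sys

variable {Γ : Type u} [Group Γ] {V : Type v} [MulAction Γ V] {T : SimpleGraph V}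

/-- `s` is adapted: for `y` at the oriented edge `(a, b)` the part of `Φ y` at the origin `a` comes
from the side of `a`. -/
def Sys.Adapted (s : Sys Γ T) : Prop :=
  ∀ a b, T.Adj a b → ∀ y : F Γ (s.K ⊕ s.I), In (cell s.f s.v) {(a, b)} y →
    pr (cell s.f s.v) {(a, b), (b, a)} (s.Φ.symm (pr s.w {a} (s.Φ y))) = 0

end Sys

/-- Module Cut. -/
def StCut : Prop :=
  ∀ (Γ : Type u) [Group Γ] (V : Type v) [MulAction Γ V] (T : SimpleGraph V), TreeAct Γ V T →
    ∀ (s : Sys Γ T) (u v : V), T.Adj u v → ∀ y : F Γ (s.K ⊕ s.I), In s.w {v} (s.Φ y) →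
      s.Φ (pr (cell s.f s.v) (side T v u ×ˢ side T v u) y) +
        pr s.w {u} (s.Φ (pr (cell s.f s.v) {(u, v), (v, u)} y)) = 0

/-- `K` contains all maps which preserve positions at vertices. -/
def VGood {Γ : Type u} [Group Γ] (K : K1C (ZG Γ)) (V : Type v) [MulAction Γ V] : Prop :=
  ∀ (ι κ : Type) [Finite ι] [Finite κ] (p : ι → V) (q : κ → V) (f : F Γ ι →ₗ[ZG Γ] F Γ κ),
    Gr p q f → Function.Bijective f → K.G f

/-- Module Init. -/
def StInit : Prop :=
  ∀ (Γ : Type u) [Group Γ] (V : Type v) [MulAction Γ V] (T : SimpleGraph V), TreeAct Γ V T →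
    ∀ (O : Set (V × V)), (∀ u v, T.Adj u v → ((u, v) ∈ O ↔ (v, u) ∉ O)) →
    ∀ (K : K1C (ZG Γ)) (n : ℕ) (α : F Γ (Fin n) →ₗ[ZG Γ] F Γ (Fin n)), Function.Bijective α →
      ∃ s : Sys Γ T, (∀ k, s.f k ∈ O) ∧ (K.G s.Φ.toLinearMap → K.G α)

/-- Module Split. The idempotent of a system. -/
def StSplit : Prop :=
  ∀ (Γ : Type u) [Group Γ] (V : Type v) [MulAction Γ V] (T : SimpleGraph V), TreeAct Γ V T →
    ∀ (O : Set (V × V)), (∀ (γ : Γ), ∀ a ∈ O, γ • a ∈ O) →
    (∀ u v, T.Adj u v → ((u, v) ∈ O ↔ (v, u) ∉ O)) →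
    ∀ (s : Sys Γ T), (∀ k, s.f k ∈ O) →
      ∃ π : F Γ s.K →ₗ[ZG Γ] F Γ s.K, Gr s.f s.f π ∧ π ∘ₗ π = π ∧
        ∀ (a b : V) (y : F Γ s.K), In s.f {(a, b)} y →
          π y = pr s.f {(a, b)} (fun k => s.Φ.symm (pr s.w {b} (s.Φ (Sum.elim y 0))) (Sum.inl k))

/-- Module Adapt. -/
def StAdapt : Prop :=
  ∀ (Γ : Type u) [Group Γ] (V : Type v) [MulAction Γ V] (T : SimpleGraph V), TreeAct Γ V T →
    (∀ u v, T.Adj u v → VN.ProjStFree (MulAction.stabilizer Γ (u, v))) →
    ∀ (O : Set (V × V)), (∀ (γ : Γ), ∀ a ∈ O, γ • a ∈ O) →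
    (∀ u v, T.Adj u v → ((u, v) ∈ O ↔ (v, u) ∉ O)) →
    ∀ (K : K1C (ZG Γ)), VGood K V → ∀ (s : Sys Γ T), (∀ k, s.f k ∈ O) →
      ∃ s' : Sys Γ T, s'.Adapted ∧ (K.G s'.Φ.toLinearMap → K.G s.Φ.toLinearMap)

/-- Module Theta. -/
def StTheta : Prop :=
  ∀ (Γ : Type u) [Group Γ] (V : Type v) [MulAction Γ V] (T : SimpleGraph V), TreeAct Γ V T →
    ∀ (s : Sys Γ T), s.Adapted →
      ∃ (ψ : F Γ (s.K ⊕ s.I) ≃ₗ[ZG Γ] F Γ s.J) (ω : Module.End (ZG Γ) (F Γ (s.K ⊕ s.I))),
        Gr (fun c => (cell s.f s.v c).2) s.w ψ.toLinearMap ∧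
        s.Φ.toLinearMap = ψ.toLinearMap ∘ₗ ((1 : Module.End (ZG Γ) (F Γ (s.K ⊕ s.I))) + ω) ∧
        IsNilpotent ω ∧
        Tr (fun a b => a.1 ≠ a.2 ∧ b.2 = a.1 ∧ b.1 ≠ a.2) (cell s.f s.v) (cell s.f s.v) ω

/-- `K` contains `1 + ν` for all nilpotent `ν` which move segments of length `l` one step
backwards. -/
def NilGood {Γ : Type u} [Group Γ] (K : K1C (ZG Γ)) {V : Type v} [MulAction Γ V]
    (T : SimpleGraph V) (l : ℕ) : Prop :=
  ∀ (ι : Type) [Finite ι] (p : ι → V × V) (ν : Module.End (ZG Γ) (F Γ ι)),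
    (∀ i, T.dist (p i).1 (p i).2 = l) → IsNilpotent ν → Tr (sh T l) p p ν →
    K.G ((1 : Module.End (ZG Γ) (F Γ ι)) + ν)

/-- Module KI. -/
def StKI : Prop :=
  ∀ (Γ : Type u) [Group Γ] (V : Type v) [MulAction Γ V] (T : SimpleGraph V), TreeAct Γ V T →
    ∀ (K : K1C (ZG Γ)), NilGood K T 1 → ∀ (A I : Type) [Finite A] [Finite I] (f : A → V × V)
      (v : I → V) (ω : Module.End (ZG Γ) (F Γ (A ⊕ I))), (∀ k, T.Adj (f k).1 (f k).2) →
      IsNilpotent ω → Tr (fun a b => a.1 ≠ a.2 ∧ b.2 = a.1 ∧ b.1 ≠ a.2) (cell f v) (cell f v) ω →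
      K.G ((1 : Module.End (ZG Γ) (F Γ (A ⊕ I))) + ω)

/-! ## The Bass class -/

section Bass

variable (G : Type u) [Group G]

/-- `ℤ[G × ℤ]^κ` as a module over `ℤ[G]`. -/
def LV (κ : Type) : Type u := κ → MonoidAlgebra ℤ (G × Multiplicative ℤ)

noncomputable instance (κ : Type) : AddCommGroup (LV G κ) :=
  inferInstanceAs (AddCommGroup (κ → MonoidAlgebra ℤ (G × Multiplicative ℤ)))

noncomputable instance (κ : Type) : Module (MonoidAlgebra ℤ G) (LV G κ) :=
  Module.compHom (κ → MonoidAlgebra ℤ (G × Multiplicative ℤ))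
    (inc ℤ (MonoidHom.inl G (Multiplicative ℤ)))

variable {G}

/-- A vector of `LV G κ` as a vector over `ℤ[G × ℤ]`. -/
abbrev asV {κ : Type} (y : LV G κ) : F (G × Multiplicative ℤ) κ := y

theorem lv_single {κ : Type} (g : G) (c : ℤ) (y : LV G κ) :
    (MonoidAlgebra.single g c : MonoidAlgebra ℤ G) • y
      = ((MonoidAlgebra.single (g, (1 : Multiplicative ℤ)) c :
        MonoidAlgebra ℤ (G × Multiplicative ℤ)) • asV y) := by
  funext i
  change inc ℤ (MonoidHom.inl G (Multiplicative ℤ)) (MonoidAlgebra.single g c) * y i = _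
  rw [inc_single]
  rfl

theorem lv_smul_induction {κ : Type} {Q : LV G κ → Prop} {y : LV G κ} (h0 : Q 0)
    (ha : ∀ a b, Q a → Q b → Q (a + b))
    (hs : ∀ (g : G) (c : ℤ), Q ((MonoidAlgebra.single g c : MonoidAlgebra ℤ G) • y))
    (s : MonoidAlgebra ℤ G) : Q (s • y) := by
  induction s using MonoidAlgebra.induction_linear with
  | zero => rwa [zero_smul]
  | add a b h1 h2 => rw [add_smul]; exact ha _ _ h1 h2
  | single γ c => exact hs γ c

/-- The vectors with all degrees at least `N`. -/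
noncomputable def Lat (N : ℤ) (κ : Type) : Submodule (MonoidAlgebra ℤ G) (LV G κ) where
  carrier := {y | ∀ (j : κ) (g : G × Multiplicative ℤ),
    ((y : κ → MonoidAlgebra ℤ (G × Multiplicative ℤ)) j).coeff g ≠ 0 → N ≤ g.2.toAdd}
  add_mem' {a b} ha hb j g hg := by
    by_cases h1 : ((a : κ → MonoidAlgebra ℤ (G × Multiplicative ℤ)) j).coeff g = 0
    · by_cases h2 : ((b : κ → MonoidAlgebra ℤ (G × Multiplicative ℤ)) j).coeff g = 0
      · exfalso
        apply hg
        change ((a : κ → MonoidAlgebra ℤ (G × Multiplicative ℤ)) j +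
          (b : κ → MonoidAlgebra ℤ (G × Multiplicative ℤ)) j).coeff g = 0
        rw [MonoidAlgebra.coeff_add, Finsupp.add_apply, h1, h2, add_zero]
      · exact hb j g h2
    · exact ha j g h1
  zero_mem' j g hg := absurd rfl hg
  smul_mem' s y h := by
    refine lv_smul_induction (Q := fun y : LV G κ => ∀ (j : κ) (g : G × Multiplicative ℤ),
      ((y : κ → MonoidAlgebra ℤ (G × Multiplicative ℤ)) j).coeff g ≠ 0 → N ≤ g.2.toAdd)
      (fun j g hg => absurd rfl hg) (fun a b ha hb j g hg => ?_) (fun g c j g' hg' => ?_) s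
    · by_cases h1 : ((a : κ → MonoidAlgebra ℤ (G × Multiplicative ℤ)) j).coeff g = 0
      · by_cases h2 : ((b : κ → MonoidAlgebra ℤ (G × Multiplicative ℤ)) j).coeff g = 0
        · exfalso
          apply hg
          change ((a : κ → MonoidAlgebra ℤ (G × Multiplicative ℤ)) j +
            (b : κ → MonoidAlgebra ℤ (G × Multiplicative ℤ)) j).coeff g = 0
          rw [MonoidAlgebra.coeff_add, Finsupp.add_apply, h1, h2, add_zero]
        · exact hb j g h2
      · exact ha j g h1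
    · rw [lv_single] at hg'
      change (MonoidAlgebra.single (g, (1 : Multiplicative ℤ)) c *
        (y : κ → MonoidAlgebra ℤ (G × Multiplicative ℤ)) j).coeff g' ≠ 0 at hg'
      rw [MonoidAlgebra.coeff_single_mul_apply] at hg'
      have h1 := h j _ (right_ne_zero_of_mul hg')
      simpa using h1

/-- A linear map over `ℤ[G × ℤ]` as a linear map over `ℤ[G]`. -/
noncomputable def LL {ι κ : Type} (Φ : F (G × Multiplicative ℤ) ι →ₗ[ZG (G × Multiplicative ℤ)]
    F (G × Multiplicative ℤ) κ) : LV G ι →ₗ[MonoidAlgebra ℤ G] LV G κ where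
  toFun := Φ
  map_add' := Φ.map_add
  map_smul' s y := Φ.map_smul (inc ℤ (MonoidHom.inl G (Multiplicative ℤ)) s) y

/-- The Bass class: `Φ` is bijective and, for some lattice `Lat N` containing `Φ (Lat 0)`, the
quotient `Lat N / Φ (Lat 0)` is stably free over `ℤ[G]`. -/
def BG {ι κ : Type} (Φ : F (G × Multiplicative ℤ) ι →ₗ[ZG (G × Multiplicative ℤ)]
    F (G × Multiplicative ℤ) κ) : Prop :=
  Function.Bijective Φ ∧ ∃ N : ℤ, (Lat (G := G) 0 ι).map (LL Φ) ≤ Lat (G := G) N κ ∧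
    StFree (MonoidAlgebra ℤ G)
      (Lat (G := G) N κ ⧸ ((Lat (G := G) 0 ι).map (LL Φ)).submoduleOf (Lat (G := G) N κ))

end Bass

/-- Module BassProj. -/
def StBassProj : Prop :=
  ∀ (G : Type u) [Group G] (ι κ : Type) [Finite ι] [Finite κ]
    (Φ : F (G × Multiplicative ℤ) ι →ₗ[ZG (G × Multiplicative ℤ)] F (G × Multiplicative ℤ) κ),
    Function.Bijective Φ →
    (∃ N : ℤ, (Lat (G := G) 0 ι).map (LL Φ) ≤ Lat (G := G) N κ) ∧
    ∀ N : ℤ, (Lat (G := G) 0 ι).map (LL Φ) ≤ Lat (G := G) N κ →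
      Module.Finite (MonoidAlgebra ℤ G)
        (Lat (G := G) N κ ⧸ ((Lat (G := G) 0 ι).map (LL Φ)).submoduleOf (Lat (G := G) N κ)) ∧
      Module.Projective (MonoidAlgebra ℤ G)
        (Lat (G := G) N κ ⧸ ((Lat (G := G) 0 ι).map (LL Φ)).submoduleOf (Lat (G := G) N κ))

/-- Module BassClass. -/
def StBassClass : Prop :=
  ∀ (G : Type u) [Group G], ∃ K : K1C (ZG (G × Multiplicative ℤ)),
    ∀ (ι κ : Type) (Φ : F (G × Multiplicative ℤ) ι →ₗ[ZG (G × Multiplicative ℤ)]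
      F (G × Multiplicative ℤ) κ), K.G Φ ↔ BG Φ

/-- Multiplication of the coordinates by group elements from the right. -/
def StBassMono : Prop :=
  ∀ (G : Type u) [Group G] (ι : Type) [Finite ι] (g : ι → G × Multiplicative ℤ)
    (Φ : F (G × Multiplicative ℤ) ι →ₗ[ZG (G × Multiplicative ℤ)] F (G × Multiplicative ℤ) ι),
    (∀ y i, Φ y i = y i * MonoidAlgebra.single (g i) 1) → BG Φ

/-- Module BassVert. -/
def StBassVert : Prop :=
  ∀ (G : Type u) [Group G] (H : Subgroup G), VN.ProjStFree H →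
    ∀ (ι κ : Type) [Fintype ι] [Fintype κ] [DecidableEq ι] [DecidableEq κ]
      (A : Matrix ι κ (MonoidAlgebra ℤ (H.prod (⊤ : Subgroup (Multiplicative ℤ)))))
      (B : Matrix κ ι (MonoidAlgebra ℤ (H.prod (⊤ : Subgroup (Multiplicative ℤ))))),
      A * B = 1 → B * A = 1 →
      BG (Matrix.toLinearMapRight' (A.map (inc ℤ (H.prod ⊤).subtype)))

/-- Module BassIdem. -/
def StBassIdem : Prop :=
  ∀ (G : Type u) [Group G] (n : ℕ) (p : Matrix (Fin n) (Fin n) (MonoidAlgebra ℤ G)), p * p = p →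
    ∃ α : F (G × Multiplicative ℤ) (Fin n) →ₗ[ZG (G × Multiplicative ℤ)]
        F (G × Multiplicative ℤ) (Fin n),
      Function.Bijective α ∧ (BG α → StFree (MonoidAlgebra ℤ G) (Img p))

/-- Module Graded. Classes which contain the monomial maps and the maps defined over the
stabilisers of vertices contain all maps which preserve positions at vertices. -/
def StGraded : Prop :=
  ∀ (Γ : Type u) [Group Γ] (V : Type v) [MulAction Γ V] (K : K1C (ZG Γ)),
    (∀ (ι : Type) [Finite ι] (g : ι → Γ) (Φ : F Γ ι →ₗ[ZG Γ] F Γ ι),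
      (∀ y i, Φ y i = y i * MonoidAlgebra.single (g i) 1) → K.G Φ) →
    (∀ (x : V) (ι κ : Type) [Fintype ι] [Fintype κ] [DecidableEq ι] [DecidableEq κ]
      (A : Matrix ι κ (MonoidAlgebra ℤ (MulAction.stabilizer Γ x)))
      (B : Matrix κ ι (MonoidAlgebra ℤ (MulAction.stabilizer Γ x))), A * B = 1 → B * A = 1 →
      K.G (Matrix.toLinearMapRight' (A.map (inc ℤ (MulAction.stabilizer Γ x).subtype)))) →
    VGood K V

end Pool.Agent.Lib.MP_551055_al.LS
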