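import Mathlib
import Pool.Agent.Lib.MP_551055_al.Trim.LS.Pos
import Pool.Agent.Lib.MP_551055_al.Trim.LS.Stmts
import Pool.Agent.Lib.MP_551055_al.Trim.Red.Orb

/-!
# Regular noetherian group rings and extensions by `ℤ`: statements
-/

set_option autoImplicit false

namespace Pool.Agent.Lib.MP_551055_al
end Pool.Agent.Lib.MP_551055_al

namespace Pool.Agent.Lib.MP_551055_al.Red
end Pool.Agent.Lib.MP_551055_al.Red

namespace Pool.Agent.Lib.MP_551055_al.LS

open Pool.Agent.Lib.MP_551055_al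

open Pool.Agent.Lib.MP_551055_al.Red (Vec)

universe u

/-- `R` is left noetherian and every finitely generated left module has a finite resolution by
finitely generated projective modules. -/
def RegNoeth (R : Type u) [Ring R] : Prop :=
  IsNoetherianRing R ∧ ∀ (M : Type u) [AddCommGroup M] [Module R M], Module.Finite R M → ∃ d, FFR R d M

section

variable {Γ : Type u} [Group Γ]

/-- The integers, with the action of `Γ` by translations through `f`. -/
def Ln (_f : Γ →* Multiplicative ℤ) : Type := ℤ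

/-- An integer as a point of the line. -/
def pt (f : Γ →* Multiplicative ℤ) (k : ℤ) : Ln f := k

/-- A point of the line as an integer. -/
def co {f : Γ →* Multiplicative ℤ} (x : Ln f) : ℤ := x

theorem co_pt (f : Γ →* Multiplicative ℤ) (k : ℤ) : co (pt f k) = k := rfl

theorem pt_co {f : Γ →* Multiplicative ℤ} (x : Ln f) : pt f (co x) = x := rfl

theorem co_injective (f : Γ →* Multiplicative ℤ) : Function.Injective (co (f := f)) :=
  fun _ _ h => h

instance (f : Γ →* Multiplicative ℤ) : MulAction Γ (Ln f) where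
  smul γ x := pt f ((f γ).toAdd + co x)
  one_smul x := by
    change (f 1).toAdd + co x = co x
    rw [map_one, toAdd_one, zero_add]
  mul_smul a b x := by
    change (f (a * b)).toAdd + co x = (f a).toAdd + ((f b).toAdd + co x)
    rw [map_mul, toAdd_mul, add_assoc]

theorem co_smul {f : Γ →* Multiplicative ℤ} (γ : Γ) (x : Ln f) :
    co (γ • x) = (f γ).toAdd + co x := rfl

theorem smul_pt (f : Γ →* Multiplicative ℤ) (γ : Γ) (k : ℤ) :
    γ • pt f k = pt f ((f γ).toAdd + k) := rfl

/-- The constant position `0`. -/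
def pz (f : Γ →* Multiplicative ℤ) (ι : Type) : ι → Ln f := fun _ => pt f 0

/-- The points between `a` and `b`. -/
def seg (f : Γ →* Multiplicative ℤ) (a b : ℤ) : Set (Ln f) := {x | a ≤ co x ∧ co x ≤ b}

theorem pt_mem_seg (f : Γ →* Multiplicative ℤ) (a b k : ℤ) :
    pt f k ∈ seg f a b ↔ a ≤ k ∧ k ≤ b := Iff.rfl

theorem mem_stab (f : Γ →* Multiplicative ℤ) (k : ℤ) (γ : Γ) :
    γ ∈ MulAction.stabilizer Γ (pt f k) ↔ (f γ).toAdd = 0 := by
  rw [MulAction.mem_stabilizer_iff, smul_pt]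
  constructor
  · intro h
    have h1 : (f γ).toAdd + k = k := h
    omega
  · intro h
    rw [h, zero_add]

/-- The kernel of `f`, as the stabiliser of the point `0`. -/
abbrev St (f : Γ →* Multiplicative ℤ) : Subgroup Γ := MulAction.stabilizer Γ (pt f 0)

variable {ι : Type}

/-- The vectors of `M` with all degrees in `[a, b]`, as a module over the group ring of the
kernel. -/
def winSub (f : Γ →* Multiplicative ℤ) (M : Submodule (ZG Γ) (F Γ ι)) (a b : ℤ) :
    Submodule (MonoidAlgebra ℤ (St f)) (Vec (St f) ι) where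
  carrier := {y | In (pz f ι) (seg f a b) (y : F Γ ι) ∧ (y : F Γ ι) ∈ M}
  add_mem' h h' := ⟨h.1.add h'.1, M.add_mem h.2 h'.2⟩
  zero_mem' := ⟨In.zero _ _, M.zero_mem⟩
  smul_mem' s y h := by
    refine vec_smul_induction (Q := fun y : Vec (St f) ι =>
      In (pz f ι) (seg f a b) (y : F Γ ι) ∧ (y : F Γ ι) ∈ M)
      ⟨In.zero _ _, M.zero_mem⟩
      (fun a b h h' => ⟨h.1.add h'.1, M.add_mem h.2 h'.2⟩) (fun γ c => ?_) s
    rw [vec_single]
    have h0 : (f (γ : Γ)).toAdd = 0 := (mem_stab f 0 γ).1 γ.2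
    refine ⟨h.1.smul _ _ fun x hx => ?_, M.smul_mem _ h.2⟩
    change a ≤ (f (γ : Γ)).toAdd + co x ∧ (f (γ : Γ)).toAdd + co x ≤ b
    rw [h0, zero_add]
    exact hx

theorem mem_winSub {f : Γ →* Multiplicative ℤ} {M : Submodule (ZG Γ) (F Γ ι)} {a b : ℤ}
    {y : Vec (St f) ι} :
    y ∈ winSub f M a b ↔ In (pz f ι) (seg f a b) (y : F Γ ι) ∧ (y : F Γ ι) ∈ M := Iff.rfl

/-- The map `e_(k, i) ↦ t ^ k e_i`. -/
noncomputable def evm (t : Γ) (m : ℕ) (ι : Type) : F Γ (Fin (m + 1) × ι) →ₗ[ZG Γ] F Γ ι where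
  toFun y := fun i => ∑ k : Fin (m + 1), y (k, i) * MonoidAlgebra.single (t ^ (k : ℕ)) 1
  map_add' y z := by
    funext i
    rw [Pi.add_apply, ← Finset.sum_add_distrib]
    exact Finset.sum_congr rfl fun k _ => by rw [Pi.add_apply, add_mul]
  map_smul' s y := by
    funext i
    rw [RingHom.id_apply, Pi.smul_apply, smul_eq_mul, Finset.mul_sum]
    exact Finset.sum_congr rfl fun k _ => by rw [Pi.smul_apply, smul_eq_mul, mul_assoc]

theorem evm_apply (t : Γ) (m : ℕ) (y : F Γ (Fin (m + 1) × ι)) (i : ι) :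
    evm t m ι y i = ∑ k : Fin (m + 1), y (k, i) * MonoidAlgebra.single (t ^ (k : ℕ)) 1 := rfl

/-- The vectors all of whose homogeneous parts are mapped into `M` by `evm`. -/
noncomputable def SB (f : Γ →* Multiplicative ℤ) (t : Γ) (m : ℕ)
    (M : Submodule (ZG Γ) (F Γ ι)) : Submodule (ZG Γ) (F Γ (Fin (m + 1) × ι)) where
  carrier := {y | ∀ x, evm t m ι (pr (pz f _) {x} y) ∈ M}
  add_mem' h h' x := by rw [map_add, map_add]; exact M.add_mem (h x) (h' x)
  zero_mem' x := by rw [map_zero, map_zero]; exact M.zero_mem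
  smul_mem' s y h := by
    refine smul_induction (Q := fun y => ∀ x, evm t m ι (pr (pz f _) {x} y) ∈ M) (fun x => ?_)
      (fun a b h h' x => ?_) (fun γ c x => ?_) s
    · rw [map_zero, map_zero]
      exact M.zero_mem
    · rw [map_add, map_add]
      exact M.add_mem (h x) (h' x)
    · have hx : x = γ • (γ⁻¹ • x) := by rw [smul_smul, mul_inv_cancel, one_smul]
      rw [hx, pr_smul_singleton, map_smul]
      exact M.smul_mem _ (h _)

theorem mem_SB {f : Γ →* Multiplicative ℤ} {t : Γ} {m : ℕ} {M : Submodule (ZG Γ) (F Γ ι)}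
    {y : F Γ (Fin (m + 1) × ι)} :
    y ∈ SB f t m M ↔ ∀ x, evm t m ι (pr (pz f _) {x} y) ∈ M := Iff.rfl

end

/-- Module PWin. The windows of a finite free module are finitely generated over `ℤ[ker f]`. -/
def StPWin : Prop :=
  ∀ (Γ : Type u) [Group Γ] (f : Γ →* Multiplicative ℤ), Function.Surjective f →
    ∀ (ι : Type) [Finite ι] (a b : ℤ),
      Module.Finite (MonoidAlgebra ℤ (St f)) (winSub f (⊤ : Submodule (ZG Γ) (F Γ ι)) a b)

/-- Module PNoeth (Hilbert's basis theorem). -/
def StPNoeth : Prop :=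
  ∀ (Γ : Type u) [Group Γ] (f : Γ →* Multiplicative ℤ), Function.Surjective f →
    IsNoetherianRing (MonoidAlgebra ℤ (St f)) →
    IsNoetherianRing (ZG Γ) ∧ ∀ (ι : Type) [Finite ι] (M : Submodule (ZG Γ) (F Γ ι)),
      ∃ k : ℕ, ∀ y ∈ M, y ∈ Submodule.span (ZG Γ) {z : F Γ ι | z ∈ M ∧ In (pz f ι) (seg f 0 k) z}

/-- Module PExt (horseshoe). Extensions of modules with finite resolutions. -/
def StPExt : Prop :=
  ∀ (R : Type u) [Ring R] (d : ℕ) (A B C : Type u) [AddCommGroup A] [AddCommGroup B]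
    [AddCommGroup C] [Module R A] [Module R B] [Module R C] (i : A →ₗ[R] B) (q : B →ₗ[R] C),
    Function.Injective i → Function.Surjective q → LinearMap.range i = LinearMap.ker q →
    FFR R d A → FFR R d C → FFR R d B

/-- Module PSes. Quotients of modules with finite resolutions. -/
def StPSes : Prop :=
  ∀ (R : Type u) [Ring R] (d : ℕ) (A B C : Type u) [AddCommGroup A] [AddCommGroup B]
    [AddCommGroup C] [Module R A] [Module R B] [Module R C] (i : A →ₗ[R] B) (q : B →ₗ[R] C),
    Function.Injective i → Function.Surjective q → LinearMap.range i = LinearMap.ker q →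
    FFR R d A → FFR R d B → FFR R (d + 1) C

/-- Module PGr. Resolutions of the window give resolutions of the induced module. -/
def StPGr : Prop :=
  ∀ (Γ : Type u) [Group Γ] (f : Γ →* Multiplicative ℤ) (t : Γ), f t = Multiplicative.ofAdd 1 →
    ∀ (ι : Type) [Finite ι] (m d : ℕ) (M : Submodule (ZG Γ) (F Γ ι)),
      FFR (MonoidAlgebra ℤ (St f)) d (winSub f M 0 m) → FFR (ZG Γ) d (SB f t m M)

/-- Module PExact (Mayer-Vietoris). -/
def StPExact : Prop :=
  ∀ (Γ : Type u) [Group Γ] (f : Γ →* Multiplicative ℤ) (t : Γ), f t = Multiplicative.ofAdd 1 →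
    ∀ (ι : Type) [Finite ι] (n : ℕ) (M : Submodule (ZG Γ) (F Γ ι)),
      ∃ (θ : SB f t n M →ₗ[ZG Γ] SB f t (n + 1) M) (e : SB f t (n + 1) M →ₗ[ZG Γ] M),
        Function.Injective θ ∧ LinearMap.range θ = LinearMap.ker e ∧
        ∀ y : M, In (pz f ι) (seg f 0 (n + 1)) (y : F Γ ι) → y ∈ LinearMap.range e

/-- Module PReg. -/
def StPReg : Prop :=
  ∀ (Γ : Type u) [Group Γ] (f : Γ →* Multiplicative ℤ), Function.Surjective f →
    RegNoeth (MonoidAlgebra ℤ (St f)) → RegNoeth (ZG Γ)

/-- The free abelian group of rank `n`. -/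
abbrev ZN (n : ℕ) : Type := Multiplicative (Fin n → ℤ)

/-- Poly-`ℤ` groups. -/
inductive PolyZ : ∀ (G : Type) [Group G], Prop
  | triv (G : Type) [Group G] : Subsingleton G → PolyZ G
  | ext (G : Type) [Group G] (f : G →* Multiplicative ℤ) : Function.Surjective f →
      PolyZ f.ker → PolyZ G

/-- Module PFin. -/
def StPFin : Prop :=
  ∀ (G : Type) [Group G], PolyZ G → ∀ n : ℕ, RegNoeth (MonoidAlgebra ℤ (G × ZN n))

end Pool.Agent.Lib.MP_551055_al.LS
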