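import Mathlib
import Pool.Agent.Lib.MP_551055_al.Trim.LS.FFR
import Pool.Agent.Lib.MP_551055_al.Trim.LS.Stmts

/-!
# Devissage

A unipotent map with respect to a filtration with graded pieces of finite projective dimension has
class zero.
-/

set_option autoImplicit false

namespace Pool.Agent.Lib.MP_551055_al
end Pool.Agent.Lib.MP_551055_al

namespace Pool.Agent.Lib.MP_551055_al.LS

open Pool.Agent.Lib.MP_551055_al

universe u

namespace Dev

variable {S : Type u} [Ring S]

/-- The identity. -/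
theorem g_id (K : K1C S) (ι : Type) [Finite ι] : K.G (LinearMap.id : (ι → S) →ₗ[S] (ι → S)) := by
  have h := K.perm (Equiv.refl ι)
  have h1 : LinearMap.funLeft S S (Equiv.refl ι).symm = LinearMap.id := by
    ext x
    rfl
  rwa [h1] at h

/-- A direct summand of a finitely generated projective module. -/
theorem retract {Y Z : Type u} [AddCommGroup Y] [Module S Y] [AddCommGroup Z] [Module S Z]
    [Module.Finite S Y] [Module.Projective S Y] (i : Z →ₗ[S] Y) (r : Y →ₗ[S] Z)
    (h : r ∘ₗ i = LinearMap.id) : Module.Finite S Z ∧ Module.Projective S Z :=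
  ⟨Module.Finite.of_surjective r fun z => ⟨i z, DFunLike.congr_fun h z⟩,
    Module.Projective.of_split i r h⟩

/-- The kernel of a surjection onto a projective module. -/
theorem ker_proj {X Y : Type u} [AddCommGroup X] [Module S X] [AddCommGroup Y] [Module S Y]
    [Module.Finite S X] [Module.Projective S X] [Module.Projective S Y] (π : X →ₗ[S] Y)
    (hπ : Function.Surjective π) :
    Module.Finite S (LinearMap.ker π) ∧ Module.Projective S (LinearMap.ker π) := by
  obtain ⟨s, hs⟩ := Module.projective_lifting_property π LinearMap.id hπ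
  have hs' : ∀ m, π (s m) = m := fun m => DFunLike.congr_fun hs m
  let q : X →ₗ[S] LinearMap.ker π :=
    LinearMap.codRestrict (LinearMap.ker π) (LinearMap.id - s ∘ₗ π) fun y => by
      rw [LinearMap.mem_ker, LinearMap.sub_apply, map_sub, LinearMap.comp_apply, hs',
        LinearMap.id_apply, sub_self]
  refine retract (LinearMap.ker π).subtype q ?_
  ext1 y
  apply Subtype.ext
  change (y : X) - s (π y) = y
  rw [LinearMap.mem_ker.1 y.2, map_zero, sub_zero]

/-- A finitely generated projective module has a complement. -/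
theorem exists_compl (Y : Type u) [AddCommGroup Y] [Module S Y] [Module.Finite S Y]
    [Module.Projective S Y] : ∃ (n : ℕ) (Z : Type u) (_ : AddCommGroup Z) (_ : Module S Z),
      Nonempty ((Y × Z) ≃ₗ[S] (Fin n → S)) := by
  obtain ⟨n, f, hf⟩ := Module.Finite.exists_fin' S Y
  obtain ⟨s, hs⟩ := Module.projective_lifting_property f LinearMap.id hf
  have hs' : ∀ m, f (s m) = m := fun m => DFunLike.congr_fun hs m
  refine ⟨n, LinearMap.ker f, inferInstance, inferInstance, ⟨?_⟩⟩
  refine LinearEquiv.ofBijective (s.coprod (LinearMap.ker f).subtype) ⟨?_, ?_⟩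
  · rw [injective_iff_map_eq_zero]
    rintro ⟨y, z⟩ h
    rw [LinearMap.coprod_apply] at h
    have h1 : f (s y + (LinearMap.ker f).subtype z) = 0 := by rw [h, map_zero]
    rw [map_add, hs', Submodule.subtype_apply, LinearMap.mem_ker.1 z.2, add_zero] at h1
    subst h1
    rw [map_zero, zero_add] at h
    have h2 : z = 0 := Subtype.ext h
    rw [h2]
    rfl
  · intro x
    refine ⟨(f x, ⟨x - s (f x), ?_⟩), ?_⟩
    · rw [LinearMap.mem_ker, map_sub, hs', sub_self]
    · rw [LinearMap.coprod_apply, Submodule.subtype_apply]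
      exact add_sub_cancel _ _

theorem ga_id (K : K1C S) (Y : Type u) [AddCommGroup Y] [Module S Y] [Module.Finite S Y]
    [Module.Projective S Y] : K.GA (LinearMap.id : Y →ₗ[S] Y) := by
  obtain ⟨n, Z, i1, i2, ⟨e⟩⟩ := exists_compl (S := S) Y
  refine ⟨n, Z, i1, i2, e, ?_⟩
  have h : e.toLinearMap ∘ₗ ((LinearMap.id : Y →ₗ[S] Y).prodMap LinearMap.id) ∘ₗ
      e.symm.toLinearMap = LinearMap.id := by
    ext1 x
    simp
  rw [h]
  exact g_id K _

theorem ga_of_subsingleton (K : K1C S) (Y : Type u) [AddCommGroup Y] [Module S Y]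
    [Subsingleton Y] (f : Y →ₗ[S] Y) : K.GA f := by
  have h0 := FFR.of_subsingleton (R := S) 0 (M := Y)
  have h1 : Module.Finite S Y := h0.1
  have h2 : Module.Projective S Y := h0.2
  have h3 : f = LinearMap.id := Subsingleton.elim _ _
  rw [h3]
  exact ga_id K Y

/-- A subquotient, seen in a submodule. -/
noncomputable def subq {Y : Type u} [AddCommGroup Y] [Module S Y] (A B C : Submodule S Y)
    (hBC : B ≤ C) :
    (B ⧸ A.submoduleOf B) ≃ₗ[S]
      (B.submoduleOf C ⧸ (A.submoduleOf C).submoduleOf (B.submoduleOf C)) := by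
  let e : B ≃ₗ[S] B.submoduleOf C := (Submodule.submoduleOfEquivOfLe hBC).symm
  refine Submodule.Quotient.equiv _ _ e ?_
  ext x
  constructor
  · rintro ⟨y, hy, rfl⟩
    exact hy
  · intro hx
    refine ⟨e.symm x, ?_, e.apply_symm_apply x⟩
    exact hx

/-- The case of projective graded pieces. -/
theorem dev_zero (hS : StSES.{u}) (K : K1C S) (k : ℕ) :
    ∀ (Y : Type u) [AddCommGroup Y] [Module S Y] (Fil : ℕ → Submodule S Y) (ν : Y →ₗ[S] Y),
      Module.Finite S Y → Module.Projective S Y → Fil 0 = ⊥ → Fil k = ⊤ → Monotone Fil →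
      (∀ i, ∀ y ∈ Fil (i + 1), ν y ∈ Fil i) →
      (∀ i < k, FFR S 0 (Fil (i + 1) ⧸ (Fil i).submoduleOf (Fil (i + 1)))) →
      K.GA (LinearMap.id + ν) := by
  induction k with
  | zero =>
    intro Y _ _ Fil ν _ _ h0 h1 _ _ _
    have : Subsingleton Y := by
      rw [h0] at h1
      refine ⟨fun a b => ?_⟩
      have ha : a ∈ (⊥ : Submodule S Y) := h1 ▸ Submodule.mem_top
      have hb : b ∈ (⊥ : Submodule S Y) := h1 ▸ Submodule.mem_top
      rw [(Submodule.mem_bot S).1 ha, (Submodule.mem_bot S).1 hb]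
    exact ga_of_subsingleton K Y _
  | succ k ih =>
    intro Y _ _ Fil ν hfin hproj h0 h1 hmono hν hgr
    have htop : ∀ y, y ∈ Fil (k + 1) := fun y => h1 ▸ Submodule.mem_top
    have e : (Fil (k + 1) ⧸ (Fil k).submoduleOf (Fil (k + 1))) ≃ₗ[S] (Y ⧸ Fil k) := by
      refine Submodule.Quotient.equiv _ _ (LinearEquiv.ofTop (Fil (k + 1)) h1) ?_
      ext y
      constructor
      · rintro ⟨z, hz, rfl⟩
        exact hz
      · intro hy
        exact ⟨⟨y, htop y⟩, hy, rfl⟩
    have hq : FFR S 0 (Y ⧸ Fil k) := (hgr k (Nat.lt_succ_self k)).congr e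
    have hq1 : Module.Finite S (Y ⧸ Fil k) := hq.1
    have hq2 : Module.Projective S (Y ⧸ Fil k) := hq.2
    -- the submodule is a direct summand
    have hsub : Module.Finite S (Fil k) ∧ Module.Projective S (Fil k) := by
      have h2 := ker_proj (Fil k).mkQ (Submodule.mkQ_surjective _)
      have e2 : LinearMap.ker (Fil k).mkQ ≃ₗ[S] Fil k :=
        LinearEquiv.ofEq _ _ (Submodule.ker_mkQ _)
      exact FFR.congr (d := 0) e2 h2
    have hν' : ∀ y ∈ Fil k, ν y ∈ Fil k := fun y _ => hν k y (htop y)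
    have hga : K.GA (LinearMap.id + ν.restrict hν') := by
      refine ih (Fil k) (fun i => (Fil i).submoduleOf (Fil k)) (ν.restrict hν') hsub.1 hsub.2
        ?_ ?_ ?_ ?_ ?_
      · rw [h0]
        ext y
        exact ⟨fun h => (Submodule.mem_bot S).2 (Subtype.ext ((Submodule.mem_bot S).1 h)),
          fun h => (Submodule.mem_bot S).2 (congrArg Subtype.val ((Submodule.mem_bot S).1 h))⟩
      · ext y
        exact ⟨fun _ => Submodule.mem_top, fun _ => y.2⟩
      · intro i j hij y hy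
        exact hmono hij hy
      · intro i y hy
        exact hν i y hy
      · intro i hi
        exact (hgr i (hi.trans (Nat.lt_succ_self k))).congr
          (subq (Fil i) (Fil (i + 1)) (Fil k) (hmono hi))
    refine (hS S K (Fil k) Y (Y ⧸ Fil k) (Fil k).subtype (Fil k).mkQ
      (LinearMap.id + ν.restrict hν') (LinearMap.id + ν) LinearMap.id hfin hproj hq2
      (Submodule.subtype_injective _) (Submodule.mkQ_surjective _)
      (by rw [Submodule.range_subtype, Submodule.ker_mkQ]) ?_ ?_).1 hga (ga_id K _)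
    · ext1 y
      rfl
    · ext1 y
      change Submodule.Quotient.mk (y + ν y) = (Submodule.Quotient.mk y : Y ⧸ Fil k)
      rw [Submodule.Quotient.mk_add, (Submodule.Quotient.mk_eq_zero (Fil k)).2 (hν k y (htop y)),
        add_zero]

/-! ## The main step -/

/-- The index type of the bases. -/
abbrev Ix {k : ℕ} (n : Fin k → ℕ) : Type := (i : Fin k) × Fin (n i)

section Step

variable {k : ℕ} {n : Fin k → ℕ}

/-- The vectors with coordinates of rank less than `i`. -/
def Xf (S : Type u) [Ring S] {k : ℕ} (n : Fin k → ℕ) (i : ℕ) : Submodule S (Ix n → S) where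
  carrier := {x | ∀ j : Ix n, i ≤ (j.1 : ℕ) → x j = 0}
  add_mem' hx hy j hj := by rw [Pi.add_apply, hx j hj, hy j hj, add_zero]
  zero_mem' _ _ := rfl
  smul_mem' s x hx j hj := by rw [Pi.smul_apply, hx j hj, smul_zero]

theorem Xf_mono : Monotone (Xf S n) := fun _ _ hij _ hx j hj => hx j (hij.trans hj)

/-- The indices of rank `i`. -/
def ij (n : Fin k → ℕ) (i : Fin k) (a : Fin (n i)) : Ix n := ⟨i, a⟩

theorem ij_inj (n : Fin k → ℕ) (i : Fin k) : Function.Injective (ij n i) := fun a b h => by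
  have h1 : (⟨i, a⟩ : Ix n) = ⟨i, b⟩ := h
  exact eq_of_heq (Sigma.mk.inj h1).2

/-- The inclusion of the part of rank `i`. -/
noncomputable def emb (i : Fin k) : (Fin (n i) → S) →ₗ[S] (Ix n → S) :=
  Function.ExtendByZero.linearMap S (ij n i)

theorem emb_same (i : Fin k) (z : Fin (n i) → S) (a : Fin (n i)) :
    emb (n := n) i z ⟨i, a⟩ = z a :=
  Function.Injective.extend_apply (ij_inj n i) z 0 a

theorem emb_ne (i : Fin k) (z : Fin (n i) → S) (j : Ix n) (hj : j.1 ≠ i) :
    emb (n := n) i z j = 0 :=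
  Function.extend_apply' z (0 : Ix n → S) j (by
    rintro ⟨a, rfl⟩
    exact hj rfl)

theorem emb_mem (i : Fin k) (z : Fin (n i) → S) : emb (n := n) i z ∈ Xf S n (i + 1) := by
  intro j hj
  refine emb_ne i z j fun h => ?_
  rw [h] at hj
  omega

/-- The coordinates of rank `i`. -/
def crd (i : Fin k) : (Ix n → S) →ₗ[S] (Fin (n i) → S) := LinearMap.funLeft S S (ij n i)

theorem crd_apply (i : Fin k) (x : Ix n → S) (a : Fin (n i)) : crd i x a = x ⟨i, a⟩ := rfl

theorem crd_emb (i : Fin k) (z : Fin (n i) → S) : crd i (emb (n := n) i z) = z :=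
  funext fun a => emb_same i z a

theorem crd_eq_zero (i : Fin k) {x : Ix n → S} (hx : x ∈ Xf S n i) : crd i x = 0 :=
  funext fun a => hx ⟨i, a⟩ le_rfl

theorem sub_mem (i : Fin k) {x : Ix n → S} (hx : x ∈ Xf S n (i + 1)) :
    x - emb i (crd i x) ∈ Xf S n i := by
  rintro ⟨i', a⟩ hj
  rw [Pi.sub_apply]
  by_cases h : i' = i
  · subst h
    rw [emb_same, crd_apply, sub_self]
  · rw [emb_ne i _ _ h, sub_zero]
    refine hx _ ?_
    have : (i' : ℕ) ≠ i := fun h1 => h (Fin.ext h1)
    change (i : ℕ) ≤ i' at hj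
    change (i : ℕ) + 1 ≤ i'
    omega

variable {Y : Type u} [AddCommGroup Y] [Module S Y]

/-- Extension of maps from the basis. -/
noncomputable def lc {ι : Type} [Fintype ι] (b : ι → Y) : (ι → S) →ₗ[S] Y :=
  Fintype.linearCombination S b

theorem lc_apply {ι : Type} [Fintype ι] (b : ι → Y) (x : ι → S) : lc b x = ∑ j, x j • b j :=
  Fintype.linearCombination_apply S b x

theorem lc_single {ι : Type} [Fintype ι] [DecidableEq ι] (b : ι → Y) (j : ι) :
    lc (S := S) b (Pi.single j 1) = b j := by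
  rw [lc, Fintype.linearCombination_apply_single, one_smul]

theorem lc_ext {ι : Type} [Fintype ι] [DecidableEq ι] (f g : (ι → S) →ₗ[S] Y)
    (h : ∀ j, f (Pi.single j 1) = g (Pi.single j 1)) : f = g :=
  (Pi.basisFun S ι).ext fun j => by rw [Pi.basisFun_apply, h]

theorem lc_mem {t : ℕ} (b : Ix n → Y) (F : Submodule S Y) (hb : ∀ j : Ix n, (j.1 : ℕ) < t → b j ∈ F)
    {x : Ix n → S} (hx : x ∈ Xf S n t) : lc b x ∈ F := by
  rw [lc_apply]
  refine F.sum_mem fun j _ => ?_
  by_cases h : (j.1 : ℕ) < t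
  · exact F.smul_mem _ (hb j h)
  · rw [hx j (not_lt.1 h), zero_smul]
    exact F.zero_mem

/-- One graded piece of the kernel. -/
theorem graded (d : ℕ) {X W Y Q : Type u} [AddCommGroup X] [Module S X] [AddCommGroup W]
    [Module S W] [AddCommGroup Y] [Module S Y] [AddCommGroup Q] [Module S Q] (π : X →ₗ[S] Y)
    (A B : Submodule S X) (hAB : A ≤ B) (FY : Submodule S Y) (hπ : ∀ x ∈ A, π x ∈ FY)
    (hsurj : ∀ y ∈ FY, ∃ x ∈ A, π x = y) (em : W →ₗ[S] X) (cr : X →ₗ[S] W)
    (hem : ∀ z, em z ∈ B) (hce : ∀ z, cr (em z) = z) (hcz : ∀ x ∈ A, cr x = 0)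
    (hsub : ∀ x ∈ B, x - em (cr x) ∈ A) (φ : W →ₗ[S] Q)
    (hφ : ∀ z, φ z = 0 ↔ π (em z) ∈ FY) (hker : FFR S d (LinearMap.ker φ)) :
    FFR S d ((B.submoduleOf (LinearMap.ker π)) ⧸
      (A.submoduleOf (LinearMap.ker π)).submoduleOf (B.submoduleOf (LinearMap.ker π))) := by
  have hmem : ∀ x : B.submoduleOf (LinearMap.ker π),
      cr ((x : LinearMap.ker π) : X) ∈ LinearMap.ker φ := by
    rintro ⟨⟨x, hx1⟩, hx2⟩
    have hx3 : x ∈ B := hx2
    rw [LinearMap.mem_ker, hφ]
    have h1 := hπ _ (hsub x hx3)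
    rw [map_sub, LinearMap.mem_ker.1 hx1, zero_sub] at h1
    exact (Submodule.neg_mem_iff _).1 h1
  let θ : (B.submoduleOf (LinearMap.ker π)) →ₗ[S] LinearMap.ker φ :=
    LinearMap.codRestrict (LinearMap.ker φ) (cr ∘ₗ (LinearMap.ker π).subtype ∘ₗ
      (B.submoduleOf (LinearMap.ker π)).subtype) hmem
  have hθ : Function.Surjective θ := by
    rintro ⟨z, hz⟩
    obtain ⟨x, hx1, hx2⟩ := hsurj (π (em z)) ((hφ z).1 (LinearMap.mem_ker.1 hz))
    refine ⟨⟨⟨em z - x, ?_⟩, ?_⟩, ?_⟩
    · rw [LinearMap.mem_ker, map_sub, hx2, sub_self]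
    · exact B.sub_mem (hem z) (hAB hx1)
    · apply Subtype.ext
      change cr (em z - x) = z
      rw [map_sub, hce, hcz x hx1, sub_zero]
  have hkθ : LinearMap.ker θ =
      (A.submoduleOf (LinearMap.ker π)).submoduleOf (B.submoduleOf (LinearMap.ker π)) := by
    ext x
    rw [LinearMap.mem_ker]
    constructor
    · intro h
      have h1 := hsub _ x.2
      have h2 : cr ((x : LinearMap.ker π) : X) = 0 := congrArg Subtype.val h
      have h3 : ((x : LinearMap.ker π) : X) - em (cr ((x : LinearMap.ker π) : X)) ∈ A := h1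
      rw [h2, map_zero, sub_zero] at h3
      exact h3
    · intro h
      exact Subtype.ext (hcz _ h)
  rw [← hkθ]
  exact hker.congr (θ.quotKerEquivOfSurjective hθ).symm

/-- The main step. -/
theorem dev_succ (hS : StSES.{u}) (hF : StGAFree.{u}) (hU : StUnip.{u}) (K : K1C S) (d : ℕ)
    (ih : ∀ (k : ℕ) (Y : Type u) [AddCommGroup Y] [Module S Y]
      (Fil : ℕ → Submodule S Y) (ν : Y →ₗ[S] Y), Module.Finite S Y → Module.Projective S Y →
      Fil 0 = ⊥ → Fil k = ⊤ → Monotone Fil → (∀ i, ∀ y ∈ Fil (i + 1), ν y ∈ Fil i) →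
      (∀ i < k, FFR S d (Fil (i + 1) ⧸ (Fil i).submoduleOf (Fil (i + 1)))) →
      K.GA (LinearMap.id + ν)) (Fil : ℕ → Submodule S Y) (ν : Y →ₗ[S] Y)
    (hproj : Module.Projective S Y) (h0 : Fil 0 = ⊥) (h1 : Fil k = ⊤) (hmono : Monotone Fil)
    (hν : ∀ i, ∀ y ∈ Fil (i + 1), ν y ∈ Fil i)
    (hgr : ∀ i < k, FFR S (d + 1) (Fil (i + 1) ⧸ (Fil i).submoduleOf (Fil (i + 1)))) :
    K.GA (LinearMap.id + ν) := by
  classical
  choose n φ hφ hker using fun i : Fin k => hgr i i.2
  have hb0 : ∀ j : Ix n, ∃ b : Fil ((j.1 : ℕ) + 1),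
      ((Fil (j.1 : ℕ)).submoduleOf (Fil ((j.1 : ℕ) + 1))).mkQ b = φ j.1 (Pi.single j.2 1) :=
    fun j => Submodule.mkQ_surjective _ _
  choose b hb using hb0
  let π : (Ix n → S) →ₗ[S] Y := lc fun j => (b j : Y)
  have hπ1 : ∀ j, π (Pi.single j 1) = b j := fun j => lc_single _ j
  have hπ : ∀ t, ∀ x ∈ Xf S n t, π x ∈ Fil t := fun t x hx =>
    lc_mem (fun j => (b j : Y)) (Fil t) (fun j hj => hmono (Nat.succ_le_of_lt hj) (b j).2) hx
  -- the part of rank i
  let B : ∀ i : Fin k, (Fin (n i) → S) →ₗ[S] Fil ((i : ℕ) + 1) := fun i => lc fun a => b ⟨i, a⟩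
  have hB1 : ∀ (i : Fin k) z, ((B i z : Fil ((i : ℕ) + 1)) : Y) = π (emb i z) := by
    intro i z
    have : (Fil ((i : ℕ) + 1)).subtype ∘ₗ B i = π ∘ₗ emb i := by
      apply lc_ext
      intro a
      have h2 : emb (n := n) i (Pi.single a (1 : S)) = Pi.single ⟨i, a⟩ 1 := by
        funext j
        by_cases h3 : j.1 = i
        · obtain ⟨i', a'⟩ := j
          change i' = i at h3
          subst h3
          rw [emb_same]
          by_cases h4 : a' = a
          · rw [h4, Pi.single_eq_same, Pi.single_eq_same]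
          · rw [Pi.single_eq_of_ne h4, Pi.single_eq_of_ne]
            intro h5
            exact h4 (ij_inj n _ h5)
        · rw [emb_ne i _ _ h3, Pi.single_eq_of_ne]
          intro h4
          rw [h4] at h3
          exact h3 rfl
      rw [LinearMap.comp_apply, LinearMap.comp_apply, h2, hπ1, Submodule.subtype_apply]
      exact congrArg Subtype.val (lc_single _ a)
    exact DFunLike.congr_fun this z
  have hB2 : ∀ (i : Fin k) z, ((Fil (i : ℕ)).submoduleOf (Fil ((i : ℕ) + 1))).mkQ (B i z) = φ i z := by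
    intro i z
    have : ((Fil (i : ℕ)).submoduleOf (Fil ((i : ℕ) + 1))).mkQ ∘ₗ B i = φ i := by
      apply lc_ext
      intro a
      rw [LinearMap.comp_apply, lc_single]
      exact hb ⟨i, a⟩
    exact DFunLike.congr_fun this z
  have hφ0 : ∀ (i : Fin k) z, φ i z = 0 ↔ π (emb i z) ∈ Fil i := by
    intro i z
    rw [← hB2, ← hB1]
    exact Submodule.Quotient.mk_eq_zero _
  have hsurj : ∀ t ≤ k, ∀ y ∈ Fil t, ∃ x ∈ Xf S n t, π x = y := by
    intro t
    induction t with
    | zero =>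
      intro _ y hy
      rw [h0, Submodule.mem_bot] at hy
      exact ⟨0, Submodule.zero_mem _, by rw [map_zero, hy]⟩
    | succ t iht =>
      intro ht y hy
      obtain ⟨z, hz⟩ := hφ ⟨t, ht⟩ (((Fil t).submoduleOf (Fil (t + 1))).mkQ ⟨y, hy⟩)
      have h3 : y - π (emb ⟨t, ht⟩ z) ∈ Fil t := by
        rw [← hB1]
        rw [← hB2] at hz
        have h4 := (Submodule.Quotient.eq _).1 hz.symm
        exact h4
      obtain ⟨x, hx, hx2⟩ := iht (by omega) _ h3
      refine ⟨x + emb ⟨t, ht⟩ z, Submodule.add_mem _ (Xf_mono (Nat.le_succ t) hx)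
        (emb_mem ⟨t, ht⟩ z), ?_⟩
      rw [map_add, hx2, sub_add_cancel]
  have hπs : Function.Surjective π := fun y => by
    obtain ⟨x, _, hx⟩ := hsurj k le_rfl y (h1 ▸ Submodule.mem_top)
    exact ⟨x, hx⟩
  -- the lift of ν
  have hc0 : ∀ j : Ix n, ∃ c ∈ Xf S n (j.1 : ℕ), π c = ν (b j) := fun j =>
    hsurj _ j.1.2.le _ (hν _ _ (b j).2)
  choose c hc1 hc2 using hc0
  let N : (Ix n → S) →ₗ[S] (Ix n → S) := lc c
  have hN1 : ∀ x, π (N x) = ν (π x) := by
    intro x
    have : π ∘ₗ N = ν ∘ₗ π := by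
      apply lc_ext
      intro j
      rw [LinearMap.comp_apply, LinearMap.comp_apply, hπ1, ← hc2]
      exact congrArg π (lc_single c j)
    exact DFunLike.congr_fun this x
  have hN2 : ∀ t, ∀ x ∈ Xf S n (t + 1), N x ∈ Xf S n t := fun t x hx =>
    lc_mem c (Xf S n t) (fun j hj => Xf_mono (Nat.le_of_lt_succ hj) (hc1 j)) hx
  have hG : K.G (LinearMap.id + N) :=
    hU S K (Ix n) (fun j => (j.1 : ℕ)) N fun t y hy => hN2 t y hy
  have hGA : K.GA (LinearMap.id + N) := (hF S K (Ix n) _).2 hG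
  -- the kernel
  have hk := ker_proj π hπs
  have hNk : ∀ x ∈ LinearMap.ker π, N x ∈ LinearMap.ker π := fun x hx => by
    rw [LinearMap.mem_ker, hN1, LinearMap.mem_ker.1 hx, map_zero]
  have hGA1 : K.GA (LinearMap.id + N.restrict hNk) := by
    refine ih k (LinearMap.ker π) (fun i => (Xf S n i).submoduleOf (LinearMap.ker π))
      (N.restrict hNk) hk.1 hk.2 ?_ ?_ ?_ ?_ ?_
    · ext x
      constructor
      · intro h
        refine (Submodule.mem_bot S).2 (Subtype.ext ?_)
        funext j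
        exact h j (Nat.zero_le _)
      · intro h
        rw [(Submodule.mem_bot S).1 h]
        exact Submodule.zero_mem _
    · ext x
      refine ⟨fun _ => Submodule.mem_top, fun _ j hj => ?_⟩
      exact absurd j.1.2 (not_lt.2 hj)
    · intro i j hij x hx
      exact Xf_mono hij hx
    · intro i x hx
      exact hN2 i _ hx
    · intro i hi
      exact graded d π (Xf S n i) (Xf S n (i + 1)) (Xf_mono (Nat.le_succ i)) (Fil i) (hπ i)
        (hsurj i hi.le) (emb ⟨i, hi⟩) (crd ⟨i, hi⟩) (emb_mem ⟨i, hi⟩) (crd_emb ⟨i, hi⟩)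
        (fun x hx => crd_eq_zero ⟨i, hi⟩ hx) (fun x hx => sub_mem ⟨i, hi⟩ hx) (φ ⟨i, hi⟩)
        (hφ0 ⟨i, hi⟩) (hker ⟨i, hi⟩)
  refine (hS S K (LinearMap.ker π) (Ix n → S) Y (LinearMap.ker π).subtype π
    (LinearMap.id + N.restrict hNk) (LinearMap.id + N) (LinearMap.id + ν) inferInstance
    inferInstance hproj (Submodule.subtype_injective _) hπs
    (by rw [Submodule.range_subtype]) ?_ ?_).2.1 hGA1 hGA
  · ext1 y
    rfl
  · refine LinearMap.ext fun x => ?_
    change π (x + N x) = π x + ν (π x)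
    rw [map_add, hN1]

end Step

end Dev

/-- Devissage. -/
theorem stDev (hS : StSES.{u}) (hF : StGAFree.{u}) (hU : StUnip.{u}) : StDev.{u} := by
  intro S _ K d
  induction d with
  | zero =>
    intro k Y _ _ Fil ν
    exact Dev.dev_zero hS K k Y Fil ν
  | succ d ih =>
    intro k Y _ _ Fil ν _ hproj h0 h1 hmono hν hgr
    exact Dev.dev_succ hS hF hU K d ih Fil ν hproj h0 h1 hmono hν hgr

end Pool.Agent.Lib.MP_551055_al.LS
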