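import Mathlib
import Pool.Agent.Lib.MP_551055_al.Trim.LS.Stmts

/-!
# Module K1c: unipotent maps have class zero
-/

set_option autoImplicit false

namespace Pool.Agent.Lib.MP_551055_al.LS

universe u

/-- Extension by zero of a vector defined on a subtype. -/
noncomputable def k1cExt {S : Type u} [Ring S] {ι : Type} (P : ι → Prop) [DecidablePred P] :
    ({i // P i} → S) →ₗ[S] (ι → S) where
  toFun x i := if h : P i then x ⟨i, h⟩ else 0
  map_add' x y := by
    funext i
    by_cases h : P i
    · simp [h]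
    · simp [h]
  map_smul' s x := by
    funext i
    by_cases h : P i
    · simp [h]
    · simp [h]

theorem k1cExt_pos {S : Type u} [Ring S] {ι : Type} (P : ι → Prop) [DecidablePred P]
    (x : {i // P i} → S) (i : ι) (h : P i) : k1cExt P x i = x ⟨i, h⟩ := by
  change (if h : P i then x ⟨i, h⟩ else 0) = _
  rw [dif_pos h]

theorem k1cExt_neg {S : Type u} [Ring S] {ι : Type} (P : ι → Prop) [DecidablePred P]
    (x : {i // P i} → S) (i : ι) (h : ¬ P i) : k1cExt P x i = 0 := by
  change (if h : P i then x ⟨i, h⟩ else 0) = _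
  rw [dif_neg h]

theorem stUnip_aux (S : Type u) [Ring S] (K : K1C S) (M : ℕ) :
    ∀ (ι : Type) [Finite ι] (ρ : ι → ℕ) (_ : ∀ i, ρ i < M) (N : (ι → S) →ₗ[S] (ι → S)),
    (∀ (t : ℕ) (y : ι → S), (∀ j, t + 1 ≤ ρ j → y j = 0) → ∀ j, t ≤ ρ j → N y j = 0) →
    K.G (LinearMap.id + N) := by
  classical
  induction M with
  | zero =>
    intro ι _ ρ hρ N _
    have h : (LinearMap.id + N : (ι → S) →ₗ[S] (ι → S))
        = LinearMap.funLeft S S (Equiv.refl ι).symm := by
      refine LinearMap.ext fun y => ?_
      funext i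
      exact absurd (hρ i) (Nat.not_lt_zero _)
    rw [h]
    exact K.perm (Equiv.refl ι)
  | succ M ih =>
    intro ι _ ρ hρ N hN
    let P : ι → Prop := fun i => ρ i = M
    let e : {i // P i} ⊕ {i // ¬ P i} ≃ ι := Equiv.sumCompl P
    let r2 : (ι → S) →ₗ[S] ({i // ¬ P i} → S) := LinearMap.funLeft S S Subtype.val
    let c : ({i // P i} → S) →ₗ[S] ({i // ¬ P i} → S) := r2 ∘ₗ N ∘ₗ k1cExt P
    let N' : ({i // ¬ P i} → S) →ₗ[S] ({i // ¬ P i} → S) := r2 ∘ₗ N ∘ₗ k1cExt (fun i => ¬ P i)
    have h1 : K.G (LinearMap.id + N') := by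
      refine ih {i // ¬ P i} (fun i => ρ i.1) (fun i => ?_) N' ?_
      · have h := hρ i.1
        have h' : ρ i.1 ≠ M := i.2
        omega
      · intro t z hz j hj
        refine hN t _ (fun i hi => ?_) j.1 hj
        by_cases h : P i
        · exact k1cExt_neg (fun i => ¬ P i) z i (not_not_intro h)
        · rw [k1cExt_pos (fun i => ¬ P i) z i h]
          exact hz ⟨i, h⟩ hi
    have hid : K.G (LinearMap.id : ({i // P i} → S) →ₗ[S] ({i // P i} → S)) :=
      K.perm (Equiv.refl {i // P i})
    have h2 := K.tri LinearMap.id c (LinearMap.id + N') hid h1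
    have h3 := K.comp _ _ (K.comp _ _ (K.perm e.symm) h2) (K.perm e)
    have h4 : (LinearMap.id + N : (ι → S) →ₗ[S] (ι → S))
        = LinearMap.funLeft S S e.symm ∘ₗ (blk LinearMap.id c (LinearMap.id + N') ∘ₗ
          LinearMap.funLeft S S e.symm.symm) := by
      refine LinearMap.ext fun y => ?_
      have hy : y = k1cExt P (fun i => y i.1) + k1cExt (fun i => ¬ P i) (fun i => y i.1) := by
        funext i
        by_cases h : P i
        · rw [Pi.add_apply, k1cExt_pos P _ i h, k1cExt_neg (fun i => ¬ P i) _ i (not_not_intro h),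
            add_zero]
        · rw [Pi.add_apply, k1cExt_neg P _ i h, k1cExt_pos (fun i => ¬ P i) _ i h, zero_add]
      funext i
      change y i + N y i = Sum.elim (fun i => y i.1) _ (e.symm i)
      by_cases h : P i
      · have he : e.symm i = Sum.inl ⟨i, h⟩ := Equiv.sumCompl_symm_apply_of_pos h
        rw [he, Sum.elim_inl]
        have h0 : N y i = 0 := by
          refine hN M y (fun j hj => ?_) i (le_of_eq h.symm)
          have := hρ j
          omega
        rw [h0, add_zero]
      · have he : e.symm i = Sum.inr ⟨i, h⟩ := Equiv.sumCompl_symm_apply_of_neg h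
        rw [he, Sum.elim_inr]
        change y i + N y i = N (k1cExt P (fun i => y i.1)) i +
          (y i + N (k1cExt (fun i => ¬ P i) (fun i => y i.1)) i)
        have hNy : N y i = N (k1cExt P (fun i => y i.1)) i +
            N (k1cExt (fun i => ¬ P i) (fun i => y i.1)) i := by
          rw [← Pi.add_apply, ← map_add, ← hy]
        rw [hNy]
        abel
    rw [h4]
    exact h3

/-- Module K1c. -/
theorem stUnip : StUnip.{u} := by
  intro S _ K ι _ ρ N hN
  have : Fintype ι := Fintype.ofFinite ι
  refine stUnip_aux S K ((Finset.univ.sup ρ) + 1) ι ρ (fun i => ?_) N hN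
  exact Nat.lt_succ_of_le (Finset.le_sup (Finset.mem_univ i))

end Pool.Agent.Lib.MP_551055_al.LS
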