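import Mathlib
import Pool.Agent.Lib.MP_551055_al.Trim.LS.Stmts

/-!
# Long segments, module K1d: the class for endomorphisms of direct summands

The class of an endomorphism of a direct summand of a finite free module does not depend on the
choice of the complement.
-/

set_option autoImplicit false

namespace Pool.Agent.Lib.MP_551055_al.LS

universe u

section K1d

variable {S : Type u} [Ring S]

theorem k1d_id (K : K1C S) (ι : Type) [Finite ι] :
    K.G (LinearMap.id : (ι → S) →ₗ[S] (ι → S)) := by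
  have h := K.perm (Equiv.refl ι)
  have e : LinearMap.funLeft S S (Equiv.refl ι).symm = (LinearMap.id : (ι → S) →ₗ[S] (ι → S)) :=
    LinearMap.ext fun _ => rfl
  rwa [e] at h

/-- Exchange of the complements. -/
def k1dSwap (S : Type u) [Ring S] (Y Z Z' : Type u) [AddCommGroup Y] [Module S Y]
    [AddCommGroup Z] [Module S Z] [AddCommGroup Z'] [Module S Z'] :
    ((Y × Z) × (Y × Z')) ≃ₗ[S] ((Y × Z') × (Y × Z)) where
  toFun x := ((x.1.1, x.2.2), (x.2.1, x.1.2))
  invFun x := ((x.1.1, x.2.2), (x.2.1, x.1.2))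
  map_add' _ _ := rfl
  map_smul' _ _ := rfl
  left_inv _ := rfl
  right_inv _ := rfl

theorem k1d_key (hC : StConj.{u}) (K : K1C S) {ι κ : Type} [Finite ι] [Finite κ]
    {Y Z Z' : Type u} [AddCommGroup Y] [Module S Y] [AddCommGroup Z] [Module S Z]
    [AddCommGroup Z'] [Module S Z'] (f : Y →ₗ[S] Y)
    (e : (Y × Z) ≃ₗ[S] (ι → S)) (e' : (Y × Z') ≃ₗ[S] (κ → S))
    (h : K.G (e.toLinearMap ∘ₗ (f.prodMap LinearMap.id) ∘ₗ e.symm.toLinearMap)) :
    K.G (e'.toLinearMap ∘ₗ (f.prodMap LinearMap.id) ∘ₗ e'.symm.toLinearMap) := by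
  have h1 : K.G (blk (e.toLinearMap ∘ₗ (f.prodMap LinearMap.id) ∘ₗ e.symm.toLinearMap) 0
      (LinearMap.id : (κ → S) →ₗ[S] (κ → S))) := K.tri _ _ _ h (k1d_id K κ)
  let E : ((Y × Z) × (Y × Z')) ≃ₗ[S] (ι ⊕ κ → S) :=
    (e.prodCongr e').trans (LinearEquiv.sumArrowLequivProdArrow ι κ S S).symm
  let E' : ((Y × Z') × (Y × Z)) ≃ₗ[S] (κ ⊕ ι → S) :=
    (e'.prodCongr e).trans (LinearEquiv.sumArrowLequivProdArrow κ ι S S).symm
  let H : (ι ⊕ κ → S) ≃ₗ[S] (κ ⊕ ι → S) := E.symm.trans ((k1dSwap S Y Z Z').trans E')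
  have h2 := hC S K (ι ⊕ κ) (κ ⊕ ι) _ H h1
  apply K.unst (κ := ι)
  have h3 : H.toLinearMap ∘ₗ
      (blk (e.toLinearMap ∘ₗ (f.prodMap LinearMap.id) ∘ₗ e.symm.toLinearMap) 0
        (LinearMap.id : (κ → S) →ₗ[S] (κ → S))) ∘ₗ H.symm.toLinearMap =
      blk (e'.toLinearMap ∘ₗ (f.prodMap LinearMap.id) ∘ₗ e'.symm.toLinearMap) 0
        (LinearMap.id : (ι → S) →ₗ[S] (ι → S)) := by
    refine LinearMap.ext fun w => ?_
    obtain ⟨x, rfl⟩ := H.surjective w
    obtain ⟨⟨⟨y, z⟩, ⟨y', z'⟩⟩, rfl⟩ := E.surjective x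
    have hE : ∀ (p : Y × Z) (q : Y × Z'), E (p, q) = Sum.elim (e p) (e' q) := fun p q => rfl
    have hE' : ∀ (p : Y × Z') (q : Y × Z), E' (p, q) = Sum.elim (e' p) (e q) := fun p q => rfl
    have hH : ∀ (p : Y × Z) (q : Y × Z'), H (Sum.elim (e p) (e' q)) =
        Sum.elim (e' (p.1, q.2)) (e (q.1, p.2)) := by
      intro p q
      rw [← hE]
      change E' (k1dSwap S Y Z Z' (E.symm (E (p, q)))) = _
      rw [LinearEquiv.symm_apply_apply]
      rfl
    have hb : ∀ (p : Y × Z) (q : Y × Z'),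
        (blk (e.toLinearMap ∘ₗ (f.prodMap LinearMap.id) ∘ₗ e.symm.toLinearMap) 0
          (LinearMap.id : (κ → S) →ₗ[S] (κ → S))) (Sum.elim (e p) (e' q)) =
        Sum.elim (e (f p.1, p.2)) (e' q) := by
      intro p q
      funext j
      rcases j with j | j
      · change e ((f.prodMap LinearMap.id) (e.symm (e p))) j = _
        rw [LinearEquiv.symm_apply_apply]
        rfl
      · change (0 : κ → S) j + e' q j = _
        simp
    have hb' : ∀ (p : Y × Z') (q : Y × Z),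
        (blk (e'.toLinearMap ∘ₗ (f.prodMap LinearMap.id) ∘ₗ e'.symm.toLinearMap) 0
          (LinearMap.id : (ι → S) →ₗ[S] (ι → S))) (Sum.elim (e' p) (e q)) =
        Sum.elim (e' (f p.1, p.2)) (e q) := by
      intro p q
      funext j
      rcases j with j | j
      · change e' ((f.prodMap LinearMap.id) (e'.symm (e' p))) j = _
        rw [LinearEquiv.symm_apply_apply]
        rfl
      · change (0 : ι → S) j + e q j = _
        simp
    rw [hE, LinearMap.comp_apply, LinearMap.comp_apply]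
    change H ((blk (e.toLinearMap ∘ₗ (f.prodMap LinearMap.id) ∘ₗ e.symm.toLinearMap) 0
      (LinearMap.id : (κ → S) →ₗ[S] (κ → S)))
      (H.symm (H (Sum.elim (e (y, z)) (e' (y', z')))))) = _
    rw [LinearEquiv.symm_apply_apply, hb, hH, hH, hb']
  rwa [h3] at h2

end K1d

/-- Module K1d: independence of the complement. -/
theorem stGAInd (hC : StConj.{u}) : StGAInd.{u} := by
  intro S _ K Y _ _ f hf n Z' _ _ e'
  obtain ⟨m, Z, i1, i2, e, he⟩ := hf
  exact k1d_key hC K f e e' he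

/-- Module K1d: the class of an endomorphism of a finite free module. -/
theorem stGAFree (hC : StConj.{u}) : StGAFree.{u} := by
  intro S _ K ι _ f
  let e₀ : ((ι → S) × PUnit.{u + 1}) ≃ₗ[S] (ι → S) := LinearEquiv.prodUnique
  have h0 : e₀.toLinearMap ∘ₗ (f.prodMap (LinearMap.id : PUnit.{u + 1} →ₗ[S] PUnit.{u + 1})) ∘ₗ
      e₀.symm.toLinearMap = f := LinearMap.ext fun _ => rfl
  constructor
  · rintro ⟨n, Z, i1, i2, e, he⟩
    have h1 := k1d_key hC K f e e₀ he
    rwa [h0] at h1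
  · intro hf
    let e₁ : ((ι → S) × PUnit.{u + 1}) ≃ₗ[S] (Fin (Nat.card ι) → S) :=
      e₀.trans (LinearEquiv.funCongrLeft S S (Finite.equivFin ι).symm)
    refine ⟨Nat.card ι, PUnit.{u + 1}, inferInstance, inferInstance, e₁, ?_⟩
    refine k1d_key hC K f e₀ e₁ ?_
    rwa [h0]

end Pool.Agent.Lib.MP_551055_al.LS
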