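import Mathlib
import Pool.Agent.Lib.MP_551055_al.Trim.LS.Stmts

/-!
# Module K1e: the class and short exact sequences
-/

set_option autoImplicit false

namespace Pool.Agent.Lib.MP_551055_al
end Pool.Agent.Lib.MP_551055_al

namespace Pool.Agent.Lib.MP_551055_al.LS.K1e
end Pool.Agent.Lib.MP_551055_al.LS.K1e

namespace Pool.Agent.Lib.MP_551055_al.LS

open Pool.Agent.Lib.MP_551055_al

universe u

namespace K1e

variable {S : Type u} [Ring S]

/-- A surjection with a section splits. -/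
noncomputable def splitE {M N : Type u} [AddCommGroup M] [AddCommGroup N] [Module S M] [Module S N]
    (f : M →ₗ[S] N) (s : N →ₗ[S] M) (h : ∀ y, f (s y) = y) : (N × LinearMap.ker f) ≃ₗ[S] M where
  toFun y := s y.1 + y.2
  map_add' y z := by
    simp only [Prod.fst_add, Prod.snd_add, map_add, Submodule.coe_add]
    abel
  map_smul' r y := by
    simp only [Prod.smul_fst, Prod.smul_snd, map_smul, Submodule.coe_smul, RingHom.id_apply,
      smul_add]
  invFun m := (f m, ⟨m - s (f m), by rw [LinearMap.mem_ker, map_sub, h, sub_self]⟩)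
  left_inv y := by
    have hk : f (y.2 : M) = 0 := LinearMap.mem_ker.1 y.2.2
    refine Prod.ext ?_ (Subtype.ext ?_)
    · simp only [map_add, h, hk, add_zero]
    · simp only [map_add, h, hk, add_zero, add_sub_cancel_left]
  right_inv m := by
    simp only [add_sub_cancel]

/-- A finitely generated projective module has a complement. -/
theorem exists_compl (Y : Type u) [AddCommGroup Y] [Module S Y] (h1 : Module.Finite S Y)
    (h2 : Module.Projective S Y) : ∃ (n : ℕ) (Z : Type u) (_ : AddCommGroup Z) (_ : Module S Z),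
      Nonempty ((Y × Z) ≃ₗ[S] (Fin n → S)) := by
  obtain ⟨n, f, hf⟩ := Module.Finite.exists_fin' S Y
  obtain ⟨s, hs⟩ := Module.projective_lifting_property f LinearMap.id hf
  exact ⟨n, LinearMap.ker f, inferInstance, inferInstance,
    ⟨splitE f s fun y => DFunLike.congr_fun hs y⟩⟩

theorem ga_iff (hC : StConj.{u}) (hI : StGAInd.{u}) (K : K1C S) {Y : Type u} [AddCommGroup Y]
    [Module S Y] (f : Y →ₗ[S] Y) {ι : Type} [Finite ι] {Z : Type u} [AddCommGroup Z] [Module S Z]
    (e : (Y × Z) ≃ₗ[S] (ι → S)) :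
    K.GA f ↔ K.G (e.toLinearMap ∘ₗ (f.prodMap LinearMap.id) ∘ₗ e.symm.toLinearMap) := by
  obtain ⟨n, ⟨φ⟩⟩ := Finite.exists_equiv_fin ι
  let h : (ι → S) ≃ₗ[S] (Fin n → S) := LinearEquiv.funCongrLeft S S φ.symm
  have key : (e.trans h).toLinearMap ∘ₗ (f.prodMap LinearMap.id) ∘ₗ (e.trans h).symm.toLinearMap
      = h.toLinearMap ∘ₗ (e.toLinearMap ∘ₗ (f.prodMap LinearMap.id) ∘ₗ e.symm.toLinearMap) ∘ₗ
        h.symm.toLinearMap := by
    ext1
    rfl
  constructor
  · intro hf
    have h1 := hI S K Y f hf n Z (e.trans h)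
    rw [key] at h1
    have h2 := hC S K (Fin n) ι _ h.symm h1
    have h3 : h.symm.toLinearMap ∘ₗ (h.toLinearMap ∘ₗ (e.toLinearMap ∘ₗ
        (f.prodMap LinearMap.id) ∘ₗ e.symm.toLinearMap) ∘ₗ h.symm.toLinearMap) ∘ₗ
        h.symm.symm.toLinearMap
        = e.toLinearMap ∘ₗ (f.prodMap LinearMap.id) ∘ₗ e.symm.toLinearMap := by
      refine LinearMap.ext fun y => ?_
      simp only [LinearMap.comp_apply, LinearEquiv.coe_coe, LinearEquiv.symm_symm,
        LinearEquiv.symm_apply_apply]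
    rwa [h3] at h2
  · intro hf
    refine ⟨n, Z, inferInstance, inferInstance, e.trans h, ?_⟩
    rw [key]
    exact hC S K ι (Fin n) _ h hf

theorem id_mem (K : K1C S) (ι : Type) [Finite ι] :
    K.G (LinearMap.id : (ι → S) →ₗ[S] (ι → S)) := by
  have h := K.perm (Equiv.refl ι)
  have h1 : LinearMap.funLeft S S (Equiv.refl ι).symm = LinearMap.id := by
    ext1
    rfl
  rwa [h1] at h

/-- The triangular maps. -/
theorem blk_iff (K : K1C S) {ι κ : Type} [Finite ι] [Finite κ] (B : (ι → S) →ₗ[S] (ι → S))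
    (C : (ι → S) →ₗ[S] (κ → S)) (A : (κ → S) →ₗ[S] (κ → S)) :
    (K.G A → K.G B → K.G (blk B C A)) ∧ (K.G A → K.G (blk B C A) → K.G B) ∧
      (K.G B → K.G (blk B C A) → K.G A) := by
  refine ⟨fun hA hB => K.tri _ _ _ hB hA, fun hA hT => ?_, fun hB hT => ?_⟩
  · have h1 : blk B C A = blk B 0 (LinearMap.id : (κ → S) →ₗ[S] (κ → S)) ∘ₗ
        blk (LinearMap.id : (ι → S) →ₗ[S] (ι → S)) C A := by
      refine LinearMap.ext fun y => ?_
      funext j
      rcases j with j | j
      · rfl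
      · change C (y ∘ Sum.inl) j + A (y ∘ Sum.inr) j = 0 + (C (y ∘ Sum.inl) j + A (y ∘ Sum.inr) j)
        rw [zero_add]
    rw [h1] at hT
    exact K.unst B (K.left _ _ hT (K.tri _ _ _ (id_mem K ι) hA))
  · have h1 : blk B C A = blk B C (LinearMap.id : (κ → S) →ₗ[S] (κ → S)) ∘ₗ
        blk (LinearMap.id : (ι → S) →ₗ[S] (ι → S)) 0 A := by
      refine LinearMap.ext fun y => ?_
      funext j
      rcases j with j | j
      · rfl
      · change C (y ∘ Sum.inl) j + A (y ∘ Sum.inr) j = C (y ∘ Sum.inl) j + (0 + A (y ∘ Sum.inr) j)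
        rw [zero_add]
    rw [h1] at hT
    have h2 := K.right _ _ hT (K.tri _ _ _ hB (id_mem K κ))
    have h3 : blk A 0 (LinearMap.id : (ι → S) →ₗ[S] (ι → S))
        = LinearMap.funLeft S S (Equiv.sumComm ι κ).symm ∘ₗ
          (blk (LinearMap.id : (ι → S) →ₗ[S] (ι → S)) 0 A) ∘ₗ
          LinearMap.funLeft S S (Equiv.sumComm κ ι).symm := by
      refine LinearMap.ext fun y => ?_
      funext j
      rcases j with j | j
      · change A (y ∘ Sum.inl) j = 0 + A (y ∘ Sum.inl) j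
        rw [zero_add]
      · change 0 + y (Sum.inr j) = y (Sum.inr j)
        rw [zero_add]
    refine K.unst (κ := ι) A ?_
    rw [h3]
    exact K.comp _ _ (K.comp _ _ (K.perm (Equiv.sumComm κ ι)) h2) (K.perm (Equiv.sumComm ι κ))

end K1e

open K1e in
theorem stSES (hC : StConj.{u}) (hI : StGAInd.{u}) : StSES.{u} := by
  intro S _ K Y' Y Y'' _ _ _ _ _ _ i q f' f f'' hfin hproj hproj'' hi hq hex hif hqf
  -- the splitting
  obtain ⟨s, hs⟩ := Module.projective_lifting_property q LinearMap.id hq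
  have hs' : ∀ b, q (s b) = b := fun b => DFunLike.congr_fun hs b
  have hqi : ∀ a, q (i a) = 0 := fun a => by
    rw [← LinearMap.mem_ker, ← hex]
    exact ⟨a, rfl⟩
  have hif' : ∀ a, i (f' a) = f (i a) := fun a => DFunLike.congr_fun hif a
  have hqf' : ∀ y, q (f y) = f'' (q y) := fun y => DFunLike.congr_fun hqf y
  -- the retraction
  let I : Y' ≃ₗ[S] LinearMap.range i := LinearEquiv.ofInjective i hi
  have hI0 : ∀ a, (I a : Y) = i a := fun a => rfl
  have hmem : ∀ y : Y, q y = 0 → y ∈ LinearMap.range i := fun y hy => by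
    rw [hex]
    exact hy
  let ρ : Y →ₗ[S] Y' := I.symm.toLinearMap ∘ₗ LinearMap.codRestrict (LinearMap.range i)
    (LinearMap.id - s ∘ₗ q) fun y => hmem _ (by
      rw [LinearMap.sub_apply, LinearMap.comp_apply, LinearMap.id_apply, map_sub, hs', sub_self])
  have hρ : ∀ y, i (ρ y) = y - s (q y) := fun y => by
    rw [← hI0]
    change ((I (I.symm _) : LinearMap.range i) : Y) = _
    rw [LinearEquiv.apply_symm_apply]
    rfl
  have hρi : ∀ a, ρ (i a) = a := fun a => hi (by rw [hρ, hqi, map_zero, sub_zero])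
  have hfin' : Module.Finite S Y' := Module.Finite.of_surjective ρ fun a => ⟨i a, hρi a⟩
  have hproj' : Module.Projective S Y' := Module.Projective.of_split i ρ (LinearMap.ext hρi)
  have hfin'' : Module.Finite S Y'' := Module.Finite.of_surjective q hq
  obtain ⟨n', Z', _, _, ⟨e'⟩⟩ := exists_compl (S := S) Y' hfin' hproj'
  obtain ⟨n'', Z'', _, _, ⟨e''⟩⟩ := exists_compl (S := S) Y'' hfin'' hproj''
  let e : (Y × (Z'' × Z')) ≃ₗ[S] (Fin n'' ⊕ Fin n' → S) :=
    { toFun := fun y => Sum.elim (e'' (q y.1, y.2.1)) (e' (ρ y.1, y.2.2))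
      map_add' := fun y z => by
        have h1 : (q (y + z).1, (y + z).2.1) = ((q y.1, y.2.1) : Y'' × Z'') + (q z.1, z.2.1) := by
          rw [Prod.fst_add, map_add, Prod.snd_add, Prod.fst_add]; rfl
        have h2 : (ρ (y + z).1, (y + z).2.2) = ((ρ y.1, y.2.2) : Y' × Z') + (ρ z.1, z.2.2) := by
          rw [Prod.fst_add, map_add, Prod.snd_add, Prod.snd_add]; rfl
        rw [h1, h2, map_add, map_add]
        funext j
        rcases j with j | j <;> rfl
      map_smul' := fun r y => by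
        have h1 : (q (r • y).1, (r • y).2.1) = r • ((q y.1, y.2.1) : Y'' × Z'') := by
          rw [Prod.smul_fst, map_smul, Prod.smul_snd, Prod.smul_fst]; rfl
        have h2 : (ρ (r • y).1, (r • y).2.2) = r • ((ρ y.1, y.2.2) : Y' × Z') := by
          rw [Prod.smul_fst, map_smul, Prod.smul_snd, Prod.smul_snd]; rfl
        rw [h1, h2, map_smul, map_smul]
        funext j
        rcases j with j | j <;> rfl
      invFun := fun x => (i (e'.symm (x ∘ Sum.inr)).1 + s (e''.symm (x ∘ Sum.inl)).1,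
        ((e''.symm (x ∘ Sum.inl)).2, (e'.symm (x ∘ Sum.inr)).2))
      left_inv := fun y => by
        have h1 : e''.symm (e'' (q y.1, y.2.1)) = (q y.1, y.2.1) := e''.symm_apply_apply _
        have h2 : e'.symm (e' (ρ y.1, y.2.2)) = (ρ y.1, y.2.2) := e'.symm_apply_apply _
        change (i (e'.symm (e' (ρ y.1, y.2.2))).1 + s (e''.symm (e'' (q y.1, y.2.1))).1,
          ((e''.symm (e'' (q y.1, y.2.1))).2, (e'.symm (e' (ρ y.1, y.2.2))).2)) = y
        rw [h1, h2]
        change (i (ρ y.1) + s (q y.1), (y.2.1, y.2.2)) = y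
        rw [hρ, sub_add_cancel]
      right_inv := fun x => by
        have h1 : q (i (e'.symm (x ∘ Sum.inr)).1 + s (e''.symm (x ∘ Sum.inl)).1)
            = (e''.symm (x ∘ Sum.inl)).1 := by rw [map_add, hqi, hs', zero_add]
        have h2 : ρ (i (e'.symm (x ∘ Sum.inr)).1 + s (e''.symm (x ∘ Sum.inl)).1)
            = (e'.symm (x ∘ Sum.inr)).1 := by
          refine hi ?_
          rw [hρ, h1, add_sub_cancel_right]
        change Sum.elim
          (e'' (q (i (e'.symm (x ∘ Sum.inr)).1 + s (e''.symm (x ∘ Sum.inl)).1),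
            (e''.symm (x ∘ Sum.inl)).2))
          (e' (ρ (i (e'.symm (x ∘ Sum.inr)).1 + s (e''.symm (x ∘ Sum.inl)).1),
            (e'.symm (x ∘ Sum.inr)).2)) = x
        rw [h1, h2]
        have h3 : e'' ((e''.symm (x ∘ Sum.inl)).1, (e''.symm (x ∘ Sum.inl)).2) = x ∘ Sum.inl :=
          e''.apply_symm_apply _
        have h4 : e' ((e'.symm (x ∘ Sum.inr)).1, (e'.symm (x ∘ Sum.inr)).2) = x ∘ Sum.inr :=
          e'.apply_symm_apply _
        rw [h3, h4]
        funext j
        rcases j with j | j <;> rfl }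
  -- the three maps in coordinates
  rw [ga_iff hC hI K f' e', ga_iff hC hI K f'' e'', ga_iff hC hI K f e]
  let C : (Fin n'' → S) →ₗ[S] (Fin n' → S) := e'.toLinearMap ∘ₗ LinearMap.inl S Y' Z' ∘ₗ
    (ρ ∘ₗ f ∘ₗ s) ∘ₗ LinearMap.fst S Y'' Z'' ∘ₗ e''.symm.toLinearMap
  have key : e.toLinearMap ∘ₗ (f.prodMap LinearMap.id) ∘ₗ e.symm.toLinearMap
      = blk (e''.toLinearMap ∘ₗ (f''.prodMap LinearMap.id) ∘ₗ e''.symm.toLinearMap) C
        (e'.toLinearMap ∘ₗ (f'.prodMap LinearMap.id) ∘ₗ e'.symm.toLinearMap) := by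
    refine LinearMap.ext fun x => ?_
    set a := e'.symm (x ∘ Sum.inr) with ha
    set b := e''.symm (x ∘ Sum.inl) with hb
    have h1 : q (f (i a.1 + s b.1)) = f'' b.1 := by
      rw [hqf', map_add, hqi, hs', zero_add]
    have h2 : ρ (f (i a.1 + s b.1)) = ρ (f (s b.1)) + f' a.1 := by
      rw [map_add, map_add, ← hif', hρi, add_comm]
    have h3 : ((ρ (f (s b.1)) + f' a.1, a.2) : Y' × Z')
        = ((ρ (f (s b.1)), 0) : Y' × Z') + (f' a.1, a.2) := by
      rw [Prod.mk_add_mk, zero_add]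
    change Sum.elim (e'' (q (f (i a.1 + s b.1)), b.2)) (e' (ρ (f (i a.1 + s b.1)), a.2))
      = Sum.elim (e'' (f'' b.1, b.2)) (e' (ρ (f (s b.1)), 0) + e' (f' a.1, a.2))
    rw [h1, h2, h3, map_add]
  rw [key]
  have h := blk_iff K (e''.toLinearMap ∘ₗ (f''.prodMap LinearMap.id) ∘ₗ e''.symm.toLinearMap) C
        (e'.toLinearMap ∘ₗ (f'.prodMap LinearMap.id) ∘ₗ e'.symm.toLinearMap)
  exact ⟨h.1, h.2.1, h.2.2⟩

end Pool.Agent.Lib.MP_551055_al.LS
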