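import Mathlib
import Pool.Agent.Lib.MP_551055_al.Trim.LS.FFR
import Pool.Agent.Lib.MP_551055_al.Trim.LS.PStmts
import Pool.Agent.Lib.MP_551055_al.Trim.LS.Stmts

/-!
# Module PSes: quotients of modules with finite resolutions
-/

set_option autoImplicit false

namespace Pool.Agent.Lib.MP_551055_al.LS

universe u

/-- Module PSes. -/
theorem stPSes (h : StPExt.{u}) : StPSes.{u} := by
  intro R _ d A B C _ _ _ _ _ _ i q hi hq hiq hA hB
  obtain ⟨n, p, hp, hK⟩ := hB.succ
  refine ⟨n, q ∘ₗ p, hq.comp hp, ?_⟩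
  have hle : LinearMap.ker p ≤ LinearMap.ker (q ∘ₗ p) := fun y hy => by
    rw [LinearMap.mem_ker, LinearMap.comp_apply, LinearMap.mem_ker.1 hy, map_zero]
  have hmem : ∀ y : LinearMap.ker (q ∘ₗ p), (p ∘ₗ (LinearMap.ker (q ∘ₗ p)).subtype) y
      ∈ LinearMap.range i := fun y => by
    rw [hiq]
    exact y.2
  let e : A ≃ₗ[R] LinearMap.range i := LinearEquiv.ofInjective i hi
  let r : LinearMap.ker (q ∘ₗ p) →ₗ[R] A :=
    e.symm.toLinearMap ∘ₗ LinearMap.codRestrict (LinearMap.range i)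
      (p ∘ₗ (LinearMap.ker (q ∘ₗ p)).subtype) hmem
  have hr : ∀ y, i (r y) = p (y : Fin n → R) := fun y => by
    have h1 : e (r y) = LinearMap.codRestrict (LinearMap.range i)
        (p ∘ₗ (LinearMap.ker (q ∘ₗ p)).subtype) hmem y := LinearEquiv.apply_symm_apply e _
    exact congrArg Subtype.val h1
  refine h R d (LinearMap.ker p) (LinearMap.ker (q ∘ₗ p)) A (Submodule.inclusion hle) r
    (Submodule.inclusion_injective hle) (fun a => ?_) ?_ hK hA
  · obtain ⟨y, hy⟩ := hp (i a)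
    have hyK : y ∈ LinearMap.ker (q ∘ₗ p) := by
      rw [LinearMap.mem_ker, LinearMap.comp_apply, hy]
      have h2 : i a ∈ LinearMap.ker q := by
        rw [← hiq]
        exact LinearMap.mem_range_self i a
      exact h2
    exact ⟨⟨y, hyK⟩, hi ((hr ⟨y, hyK⟩).trans hy)⟩
  · ext y
    rw [LinearMap.mem_range, LinearMap.mem_ker]
    constructor
    · rintro ⟨x, hx⟩
      apply hi
      rw [hr, map_zero, ← hx]
      exact x.2
    · intro hy
      have h3 : p (y : Fin n → R) = 0 := by rw [← hr, hy, map_zero]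
      exact ⟨⟨(y : Fin n → R), h3⟩, Subtype.ext rfl⟩

end Pool.Agent.Lib.MP_551055_al.LS
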