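import Mathlib
import Pool.Agent.Lib.MP_551055_al.Trim.LS.Stmts
import Pool.Agent.Lib.MP_551055_al.Trim.Matrices
import Pool.Agent.Lib.MP_551055_al.Trim.OneRelation
import Pool.Agent.Lib.MP_551055_al.Trim.Red.Defs
import Pool.Agent.Lib.MP_551055_al.Trim.Red.Idem
import Pool.Agent.Lib.MP_551055_al.Trim.VNDefs

/-!
# Long segments: the final assembly
-/

set_option autoImplicit false

namespace Pool.Agent.Lib.MP_551055_al
end Pool.Agent.Lib.MP_551055_al

namespace Pool.Agent.Lib.MP_551055_al.Red
end Pool.Agent.Lib.MP_551055_al.Red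

namespace Pool.Agent.Lib.MP_551055_al.LS

open Pool.Agent.Lib.MP_551055_al

open Pool.Agent.Lib.MP_551055_al.Red (Img)

universe u v

/-! ## The theorem for `K₁` -/

/-! ## Change of rings along isomorphisms -/

section Semi

/-- The coordinatewise semilinear equivalence. -/
def piSemi {R R' : Type u} [Ring R] [Ring R'] {σ : R →+* R'} {σ' : R' →+* R}
    [h1 : RingHomInvPair σ σ'] [h2 : RingHomInvPair σ' σ] (n : ℕ) :
    (Fin n → R) ≃ₛₗ[σ] (Fin n → R') where
  toFun y := fun i => σ (y i)
  map_add' y z := by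
    funext i
    exact map_add σ _ _
  map_smul' s y := by
    funext i
    exact map_mul σ _ _
  invFun y := fun i => σ' (y i)
  left_inv y := by
    funext i
    exact RingHomInvPair.comp_apply_eq
  right_inv y := by
    funext i
    exact RingHomInvPair.comp_apply_eq₂

variable {R R' : Type u} [Ring R] [Ring R'] {σ : R →+* R'} {σ' : R' →+* R}
  [RingHomInvPair σ σ'] [RingHomInvPair σ' σ]

/-- A semilinear equivalence maps the kernel of `f` onto the kernel of the transported map. -/
def kerSemi {A M : Type u} {A' M' : Type u} [AddCommGroup A] [AddCommGroup M] [AddCommGroup A']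
    [AddCommGroup M'] [Module R A] [Module R M] [Module R' A'] [Module R' M']
    (E : A ≃ₛₗ[σ] A') (f : A →ₗ[R] M) (f' : A' →ₗ[R'] M')
    (h : ∀ y, f y = 0 ↔ f' (E y) = 0) : LinearMap.ker f ≃ₛₗ[σ] LinearMap.ker f' where
  toFun y := ⟨E y, LinearMap.mem_ker.2 ((h y).1 (LinearMap.mem_ker.1 y.2))⟩
  map_add' y z := Subtype.ext (map_add E _ _)
  map_smul' s y := Subtype.ext (E.map_smulₛₗ s _)
  invFun y := ⟨E.symm y, LinearMap.mem_ker.2 ((h _).2 (by
    rw [LinearEquiv.apply_symm_apply]
    exact LinearMap.mem_ker.1 y.2))⟩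
  left_inv y := Subtype.ext (E.symm_apply_apply _)
  right_inv y := Subtype.ext (E.apply_symm_apply _)

/-- The transported map. -/
def trSemi {A M : Type u} {A' M' : Type u} [AddCommGroup A] [AddCommGroup M] [AddCommGroup A']
    [AddCommGroup M'] [Module R A] [Module R M] [Module R' A'] [Module R' M']
    (E : A ≃ₛₗ[σ] A') (E' : M ≃ₛₗ[σ] M') (f : A →ₗ[R] M) : A' →ₗ[R'] M' where
  toFun y := E' (f (E.symm y))
  map_add' y z := by rw [map_add, map_add, map_add]
  map_smul' s y := by
    rw [E.symm.map_smulₛₗ, map_smul, E'.map_smulₛₗ, RingHomInvPair.comp_apply_eq₂]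
    rfl

theorem FFR.semi (d : ℕ) : ∀ {M M' : Type u} [AddCommGroup M] [AddCommGroup M'] [Module R M]
    [Module R' M'] (_ : M ≃ₛₗ[σ] M'), FFR R d M → FFR R' d M' := by
  induction d with
  | zero =>
    intro M M' _ _ _ _ E h
    obtain ⟨h1, h2⟩ := h
    have := h1
    have := h2
    exact ⟨Module.Finite.of_surjective (σ := σ) E.toLinearMap E.surjective,
      Module.Projective.of_equiv E⟩
  | succ d ih =>
    intro M M' _ _ _ _ E h
    obtain ⟨n, f, hf, hk⟩ := h
    let En : (Fin n → R) ≃ₛₗ[σ] (Fin n → R') := piSemi n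
    refine ⟨n, trSemi En E f, ?_, ?_⟩
    · intro y
      obtain ⟨x, hx⟩ := hf (E.symm y)
      refine ⟨En x, ?_⟩
      change E (f (En.symm (En x))) = y
      rw [LinearEquiv.symm_apply_apply, hx, LinearEquiv.apply_symm_apply]
    · refine ih (kerSemi En f (trSemi En E f) fun y => ?_) hk
      change f y = 0 ↔ E (f (En.symm (En y))) = 0
      rw [LinearEquiv.symm_apply_apply]
      exact (map_eq_zero_iff E E.injective).symm

theorem fp_semi {M M' : Type u} [AddCommGroup M] [AddCommGroup M'] [Module R M]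
    [Module R' M'] (E : M ≃ₛₗ[σ] M') (h : Module.FinitePresentation R M) :
    Module.FinitePresentation R' M' := by
  obtain ⟨n, K, e, hK⟩ := Module.FinitePresentation.exists_fin R M
  let f : (Fin n → R) →ₗ[R] M := e.symm.toLinearMap ∘ₗ K.mkQ
  have hf : Function.Surjective f := e.symm.surjective.comp K.mkQ_surjective
  have hk : LinearMap.ker f = K := by
    rw [LinearMap.ker_comp, LinearEquiv.ker, ← LinearMap.ker, Submodule.ker_mkQ]
  let En : (Fin n → R) ≃ₛₗ[σ] (Fin n → R') := piSemi n
  refine Module.finitePresentation_of_free_of_surjective (trSemi En E f) ?_ ?_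
  · intro y
    obtain ⟨x, hx⟩ := hf (E.symm y)
    refine ⟨En x, ?_⟩
    change E (f (En.symm (En x))) = y
    rw [LinearEquiv.symm_apply_apply, hx, LinearEquiv.apply_symm_apply]
  · have h1 : Module.Finite R (LinearMap.ker f) := by
      rw [hk]
      exact Module.Finite.iff_fg.2 hK
    have h2 : LinearMap.ker f ≃ₛₗ[σ] LinearMap.ker (trSemi En E f) :=
      kerSemi En f (trSemi En E f) fun y => by
        change f y = 0 ↔ E (f (En.symm (En y))) = 0
        rw [LinearEquiv.symm_apply_apply]
        exact (map_eq_zero_iff E E.injective).symm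
    exact Module.Finite.iff_fg.1
      (Module.Finite.of_surjective (σ := σ) h2.toLinearMap h2.surjective)

end Semi

theorem RegCoh.congr {R R' : Type u} [Ring R] [Ring R'] (e : R ≃+* R') (h : RegCoh R) :
    RegCoh R' := by
  intro M _ inst hM
  let _ : Module R M := Module.compHom M (e : R →+* R')
  have : RingHomInvPair (e : R →+* R') (e.symm : R' →+* R) := RingHomInvPair.of_ringEquiv e
  have : RingHomInvPair (e.symm : R' →+* R) (e : R →+* R') := RingHomInvPair.symm _ _
  let E : M ≃ₛₗ[(e : R →+* R')] M :=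
    { toFun := fun y => y
      map_add' := fun _ _ => rfl
      map_smul' := fun _ _ => rfl
      invFun := fun y => y
      left_inv := fun _ => rfl
      right_inv := fun _ => rfl }
  obtain ⟨d, hd⟩ := h M (fp_semi E.symm hM)
  exact ⟨d, FFR.semi d E hd⟩

theorem projStFree_congr {H H' : Type u} [Group H] [Group H'] (e : H ≃* H')
    (h : VN.ProjStFree H) : VN.ProjStFree H' := by
  apply Red.stIdem
  intro n M hM
  let φ : MonoidAlgebra ℤ H ≃+* MonoidAlgebra ℤ H' := MonoidAlgebra.mapDomainRingEquiv ℤ e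
  let M₀ : Matrix (Fin n) (Fin n) (MonoidAlgebra ℤ H) := M.map φ.symm
  have hM₀ : M₀ * M₀ = M₀ := by
    change M.map φ.symm * M.map φ.symm = M.map φ.symm
    rw [← Matrix.map_mul, hM]
  have hback : M₀.map (φ : MonoidAlgebra ℤ H →+* MonoidAlgebra ℤ H') = M := by
    ext1 i j
    exact φ.apply_symm_apply _
  have hproj : Module.Projective (MonoidAlgebra ℤ H) (Img M₀) := by
    have hid : ∀ y ∈ Img M₀, Matrix.toLinearMapRight' M₀ y = y := by
      rintro _ ⟨y, rfl⟩
      rw [← Matrix.toLinearMapRight'_mul_apply, hM₀]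
    refine Module.Projective.of_split (Img M₀).subtype
      (LinearMap.rangeRestrict (Matrix.toLinearMapRight' M₀)) ?_
    ext1 y
    exact Subtype.ext (hid y y.2)
  have h1 : StFree (MonoidAlgebra ℤ H) (Img M₀) :=
    h (Img M₀) (Module.Finite.range _) hproj
  have h2 := stFree_map (φ : MonoidAlgebra ℤ H →+* MonoidAlgebra ℤ H') M₀ hM₀ h1
  rw [hback] at h2
  exact h2

/-! ## The final theorem -/

section Final

variable {G : Type u} [Group G] {X : Type v} [MulAction G X]

/-- `G × ℤ` acts through `G`. -/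
abbrev actZ (G : Type u) [Group G] (X : Type v) [MulAction G X] :
    MulAction (G × Multiplicative ℤ) X :=
  MulAction.compHom X (MonoidHom.fst G (Multiplicative ℤ))

end Final

end Pool.Agent.Lib.MP_551055_al.LS
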