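import Mathlib
import Pool.Agent.Lib.MP_551055_al.Trim.LS.Pos
import Pool.Agent.Lib.MP_551055_al.Trim.LS.Stmts
import Pool.Agent.Lib.MP_551055_al.Trim.VNDefs

/-!
# Long segments: the version with rays
-/

set_option autoImplicit false

namespace Pool.Agent.Lib.MP_551055_al
end Pool.Agent.Lib.MP_551055_al

namespace Pool.Agent.Lib.MP_551055_al.LS

open Pool.Agent.Lib.MP_551055_al

universe u v w

/-- Module StepP. The step from length `l` to length `l + 1` with a parent map `π`. -/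
def StStepP : Prop :=
  ∀ (Γ : Type u) [Group Γ] (V : Type v) [MulAction Γ V] (T : SimpleGraph V), TreeAct Γ V T →
    ∀ (K : K1C (ZG Γ)) (l : ℕ), 1 ≤ l → ∀ (ι : Type) [Finite ι] (p : ι → V × V)
      (ν : Module.End (ZG Γ) (F Γ ι)), (∀ i, T.dist (p i).1 (p i).2 = l) → IsNilpotent ν →
      Tr (sh T l) p p ν →
      ∃ (κ : Type) (_ : Finite κ) (q : κ → V × V) (π : κ → ι) (μ : Module.End (ZG Γ) (F Γ κ)),
        (∀ k, T.dist (q k).1 (q k).2 = l + 1) ∧
        (∀ k, (q k).2 = (p (π k)).2 ∧ T.Adj (q k).1 (p (π k)).1) ∧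
        IsNilpotent μ ∧ Tr (sh T (l + 1)) q q μ ∧
        (K.G ((1 : Module.End (ZG Γ) (F Γ κ)) + μ) → K.G ((1 : Module.End (ZG Γ) (F Γ ι)) + ν))

/-- Module RegSub. Regular coherence passes to subgroups. -/
def StRegSub : Prop :=
  ∀ (H : Type u) [Group H] (H' : Subgroup H), RegCoh (MonoidAlgebra ℤ H) →
    RegCoh (MonoidAlgebra ℤ H')

/-- Every infinite reduced ray has an initial segment whose stabiliser in `Γ` has a regular coherent
group ring. -/
def RayRC (Γ : Type u) [Group Γ] {V : Type v} [MulAction Γ V] (T : SimpleGraph V) : Prop :=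
  ∀ x : ℕ → V, (∀ n, T.Adj (x n) (x (n + 1))) → (∀ n, x n ≠ x (n + 2)) →
    ∃ n, 1 ≤ n ∧ RegCoh (MonoidAlgebra ℤ (MulAction.stabilizer Γ (x n, x 0)))

/-- Module Ray: StNil, StStepP, StRegSub, StTreeB imply NilGood at length 1. -/
def StRay : Prop :=
  ∀ (Γ : Type u) [Group Γ] (V : Type v) [MulAction Γ V] (T : SimpleGraph V), TreeAct Γ V T →
    RayRC Γ T → ∀ K : K1C (ZG Γ), NilGood K T 1

/-- The theorem for `K₁`, version with rays. -/
def StMainK1R : Prop :=
  ∀ (Γ : Type u) [Group Γ] (V : Type v) [MulAction Γ V] (T : SimpleGraph V), TreeAct Γ V T →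
    (∀ u v, T.Adj u v → VN.ProjStFree (MulAction.stabilizer Γ (u, v))) → RayRC Γ T →
    ∀ (K : K1C (ZG Γ)), VGood K V →
    ∀ (n : ℕ) (α : F Γ (Fin n) →ₗ[ZG Γ] F Γ (Fin n)), Function.Bijective α → K.G α

/-- The final theorem, version with rays. -/
def StFinalR : Prop :=
  ∀ (G : Type u) [Group G] (V : Type v) [MulAction G V] (T : SimpleGraph V), TreeAct G V T →
    (∀ v : V, VN.ProjStFree (MulAction.stabilizer G v)) →
    (∀ u v, T.Adj u v → VN.ProjStFree (MulAction.stabilizer G (u, v) × Multiplicative ℤ)) →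
    (∀ x : ℕ → V, (∀ n, T.Adj (x n) (x (n + 1))) → (∀ n, x n ≠ x (n + 2)) →
      ∃ n, 1 ≤ n ∧
        RegCoh (MonoidAlgebra ℤ (MulAction.stabilizer G (x n, x 0) × Multiplicative ℤ))) →
    VN.ProjStFree G

end Pool.Agent.Lib.MP_551055_al.LS
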