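import Mathlib
import Pool.Agent.Lib.MP_551055_al.Trim.LS.Stmts

/-!
# Module TreeB: segments of trees
-/

set_option autoImplicit false

namespace Pool.Agent.Lib.MP_551055_al
end Pool.Agent.Lib.MP_551055_al

namespace Pool.Agent.Lib.MP_551055_al.LS

open Pool.Agent.Lib.MP_551055_al

universe u v w

section Dist

variable {V : Type v} {T : SimpleGraph V}

/-- A vertex on the geodesic from `x` to `z` is determined by its distance to `x`. -/
theorem tree_eq_of_dist (hT : T.IsTree) {x z y y' : V} (h : T.dist x z = T.dist x y + T.dist y z)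
    (h' : T.dist x z = T.dist x y' + T.dist y' z) (hd : T.dist x y = T.dist x y') : y = y' := by
  obtain ⟨p, hp⟩ := hT.connected.exists_walk_length_eq_dist x y
  obtain ⟨q, hq⟩ := hT.connected.exists_walk_length_eq_dist y z
  obtain ⟨p', hp'⟩ := hT.connected.exists_walk_length_eq_dist x y'
  obtain ⟨q', hq'⟩ := hT.connected.exists_walk_length_eq_dist y' z
  have h1 : (p.append q).IsPath := SimpleGraph.Walk.isPath_of_length_eq_dist _ (by
    rw [SimpleGraph.Walk.length_append, hp, hq, h])
  have h2 : (p'.append q').IsPath := SimpleGraph.Walk.isPath_of_length_eq_dist _ (by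
    rw [SimpleGraph.Walk.length_append, hp', hq', h'])
  have h3 : p.append q = p'.append q' := (hT.existsUnique_path x z).unique h1 h2
  have h4 : (p.append q).getVert p.length = y := by
    rw [SimpleGraph.Walk.getVert_append, if_neg (lt_irrefl _), Nat.sub_self,
      SimpleGraph.Walk.getVert_zero]
  have h5 : (p'.append q').getVert p.length = y' := by
    rw [hp, hd, ← hp', SimpleGraph.Walk.getVert_append, if_neg (lt_irrefl _), Nat.sub_self,
      SimpleGraph.Walk.getVert_zero]
  rw [← h4, h3, h5]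

theorem tree_exists_pred (hT : T.IsTree) {x z : V} {n : ℕ} (h : T.dist x z = n + 1) :
    ∃ y, T.Adj y z ∧ T.dist x y = n := by
  obtain ⟨p, hp⟩ := hT.connected.exists_walk_length_eq_dist z x
  rw [T.dist_comm, h] at hp
  cases p with
  | nil => exact absurd hp (by simp)
  | cons hadj q =>
    rename_i y
    rw [SimpleGraph.Walk.length_cons] at hp
    refine ⟨y, hadj.symm, ?_⟩
    have h1 : T.dist y x ≤ q.length := T.dist_le q
    have h2 := hT.connected.dist_triangle (u := x) (v := y) (w := z)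
    have h3 : T.dist y z = 1 := T.dist_eq_one_iff_adj.2 hadj.symm
    rw [T.dist_comm] at h1
    omega

/-- Overlapping geodesics in a tree form a geodesic. -/
theorem tree_dist_add (hT : T.IsTree) {x y z : V} (hxz : T.dist x z = T.dist x y + T.dist y z)
    (hyz : y ≠ z) : ∀ (n : ℕ) (w : V), T.dist z w = n → T.dist y w = T.dist y z + n →
      T.dist x w = T.dist x y + T.dist y z + n := by
  intro n
  induction n with
  | zero =>
    intro w h1 _
    rw [hT.connected.dist_eq_zero_iff] at h1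
    rw [← h1, hxz, add_zero]
  | succ n ih =>
    intro w h1 h2
    obtain ⟨w', hadj, hw'⟩ := tree_exists_pred hT h1
    have h3 : T.dist w' w = 1 := T.dist_eq_one_iff_adj.2 hadj
    have h4 := hT.connected.dist_triangle (u := y) (v := w') (w := w)
    have h5 := hT.connected.dist_triangle (u := y) (v := z) (w := w')
    have h6 : T.dist y w' = T.dist y z + n := by omega
    have h7 := ih w' hw' h6
    have h8 : 0 < T.dist y z := hT.connected.pos_dist_of_ne hyz
    rcases hT.dist_eq_dist_add_one_of_adj x hadj with h9 | h9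
    · exfalso
      obtain ⟨m, hm⟩ : ∃ m, T.dist y w' = m + 1 := ⟨T.dist y w' - 1, by omega⟩
      obtain ⟨w'', hadj', hw''⟩ := tree_exists_pred hT hm
      have h10 := hT.connected.dist_triangle (u := x) (v := y) (w := w'')
      have h11 := hT.connected.dist_triangle (u := x) (v := w'') (w := w')
      have h12 : T.dist w'' w' = 1 := T.dist_eq_one_iff_adj.2 hadj'
      have h13 : T.dist w w' = 1 := T.dist_eq_one_iff_adj.2 hadj.symm
      have h14 : w = w'' := tree_eq_of_dist hT (x := x) (z := w') (by omega) (by omega) (by omega)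
      rw [← h14] at hw''
      omega
    · omega

theorem tree_dist_add' (hT : T.IsTree) {x y z w : V} (hxz : T.dist x z = T.dist x y + T.dist y z)
    (hyw : T.dist y w = T.dist y z + T.dist z w) (hyz : y ≠ z) :
    T.dist x w = T.dist x y + T.dist y z + T.dist z w :=
  tree_dist_add hT hxz hyz _ w rfl hyw

end Dist

theorem dist_smul_le {Γ : Type u} [Group Γ] {V : Type v} [MulAction Γ V] {T : SimpleGraph V}
    (hA : TreeAct Γ V T) (γ : Γ) (u v : V) : T.dist (γ • u) (γ • v) ≤ T.dist u v := by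
  obtain ⟨p, hp⟩ := hA.tree.connected.exists_walk_length_eq_dist u v
  let f : T →g T := ⟨fun x => γ • x, fun {a b} h => hA.adj γ a b h⟩
  have h1 : T.dist (f u) (f v) ≤ (p.map f).length := T.dist_le _
  rw [SimpleGraph.Walk.length_map, hp] at h1
  exact h1

theorem dist_smul_smul {Γ : Type u} [Group Γ] {V : Type v} [MulAction Γ V] {T : SimpleGraph V}
    (hA : TreeAct Γ V T) (γ : Γ) (u v : V) : T.dist (γ • u) (γ • v) = T.dist u v := by
  refine le_antisymm (dist_smul_le hA γ u v) ?_
  have h := dist_smul_le hA γ⁻¹ (γ • u) (γ • v)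
  rwa [inv_smul_smul, inv_smul_smul] at h

theorem sh_smul {Γ : Type u} [Group Γ] {V : Type v} [MulAction Γ V] {T : SimpleGraph V}
    (hA : TreeAct Γ V T) (l : ℕ) (γ : Γ) {a b : V × V} (h : sh T l a b) :
    sh T l (γ • a) (γ • b) := by
  obtain ⟨h1, h2, h3, h4, h5⟩ := h
  refine ⟨hA.adj γ _ _ h1, hA.adj γ _ _ h2, ?_, ?_, ?_⟩
  · exact (dist_smul_smul hA γ b.1 b.2).trans h3
  · exact (dist_smul_smul hA γ a.1 a.2).trans h4
  · exact (dist_smul_smul hA γ b.1 a.2).trans h5

section Itr

variable {V : Type v} {T : SimpleGraph V}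

theorem ne_of_dist_eq {l : ℕ} (hl : 1 ≤ l) {x y : V} (h : T.dist x y = l) : x ≠ y := by
  intro hxy
  rw [hxy, T.dist_self] at h
  omega

theorem itr_dist (hT : T.IsTree) {l : ℕ} (hl : 1 ≤ l) (c : V × V) : ∀ (i : ℕ) (b : V × V),
    T.dist b.1 b.2 = l → itr (sh T l) i b c →
      T.dist c.1 b.1 = i ∧ T.dist c.1 b.2 = i + l := by
  intro i
  induction i with
  | zero =>
    intro b hb h
    have h1 : b = c := h
    subst h1
    exact ⟨T.dist_self, by rw [zero_add, hb]⟩
  | succ i ih =>
    intro b hb h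
    obtain ⟨d, hbd, hdc⟩ := h
    obtain ⟨h1, h2, h3, h4, h5⟩ := hbd
    obtain ⟨h6, h7⟩ := ih d h3 hdc
    have h8 : T.dist d.1 b.1 = 1 := T.dist_eq_one_iff_adj.2 h1
    have h9 : T.dist d.2 b.2 = 1 := T.dist_eq_one_iff_adj.2 h2
    have h10 : T.dist c.1 b.2 = T.dist c.1 d.1 + T.dist d.1 d.2 + T.dist d.2 b.2 :=
      tree_dist_add' hT (by omega) (by omega) (ne_of_dist_eq hl h3)
    have h11 := hT.connected.dist_triangle (u := c.1) (v := b.1) (w := b.2)
    have h12 := hT.connected.dist_triangle (u := c.1) (v := d.1) (w := b.1)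
    omega

end Itr

theorem stTreeB : StTreeB.{u, v} := by
  intro Γ _ V _ T hA l hl
  have hT := hA.tree
  refine ⟨⟨fun γ a b h => sh_smul hA l γ h, ?_⟩, ?_, ?_⟩
  · intro i a b b' c hab hab' hbc hbc'
    have h1 := itr_dist hT hl c i b hab.2.2.1 hbc
    have h2 := itr_dist hT hl c i b' hab'.2.2.1 hbc'
    have h3 : T.dist c.1 a.1 = i + 1 ∧ T.dist c.1 a.2 = i + 1 + l :=
      itr_dist hT hl c (i + 1) a hab.2.2.2.1 ⟨b, hab, hbc⟩
    have h4 := hab.2.2.2.2
    have h5 := hab'.2.2.2.2
    have h6 : T.dist b.2 a.2 = 1 := T.dist_eq_one_iff_adj.2 hab.2.1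
    have h7 : T.dist b'.2 a.2 = 1 := T.dist_eq_one_iff_adj.2 hab'.2.1
    refine Prod.ext ?_ ?_
    · exact tree_eq_of_dist hT (x := c.1) (z := a.2) (by omega) (by omega) (by omega)
    · exact tree_eq_of_dist hT (x := c.1) (z := a.2) (by omega) (by omega) (by omega)
  · intro a b c hab hbc
    obtain ⟨h1, h2, h3, h4, h5⟩ := hab
    obtain ⟨k1, k2, k3, k4, k5⟩ := hbc
    refine ⟨k1, h2, k5, h5, ?_⟩
    change T.dist c.1 a.2 = l + 1 + 1
    have h6 : T.dist c.1 b.1 = 1 := T.dist_eq_one_iff_adj.2 k1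
    have h7 : T.dist b.2 a.2 = 1 := T.dist_eq_one_iff_adj.2 h2
    have h8 : T.dist c.1 a.2 = T.dist c.1 b.1 + T.dist b.1 b.2 + T.dist b.2 a.2 :=
      tree_dist_add' hT (by omega) (by omega) (ne_of_dist_eq hl h3)
    omega
  · intro u v w hvw huv huw
    refine ⟨huv, hvw, T.dist_eq_one_iff_adj.2 huv, T.dist_eq_one_iff_adj.2 hvw, ?_⟩
    change T.dist u w = 1 + 1
    have h1 : T.dist u v = 1 := T.dist_eq_one_iff_adj.2 huv
    have h2 : 0 < T.dist u w := hT.connected.pos_dist_of_ne huw
    rcases hT.dist_eq_dist_add_one_of_adj u hvw with h3 | h3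
    · omega
    · omega

end Pool.Agent.Lib.MP_551055_al.LS
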