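import Mathlib
import Pool.Agent.Lib.MP_551055_al.Trim.Descent
import Pool.Agent.Lib.MP_551055_al.Trim.LS.FFR
import Pool.Agent.Lib.MP_551055_al.Trim.LS.Stmts
import Pool.Agent.Lib.MP_551055_al.Trim.LS.Stmts2

/-!
# Regular coherence passes to subgroups
-/

set_option autoImplicit false

namespace Pool.Agent.Lib.MP_551055_al
end Pool.Agent.Lib.MP_551055_al

namespace Pool.Agent.Lib.MP_551055_al.LS.RegSubAux
end Pool.Agent.Lib.MP_551055_al.LS.RegSubAux

namespace Pool.Agent.Lib.MP_551055_al.LS

open Pool.Agent.Lib.MP_551055_al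

universe u

namespace RegSubAux

section Rings

variable {R : Type u} [Ring R]

/-- Adding a free summand. -/
theorem prodFree (d : ℕ) (n : ℕ) {A : Type u} [AddCommGroup A] [Module R A] (h : FFR R d A) :
    FFR R d (A × (Fin n → R)) := by
  cases d with
  | zero =>
    obtain ⟨h1, h2⟩ := h
    exact ⟨inferInstance, inferInstance⟩
  | succ d =>
    obtain ⟨k, f, hf, hk⟩ := h
    let e : (Fin k ⊕ Fin n → R) ≃ₗ[R] (Fin k → R) × (Fin n → R) :=
      LinearEquiv.sumArrowLequivProdArrow (Fin k) (Fin n) R R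
    let φ : (Fin k ⊕ Fin n → R) →ₗ[R] A × (Fin n → R) :=
      (f.prodMap LinearMap.id) ∘ₗ e.toLinearMap
    have hφ : ∀ z, φ z = (f (z ∘ Sum.inl), z ∘ Sum.inr) := fun z => rfl
    have hφs : Function.Surjective φ := by
      rintro ⟨a, y⟩
      obtain ⟨x, rfl⟩ := hf a
      exact ⟨Sum.elim x y, by rw [hφ]; rfl⟩
    refine FFR.of_surj φ hφs ?_
    have hmem : ∀ z ∈ LinearMap.ker φ, LinearMap.funLeft R R Sum.inl z ∈ LinearMap.ker f := by
      intro z hz
      rw [LinearMap.mem_ker, hφ] at hz
      exact LinearMap.mem_ker.mpr (congrArg Prod.fst hz)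
    let r : LinearMap.ker φ →ₗ[R] LinearMap.ker f :=
      (LinearMap.funLeft R R Sum.inl).restrict hmem
    refine hk.congr (LinearEquiv.ofBijective r ⟨?_, ?_⟩).symm
    · rw [← LinearMap.ker_eq_bot, LinearMap.ker_eq_bot']
      intro z hz
      apply Subtype.ext
      funext i
      have h2 : φ z.1 = 0 := LinearMap.mem_ker.mp z.2
      rw [hφ] at h2
      rcases i with i | i
      · exact congrFun (congrArg Subtype.val hz) i
      · exact congrFun (congrArg Prod.snd h2) i
    · rintro ⟨y, hy⟩
      refine ⟨⟨Sum.elim y 0, ?_⟩, ?_⟩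
      · rw [LinearMap.mem_ker, hφ]
        exact Prod.ext (LinearMap.mem_ker.mp hy) rfl
      · apply Subtype.ext
        rfl

/-- Cancelling a free summand. -/
theorem cancelFree (d : ℕ) (m : ℕ) {B : Type u} [AddCommGroup B] [Module R B]
    (h : FFR R d (B × (Fin m → R))) : FFR R d B := by
  cases d with
  | zero =>
    obtain ⟨h1, h2⟩ := h
    exact ⟨Module.Finite.of_surjective (LinearMap.fst R B (Fin m → R)) LinearMap.fst_surjective,
      Module.Projective.of_split (LinearMap.inl R B (Fin m → R)) (LinearMap.fst R B (Fin m → R))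
        (by ext; rfl)⟩
  | succ d =>
    obtain ⟨k, f, hf, hk⟩ := h
    refine ⟨k, LinearMap.fst R B (Fin m → R) ∘ₗ f,
      (LinearMap.fst_surjective (R := R) (M := B) (M₂ := Fin m → R)).comp hf, ?_⟩
    obtain ⟨s, hs⟩ := Module.projective_lifting_property f (LinearMap.inr R B (Fin m → R)) hf
    have hs' : ∀ y, f (s y) = (0, y) := fun y => DFunLike.congr_fun hs y
    let g : (LinearMap.ker f × (Fin m → R)) →ₗ[R] (Fin k → R) :=
      LinearMap.coprod (LinearMap.ker f).subtype s
    have hg : ∀ p, g p = p.1.1 + s p.2 := fun p => rfl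
    have hfg : ∀ p, f (g p) = (0, p.2) := by
      intro p
      rw [hg, map_add, LinearMap.mem_ker.mp p.1.2, hs', zero_add]
    let g' : (LinearMap.ker f × (Fin m → R)) →ₗ[R]
        LinearMap.ker (LinearMap.fst R B (Fin m → R) ∘ₗ f) :=
      LinearMap.codRestrict _ g fun p => by
        rw [LinearMap.mem_ker, LinearMap.comp_apply, hfg]
        rfl
    refine (prodFree d m hk).congr (LinearEquiv.ofBijective g' ⟨?_, ?_⟩)
    · rw [← LinearMap.ker_eq_bot, LinearMap.ker_eq_bot']
      intro p hp
      have h1 : g p = 0 := congrArg Subtype.val hp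
      have h2 := hfg p
      rw [h1, map_zero] at h2
      have h3 : p.2 = 0 := (congrArg Prod.snd h2).symm
      rw [hg, h3, map_zero, add_zero] at h1
      exact Prod.ext (Subtype.ext h1) h3
    · rintro ⟨z, hz⟩
      rw [LinearMap.mem_ker, LinearMap.comp_apply] at hz
      have hz' : (f z).1 = 0 := hz
      refine ⟨(⟨z - s (f z).2, ?_⟩, (f z).2), ?_⟩
      · rw [LinearMap.mem_ker, map_sub, hs']
        exact Prod.ext (by simp [hz']) (by simp)
      · apply Subtype.ext
        exact sub_add_cancel z _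

/-- The kernel of a surjection from a free module (lemma of Schanuel). -/
theorem ker_ffr {d : ℕ} {M : Type u} [AddCommGroup M] [Module R M] (h : FFR R (d + 1) M) {n : ℕ}
    (g : (Fin n → R) →ₗ[R] M) (hg : Function.Surjective g) : FFR R d (LinearMap.ker g) := by
  obtain ⟨m, f, hf, hk⟩ := h
  obtain ⟨s, hs⟩ := Module.projective_lifting_property f g hf
  obtain ⟨t, ht⟩ := Module.projective_lifting_property g f hg
  have hs' : ∀ y, f (s y) = g y := fun y => DFunLike.congr_fun hs y
  have ht' : ∀ y, g (t y) = f y := fun y => DFunLike.congr_fun ht y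
  apply cancelFree d m
  refine (prodFree d n hk).congr ?_
  -- the map `(a, y) ↦ (y + t (a - s y), a - s y)`
  let P := LinearMap.ker (LinearMap.coprod f g)
  let a1 : (LinearMap.ker f × (Fin n → R)) →ₗ[R] (Fin m → R) × (Fin n → R) :=
    LinearMap.prod (LinearMap.coprod (LinearMap.ker f).subtype (-s)) (LinearMap.snd R _ _)
  have ha1 : ∀ p, a1 p = (p.1.1 + -s p.2, p.2) := fun p => rfl
  let e1 : (LinearMap.ker f × (Fin n → R)) ≃ₗ[R] P :=
    LinearEquiv.ofBijective (LinearMap.codRestrict P a1 fun p => by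
      rw [LinearMap.mem_ker, ha1, LinearMap.coprod_apply, map_add, LinearMap.mem_ker.mp p.1.2,
        map_neg, hs', zero_add, neg_add_cancel]) ⟨by
      rw [← LinearMap.ker_eq_bot, LinearMap.ker_eq_bot']
      intro p hp
      have h1 : a1 p = 0 := congrArg Subtype.val hp
      rw [ha1] at h1
      have h3 : p.2 = 0 := congrArg Prod.snd h1
      have h4 : p.1.1 + -s p.2 = 0 := congrArg Prod.fst h1
      rw [h3, map_zero, neg_zero, add_zero] at h4
      exact Prod.ext (Subtype.ext h4) h3, by
      rintro ⟨⟨x, y⟩, hz⟩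
      rw [LinearMap.mem_ker, LinearMap.coprod_apply] at hz
      refine ⟨(⟨x + s y, ?_⟩, y), ?_⟩
      · rw [LinearMap.mem_ker, map_add, hs']
        exact hz
      · apply Subtype.ext
        exact Prod.ext (add_neg_cancel_right x _) rfl⟩
  let a2 : (LinearMap.ker g × (Fin m → R)) →ₗ[R] (Fin m → R) × (Fin n → R) :=
    LinearMap.prod (LinearMap.snd R _ _) (LinearMap.coprod (LinearMap.ker g).subtype (-t))
  have ha2 : ∀ p, a2 p = (p.2, p.1.1 + -t p.2) := fun p => rfl
  let e2 : (LinearMap.ker g × (Fin m → R)) ≃ₗ[R] P :=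
    LinearEquiv.ofBijective (LinearMap.codRestrict P a2 fun p => by
      rw [LinearMap.mem_ker, ha2, LinearMap.coprod_apply, map_add, LinearMap.mem_ker.mp p.1.2,
        map_neg, ht', zero_add, add_neg_cancel]) ⟨by
      rw [← LinearMap.ker_eq_bot, LinearMap.ker_eq_bot']
      intro p hp
      have h1 : a2 p = 0 := congrArg Subtype.val hp
      rw [ha2] at h1
      have h3 : p.2 = 0 := congrArg Prod.fst h1
      have h4 : p.1.1 + -t p.2 = 0 := congrArg Prod.snd h1
      rw [h3, map_zero, neg_zero, add_zero] at h4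
      exact Prod.ext (Subtype.ext h4) h3, by
      rintro ⟨⟨x, y⟩, hz⟩
      rw [LinearMap.mem_ker, LinearMap.coprod_apply] at hz
      refine ⟨(⟨y + t x, ?_⟩, x), ?_⟩
      · rw [LinearMap.mem_ker, map_add, ht', add_comm]
        exact hz
      · apply Subtype.ext
        exact Prod.ext rfl (add_neg_cancel_right y _)⟩
  exact e1.trans e2.symm

/-- The range of a map between free modules over a regular coherent ring. -/
theorem exists_ffr_range (h : RegCoh R) {m n : ℕ} (f : (Fin m → R) →ₗ[R] (Fin n → R)) :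
    ∃ d, FFR R d (LinearMap.range f) := by
  have hfp : Module.FinitePresentation R ((Fin n → R) ⧸ LinearMap.range f) := by
    refine Module.finitePresentation_of_surjective (LinearMap.range f).mkQ
      (Submodule.mkQ_surjective _) ?_
    rw [Submodule.ker_mkQ]
    exact Module.Finite.iff_fg.mp inferInstance
  obtain ⟨d, hd⟩ := h _ hfp
  have h1 := ker_ffr hd.succ (LinearMap.range f).mkQ (Submodule.mkQ_surjective _)
  exact ⟨d, h1.congr (LinearEquiv.ofEq _ _ (Submodule.ker_mkQ _))⟩

/-- The kernel of a map between free modules over a regular coherent ring. -/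
theorem fg_ker (h : RegCoh R) {m n : ℕ} (f : (Fin m → R) →ₗ[R] (Fin n → R)) :
    (LinearMap.ker f).FG := by
  obtain ⟨d, hd⟩ := exists_ffr_range h f
  have h1 := ker_ffr hd.succ f.rangeRestrict f.surjective_rangeRestrict
  have h2 := h1.finite
  rw [LinearMap.ker_rangeRestrict] at h2
  exact Module.Finite.iff_fg.mp h2

end Rings

section Groups

open MonoidAlgebra

variable {G : Type u} [Group G] {H : Type u} [Group H] (φ : H →* G)
  (hφ : Function.Injective φ) {n m : ℕ}

/-- The extension of a submodule. -/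
noncomputable def extS (L : Submodule (MonoidAlgebra ℤ H) (Fin n → MonoidAlgebra ℤ H)) :
    Submodule (MonoidAlgebra ℤ G) (Fin n → MonoidAlgebra ℤ G) :=
  Submodule.span (MonoidAlgebra ℤ G) (incv ℤ φ '' (L : Set (Fin n → MonoidAlgebra ℤ H)))

theorem incv_mem {L : Submodule (MonoidAlgebra ℤ H) (Fin n → MonoidAlgebra ℤ H)}
    {x : Fin n → MonoidAlgebra ℤ H} (hx : x ∈ L) : incv ℤ φ x ∈ extS φ L :=
  Submodule.subset_span ⟨x, hx, rfl⟩

include hφ in
theorem prjv_smul_mem {L : Submodule (MonoidAlgebra ℤ H) (Fin n → MonoidAlgebra ℤ H)}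
    {z : Fin n → MonoidAlgebra ℤ G} (hz : z ∈ extS φ L) :
    ∀ r : MonoidAlgebra ℤ G, prjv ℤ φ hφ (r • z) ∈ L := by
  unfold extS at hz
  induction hz using Submodule.span_induction with
  | mem z hz =>
    intro r
    obtain ⟨x, hx, rfl⟩ := hz
    rw [prjv_smul_incv]
    exact L.smul_mem _ hx
  | zero =>
    intro r
    rw [smul_zero, prjv_zero]
    exact L.zero_mem
  | add z w _ _ hz hw =>
    intro r
    rw [smul_add, prjv_add]
    exact L.add_mem (hz r) (hw r)
  | smul a z _ hz =>
    intro r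
    rw [smul_smul]
    exact hz _

theorem prjv_mem {L : Submodule (MonoidAlgebra ℤ H) (Fin n → MonoidAlgebra ℤ H)}
    {z : Fin n → MonoidAlgebra ℤ G} (hz : z ∈ extS φ L) : prjv ℤ φ hφ z ∈ L := by
  have := prjv_smul_mem φ hφ hz 1
  rwa [one_smul] at this

theorem extS_span (T : Set (Fin n → MonoidAlgebra ℤ H)) :
    extS φ (Submodule.span (MonoidAlgebra ℤ H) T) =
      Submodule.span (MonoidAlgebra ℤ G) (incv ℤ φ '' T) := by
  apply le_antisymm
  · unfold extS
    rw [Submodule.span_le]
    rintro _ ⟨x, hx, rfl⟩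
    rw [SetLike.mem_coe] at hx ⊢
    induction hx using Submodule.span_induction with
    | mem x hx => exact Submodule.subset_span ⟨x, hx, rfl⟩
    | zero =>
      have : incv ℤ φ (0 : Fin n → MonoidAlgebra ℤ H) = 0 := by
        funext i; exact map_zero _
      rw [this]
      exact Submodule.zero_mem _
    | add x y _ _ hx hy =>
      have : incv ℤ φ (x + y) = incv ℤ φ x + incv ℤ φ y := by
        funext i; exact map_add _ _ _
      rw [this]
      exact Submodule.add_mem _ hx hy
    | smul a x _ hx =>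
      rw [incv_smul]
      exact Submodule.smul_mem _ _ hx
  · exact Submodule.span_mono (Set.image_mono Submodule.subset_span)

theorem extS_fg {L : Submodule (MonoidAlgebra ℤ H) (Fin n → MonoidAlgebra ℤ H)} (h : L.FG) :
    (extS φ L).FG := by
  classical
  obtain ⟨T, rfl⟩ := h
  rw [extS_span]
  exact ⟨T.image (incv ℤ φ), by rw [Finset.coe_image]⟩

include hφ in
theorem fg_of_extS_fg {L : Submodule (MonoidAlgebra ℤ H) (Fin n → MonoidAlgebra ℤ H)}
    (h : (extS φ L).FG) : L.FG := by
  classical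
  unfold extS at h
  obtain ⟨T, hT1, hT2⟩ := (Submodule.fg_span_iff_fg_span_finset_subset _).mp h
  obtain ⟨T', hT', rfl⟩ := Finset.subset_set_image_iff.mp hT1
  refine ⟨T', le_antisymm (Submodule.span_le.mpr hT') ?_⟩
  intro y hy
  have h1 : incv ℤ φ y ∈ extS φ (Submodule.span (MonoidAlgebra ℤ H) (T' : Set _)) := by
    rw [extS_span, ← Finset.coe_image, ← hT2]
    exact Submodule.subset_span ⟨y, hy, rfl⟩
  have h2 := prjv_mem φ hφ h1
  rwa [prjv_incv] at h2

theorem vml {R : Type u} [Ring R] (A : Matrix (Fin m) (Fin n) R) (v : Fin m → R) :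
    A.vecMulLinear v = Matrix.vecMul v A := rfl

include hφ in
/-- The kernel of an extended map. -/
theorem ker_ext (A : Matrix (Fin m) (Fin n) (MonoidAlgebra ℤ H)) :
    extS φ (LinearMap.ker A.vecMulLinear) =
      LinearMap.ker (A.map (inc ℤ φ)).vecMulLinear := by
  apply le_antisymm
  · unfold extS
    rw [Submodule.span_le]
    rintro _ ⟨x, hx, rfl⟩
    rw [SetLike.mem_coe, LinearMap.mem_ker, vml] at hx ⊢
    rw [← incv_vecMul, hx]
    funext i
    exact map_zero _
  · intro z hz
    rw [LinearMap.mem_ker, vml] at hz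
    refine Submodule.span_mono ?_ (mem_span_prjv φ hφ z)
    rintro _ ⟨x, rfl⟩
    refine ⟨_, ?_, rfl⟩
    rw [SetLike.mem_coe, LinearMap.mem_ker, vml, ← prjv_vecMul_inc, Matrix.smul_vecMul, hz,
      smul_zero, prjv_zero]

theorem range_ext (A : Matrix (Fin m) (Fin n) (MonoidAlgebra ℤ H)) :
    extS φ (LinearMap.range A.vecMulLinear) =
      LinearMap.range (A.map (inc ℤ φ)).vecMulLinear := by
  apply le_antisymm
  · unfold extS
    rw [Submodule.span_le]
    rintro _ ⟨_, ⟨v, rfl⟩, rfl⟩
    rw [SetLike.mem_coe, vml, incv_vecMul]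
    exact ⟨incv ℤ φ v, rfl⟩
  · rintro _ ⟨z, rfl⟩
    rw [vml]
    have h1 : Matrix.vecMul z (A.map (inc ℤ φ)) = ∑ i, z i • incv ℤ φ (A i) := by
      funext j
      rw [Finset.sum_apply]
      rfl
    rw [h1]
    refine Submodule.sum_mem _ fun i _ => Submodule.smul_mem _ _ (incv_mem φ ?_)
    refine ⟨Pi.single i 1, ?_⟩
    rw [vml, Matrix.single_one_vecMul]
    rfl

include hφ in
/-- Descent of finite resolutions. -/
theorem descent (hR : RegCoh (MonoidAlgebra ℤ G)) (d : ℕ) :
    ∀ (n : ℕ) (L : Submodule (MonoidAlgebra ℤ H) (Fin n → MonoidAlgebra ℤ H)), L.FG →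
      FFR (MonoidAlgebra ℤ G) d ((Fin n → MonoidAlgebra ℤ G) ⧸ extS φ L) →
      FFR (MonoidAlgebra ℤ H) d ((Fin n → MonoidAlgebra ℤ H) ⧸ L) := by
  induction d with
  | zero =>
    intro n L _ h
    obtain ⟨_, h2⟩ := h
    refine ⟨inferInstance, ?_⟩
    obtain ⟨s, hs⟩ := Module.projective_lifting_property (extS φ L).mkQ LinearMap.id
      (Submodule.mkQ_surjective _)
    have hs' : ∀ x, (extS φ L).mkQ (s x) = x := fun x => DFunLike.congr_fun hs x
    let e' : (Fin n → MonoidAlgebra ℤ H) →ₗ[MonoidAlgebra ℤ H] (Fin n → MonoidAlgebra ℤ H) :=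
      { toFun := fun x => prjv ℤ φ hφ (s ((extS φ L).mkQ (incv ℤ φ x)))
        map_add' := fun x y => by
          have : incv ℤ φ (x + y) = incv ℤ φ x + incv ℤ φ y := by
            funext i; exact map_add _ _ _
          rw [this, map_add, map_add, prjv_add]
        map_smul' := fun a x => by
          rw [incv_smul, map_smul, map_smul]
          funext i
          exact prj_inc_mul φ hφ _ _ }
    have he' : ∀ x, e' x = prjv ℤ φ hφ (s ((extS φ L).mkQ (incv ℤ φ x))) := fun x => rfl
    have hk : L ≤ LinearMap.ker e' := by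
      intro x hx
      rw [LinearMap.mem_ker, he']
      have : (extS φ L).mkQ (incv ℤ φ x) = 0 := by
        rw [Submodule.mkQ_apply, Submodule.Quotient.mk_eq_zero]
        exact incv_mem φ hx
      rw [this, map_zero, prjv_zero]
    refine Module.Projective.of_split (L.liftQ e' hk) L.mkQ ?_
    apply LinearMap.ext
    intro q
    obtain ⟨y, rfl⟩ := L.mkQ_surjective q
    rw [LinearMap.comp_apply, LinearMap.id_apply]
    have h6 : L.liftQ e' hk (L.mkQ y) = e' y := rfl
    rw [h6, Submodule.mkQ_apply, Submodule.mkQ_apply, Submodule.Quotient.eq]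
    have h3 : s ((extS φ L).mkQ (incv ℤ φ y)) - incv ℤ φ y ∈ extS φ L := by
      rw [← Submodule.Quotient.eq]
      exact hs' _
    have h4 := prjv_mem φ hφ h3
    have h5 : prjv ℤ φ hφ (s ((extS φ L).mkQ (incv ℤ φ y)) - incv ℤ φ y) = e' y - y := by
      rw [he']
      funext j
      rw [Pi.sub_apply]
      change prj ℤ φ hφ (_ - _) = prj ℤ φ hφ _ - _
      rw [map_sub]
      congr 1
      exact congrFun (prjv_incv φ hφ y) j
    rwa [h5] at h4
  | succ d ih =>
    intro n L hL h
    obtain ⟨m, A, hA⟩ := Submodule.fg_iff_exists_fin_generating_family.mp hL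
    let A' : Matrix (Fin m) (Fin n) (MonoidAlgebra ℤ H) := A
    have hrange : LinearMap.range A'.vecMulLinear = L := by
      rw [← hA]
      apply le_antisymm
      · rintro _ ⟨z, rfl⟩
        rw [vml]
        have h1 : Matrix.vecMul z A' = ∑ i, z i • A i := by
          funext j
          rw [Finset.sum_apply]
          rfl
        rw [h1]
        exact Submodule.sum_mem _ fun i _ => Submodule.smul_mem _ _ (Submodule.subset_span ⟨i, rfl⟩)
      · rw [Submodule.span_le]
        rintro _ ⟨i, rfl⟩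
        refine ⟨Pi.single i 1, ?_⟩
        rw [vml, Matrix.single_one_vecMul]
        rfl
    -- the kernel
    have hKfg : (LinearMap.ker A'.vecMulLinear).FG := by
      apply fg_of_extS_fg φ hφ
      rw [ker_ext φ hφ]
      exact fg_ker hR _
    have h1 : FFR (MonoidAlgebra ℤ G) d (extS φ L) :=
      (ker_ffr h (extS φ L).mkQ (Submodule.mkQ_surjective _)).congr
        (LinearEquiv.ofEq _ _ (Submodule.ker_mkQ _))
    have h2 : FFR (MonoidAlgebra ℤ G) d ((Fin m → MonoidAlgebra ℤ G) ⧸
        extS φ (LinearMap.ker A'.vecMulLinear)) := by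
      refine h1.congr ?_
      refine (LinearEquiv.ofEq _ _ ?_).trans ((LinearMap.quotKerEquivRange
        (A'.map (inc ℤ φ)).vecMulLinear).symm.trans (Submodule.quotEquivOfEq _ _ ?_))
      · rw [← hrange, range_ext]
      · exact (ker_ext φ hφ A').symm
    have h3 := ih m _ hKfg h2
    refine ⟨n, L.mkQ, Submodule.mkQ_surjective _, ?_⟩
    refine h3.congr ((LinearMap.quotKerEquivRange A'.vecMulLinear).trans
      (LinearEquiv.ofEq _ _ ?_))
    rw [hrange, Submodule.ker_mkQ]

end Groups

end RegSubAux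

open RegSubAux in
theorem stRegSub : StRegSub.{u} := by
  intro H _ H' hR M _ _ hM
  obtain ⟨n, L, e, hL⟩ := Module.FinitePresentation.exists_fin (MonoidAlgebra ℤ H') M
  have hfp : Module.FinitePresentation (MonoidAlgebra ℤ H)
      ((Fin n → MonoidAlgebra ℤ H) ⧸ extS H'.subtype L) := by
    refine Module.finitePresentation_of_surjective (extS H'.subtype L).mkQ
      (Submodule.mkQ_surjective _) ?_
    rw [Submodule.ker_mkQ]
    exact extS_fg _ hL
  obtain ⟨d, hd⟩ := hR _ hfp
  exact ⟨d, (descent H'.subtype H'.subtype_injective hR d n L hL hd).congr e.symm⟩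

end Pool.Agent.Lib.MP_551055_al.LS
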