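import Mathlib
import Pool.Agent.Lib.MP_551055_al.Trim.LS.Stmts

/-!
# Invariant orientations
-/

set_option autoImplicit false

namespace Pool.Agent.Lib.MP_551055_al.LS

universe u v

theorem TreeAct.dist_le {Γ : Type u} [Group Γ] {V : Type v} [MulAction Γ V] {T : SimpleGraph V}
    (h : TreeAct Γ V T) (γ : Γ) (a b : V) : T.dist (γ • a) (γ • b) ≤ T.dist a b := by
  obtain ⟨w, hw⟩ := h.tree.1.exists_walk_length_eq_dist a b
  let φ : T →g T := ⟨fun x => γ • x, fun {x y} hxy => h.adj γ x y hxy⟩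
  rw [← hw, ← SimpleGraph.Walk.length_map φ w]
  exact SimpleGraph.dist_le (w.map φ)

theorem TreeAct.dist_eq {Γ : Type u} [Group Γ] {V : Type v} [MulAction Γ V] {T : SimpleGraph V}
    (h : TreeAct Γ V T) (γ : Γ) (a b : V) : T.dist (γ • a) (γ • b) = T.dist a b := by
  refine le_antisymm (h.dist_le γ a b) ?_
  have h1 := h.dist_le γ⁻¹ (γ • a) (γ • b)
  rwa [inv_smul_smul, inv_smul_smul] at h1

/-- Module TreeC. -/
theorem stTreeC : StTreeC.{u, v} := by
  intro Γ _ V _ T h
  refine ⟨h.dist_eq, ?_⟩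
  let q : V × V → Quotient (MulAction.orbitRel Γ (V × V)) := fun a => Quotient.mk _ a
  have hq : ∀ (γ : Γ) (a : V × V), q (γ • a) = q a := by
    intro γ a
    apply Quotient.sound
    exact ⟨γ, rfl⟩
  have hne : ∀ a b : V, T.Adj a b → q (a, b) ≠ q (b, a) := by
    intro a b hab he
    obtain ⟨γ, hγ⟩ := Quotient.exact he
    have h1 : γ • b = a := congrArg Prod.fst hγ
    have h2 : γ • a = b := congrArg Prod.snd hγ
    exact h.inv γ a b hab h2 h1
  refine ⟨{a | WellOrderingRel (q a) (q a.swap)}, ?_, ?_⟩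
  · intro γ a ha
    have h1 : (γ • a).swap = γ • a.swap := rfl
    change WellOrderingRel (q (γ • a)) (q (γ • a).swap)
    rw [h1, hq, hq]
    exact ha
  · intro a b hab
    change WellOrderingRel (q (a, b)) (q (b, a)) ↔ ¬ WellOrderingRel (q (b, a)) (q (a, b))
    constructor
    · intro h1 h2
      exact asymm_of WellOrderingRel h1 h2
    · intro h1
      rcases trichotomous_of WellOrderingRel (q (a, b)) (q (b, a)) with h2 | h2 | h2
      · exact h2
      · exact absurd h2 (hne a b hab)
      · exact absurd h2 h1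

end Pool.Agent.Lib.MP_551055_al.LS
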