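import Mathlib
import Pool.Agent.Lib.MP_551055_al.Trim.LS.Pos
import Pool.Agent.Lib.MP_551055_al.Trim.LS.Stmts

/-!
# Cutting a vector along an edge
-/

set_option autoImplicit false

namespace Pool.Agent.Lib.MP_551055_al
end Pool.Agent.Lib.MP_551055_al

namespace Pool.Agent.Lib.MP_551055_al.LS

open Pool.Agent.Lib.MP_551055_al

universe u v

section

variable {Γ : Type u} [Group Γ] {V : Type v} [MulAction Γ V] {T : SimpleGraph V}

/-- All positions of the source of a system are vertices or oriented edges. -/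
theorem Sys.in_cells (hT : TreeAct Γ V T) (s : Sys Γ T) (y : F Γ (s.K ⊕ s.I)) :
    In (cell s.f s.v) {a : V × V | a.1 = a.2 ∨ T.Adj a.1 a.2} y := by
  refine in_iff.2 fun i γ _ => ?_
  rcases i with k | i
  · right
    exact hT.adj γ _ _ (s.adj k)
  · left
    rfl

end

theorem stCut (h : StTreeA.{v}) : StCut.{u, v} := by
  intro Γ _ V _ T hT s a b hab y hy
  obtain ⟨hu, hv, hc, hcut⟩ := h V T hT.tree b a hab.symm
  -- `H` is the half-tree of `a`
  set H : Set V := side T b a with hH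
  set P : s.K ⊕ s.I → V × V := cell s.f s.v with hP
  have hcells := s.in_cells hT y
  rw [← hP] at hcells
  -- the decomposition of the cells
  have hdec : pr P (H ×ˢ H) y + pr P (Hᶜ ×ˢ Hᶜ) y + pr P {(a, b), (b, a)} y = y := by
    have hd1 : Disjoint (H ×ˢ H) (Hᶜ ×ˢ Hᶜ) := by
      rw [Set.disjoint_left]
      rintro ⟨x, x'⟩ h1 h2
      exact h2.1 h1.1
    have hd2 : Disjoint ((H ×ˢ H) ∪ (Hᶜ ×ˢ Hᶜ)) ({(a, b), (b, a)} : Set (V × V)) := by
      rw [Set.disjoint_right]
      rintro ⟨x, x'⟩ h1 h2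
      rcases h1 with h1 | h1
      · obtain ⟨rfl, rfl⟩ := Prod.mk.inj h1
        rcases h2 with h2 | h2
        · exact hv h2.2
        · exact h2.1 hu
      · obtain ⟨rfl, rfl⟩ := Prod.mk.inj (Set.mem_singleton_iff.1 h1)
        rcases h2 with h2 | h2
        · exact hv h2.1
        · exact h2.2 hu
    rw [← pr_union P hd1, ← pr_union P hd2]
    refine (hcells.mono ?_).eq
    rintro ⟨x, x'⟩ hx
    by_cases h1 : x ∈ H
    · by_cases h2 : x' ∈ H
      · exact Or.inl (Or.inl ⟨h1, h2⟩)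
      · rcases hx with hx | hx
        · exact absurd ((show x = x' from hx) ▸ h1) h2
        · obtain ⟨rfl, rfl⟩ := hcut x x' hx h1 h2
          exact Or.inr (Or.inl rfl)
    · by_cases h2 : x' ∈ H
      · rcases hx with hx | hx
        · exact absurd ((show x = x' from hx) ▸ h2) h1
        · obtain ⟨rfl, rfl⟩ := hcut x' x hx.symm h2 h1
          exact Or.inr (Or.inr rfl)
      · exact Or.inl (Or.inr ⟨h1, h2⟩)
  have h1 : In s.w H (s.Φ (pr P (H ×ˢ H) y)) := by
    refine (s.tr _ _ (in_pr P (H ×ˢ H) y)).mono ?_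
    rintro x ⟨c, hc, hx | hx⟩
    · rw [hx]; exact hc.1
    · rw [hx]; exact hc.2
  have h2 : In s.w Hᶜ (s.Φ (pr P (Hᶜ ×ˢ Hᶜ) y)) := by
    refine (s.tr _ _ (in_pr P (Hᶜ ×ˢ Hᶜ) y)).mono ?_
    rintro x ⟨c, hc, hx | hx⟩
    · rw [hx]; exact hc.1
    · rw [hx]; exact hc.2
  have h3 : In s.w {a, b} (s.Φ (pr P {(a, b), (b, a)} y)) := by
    refine (s.tr _ _ (in_pr P {(a, b), (b, a)} y)).mono ?_
    rintro x ⟨c, hc, hx⟩
    rcases hc with hc | hc
    · subst hc
      rcases hx with hx | hx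
      · exact Or.inl hx
      · exact Or.inr hx
    · rw [Set.mem_singleton_iff.1 hc] at hx
      rcases hx with hx | hx
      · exact Or.inr hx
      · exact Or.inl hx
  have h4 : pr s.w H (s.Φ y) = 0 :=
    hy.pr_eq_zero (Set.disjoint_singleton_right.2 hv)
  have h5 : pr s.w H (s.Φ (pr P {(a, b), (b, a)} y)) =
      pr s.w {a} (s.Φ (pr P {(a, b), (b, a)} y)) := by
    refine h3.pr_congr ?_
    rintro x (rfl | hx)
    · exact ⟨fun _ => rfl, fun _ => hu⟩
    · rw [Set.mem_singleton_iff.1 hx]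
      exact ⟨fun h => absurd h hv, fun h => absurd (Set.mem_singleton_iff.1 h) hab.ne'⟩
  have h6 : pr s.w H (s.Φ (pr P (Hᶜ ×ˢ Hᶜ) y)) = 0 :=
    h2.pr_eq_zero disjoint_compl_right
  rw [← hdec] at h4
  rw [map_add, map_add, map_add, map_add, h1.eq, h6, h5, add_zero] at h4
  exact h4

end Pool.Agent.Lib.MP_551055_al.LS
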