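import Mathlib
import Pool.Agent.Lib.MP_551055_al.Trim.Descent
import Pool.Agent.Lib.MP_551055_al.Trim.LS.FFR
import Pool.Agent.Lib.MP_551055_al.Trim.LS.Pos
import Pool.Agent.Lib.MP_551055_al.Trim.LS.Stmts
import Pool.Agent.Lib.MP_551055_al.Trim.Red.Orb
import Pool.Agent.Lib.MP_551055_al.Trim.Red.Res

/-!
# Module Ind: resolutions over the stabilisers of the positions give resolutions over `ℤ[Γ]`
-/

set_option autoImplicit false

namespace Pool.Agent.Lib.MP_551055_al
end Pool.Agent.Lib.MP_551055_al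

namespace Pool.Agent.Lib.MP_551055_al.Red
end Pool.Agent.Lib.MP_551055_al.Red

namespace Pool.Agent.Lib.MP_551055_al.LS.Ind
end Pool.Agent.Lib.MP_551055_al.LS.Ind

namespace Pool.Agent.Lib.MP_551055_al.T4.Ind
end Pool.Agent.Lib.MP_551055_al.T4.Ind

namespace Pool.Agent.Lib.MP_551055_al.LS

open Pool.Agent.Lib.MP_551055_al

open Pool.Agent.Lib.MP_551055_al.Red (res res_coeff res_single_mul Vec vec_smul_apply)

open MonoidAlgebra

universe u v

namespace Ind

variable {Γ : Type u} [Group Γ] {X : Type v} [MulAction Γ X] {ι κ : Type}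

/-! ### Representatives of the orbits of the positions -/

/-- `I` is a set of representatives for the orbits of the positions. -/
structure Reps (Γ : Type u) [Group Γ] {X : Type v} [MulAction Γ X] {ι : Type} (p : ι → X)
    (I : Set ι) : Prop where
  ex : ∀ j, ∃ i ∈ I, ∃ γ : Γ, γ • p i = p j
  uniq : ∀ i ∈ I, ∀ j ∈ I, ∀ γ : Γ, γ • p i = p j → i = j

theorem exists_reps (p : ι → X) : ∃ I : Set ι, Reps Γ p I := by
  let q : ι → MulAction.orbitRel.Quotient Γ X := fun i => Quotient.mk _ (p i)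
  let c : (x : MulAction.orbitRel.Quotient Γ X) → (∃ i, q i = x) → ι := fun _ h => h.choose
  have hc : ∀ x h, q (c x h) = x := fun x h => h.choose_spec
  have hq : ∀ i j, q i = q j ↔ ∃ γ : Γ, γ • p i = p j := by
    intro i j
    constructor
    · intro h
      have h1 : MulAction.orbitRel Γ X (p j) (p i) := Quotient.exact h.symm
      rw [MulAction.orbitRel_apply] at h1
      exact h1
    · rintro ⟨γ, hγ⟩
      apply Eq.symm
      apply Quotient.sound
      change MulAction.orbitRel Γ X (p j) (p i)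
      rw [MulAction.orbitRel_apply]
      exact ⟨γ, hγ⟩
  refine ⟨{i | ∃ x h, c x h = i}, fun j => ⟨c (q j) ⟨j, rfl⟩, ⟨_, _, rfl⟩, ?_⟩, ?_⟩
  · exact (hq _ _).1 (hc _ _)
  · rintro i ⟨x, h, rfl⟩ j ⟨x', h', rfl⟩ γ hγ
    have h1 : q (c x h) = q (c x' h') := (hq _ _).2 ⟨γ, hγ⟩
    rw [hc, hc] at h1
    subst h1
    rfl

/-- A property of vectors in a graded submodule holds if it holds for the vectors with one position
in the orbit of a representative. -/
theorem hom_ind [Finite ι] {p : ι → X} {I : Set ι} (hI : Reps Γ p I)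
    {B : Submodule (ZG Γ) (F Γ ι)} (hB : ∀ P, ∀ y ∈ B, pr p P y ∈ B) {Q : F Γ ι → Prop}
    (h0 : Q 0) (ha : ∀ a b, Q a → Q b → Q (a + b))
    (h : ∀ (i : I) (γ : Γ), ∀ y ∈ B, In p {γ • p i} y → Q y) : ∀ y ∈ B, Q y := by
  classical
  intro y hy
  obtain ⟨s, -, hs⟩ := exists_sum_pr p y
  rw [hs]
  refine Finset.sum_induction _ Q ha h0 fun x _ => ?_
  by_cases hx : ∃ (i : I) (γ : Γ), γ • p i = x
  · obtain ⟨i, γ, rfl⟩ := hx
    exact h i γ _ (hB _ _ hy) (in_pr p _ y)
  · have h1 : pr p {x} y = 0 := by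
      refine F_ext fun j g => ?_
      rw [pr_coeff, if_neg]
      · rfl
      · intro hg
        obtain ⟨i, hi, γ, hγ⟩ := hI.ex j
        apply hx
        refine ⟨⟨i, hi⟩, g * γ, ?_⟩
        rw [mul_smul, hγ]
        exact hg
    rw [h1]
    exact h0

/-! ### The modules over the stabilisers -/

/-- A linear map, restricted to the group ring of a subgroup. -/
noncomputable def rst (H : Subgroup Γ) (f : F Γ κ →ₗ[ZG Γ] F Γ ι) :
    Vec H κ →ₗ[MonoidAlgebra ℤ H] Vec H ι where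
  toFun := f
  map_add' := f.map_add
  map_smul' s y := f.map_smul (inc ℤ H.subtype s) y

open Classical in
/-- The inclusion of the free module on the fibre of `i`. -/
noncomputable def E {J : Type} (H : Subgroup Γ) (τ : κ → J) (i : J) :
    ({c : κ // τ c = i} → MonoidAlgebra ℤ H) →ₗ[MonoidAlgebra ℤ H] Vec H κ where
  toFun z := fun c => if h : τ c = i then inc ℤ H.subtype (z ⟨c, h⟩) else 0
  map_add' y z := by
    funext c
    change (if h : τ c = i then inc ℤ H.subtype (y ⟨c, h⟩ + z ⟨c, h⟩) else 0) =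
      (if h : τ c = i then inc ℤ H.subtype (y ⟨c, h⟩) else 0) +
      (if h : τ c = i then inc ℤ H.subtype (z ⟨c, h⟩) else 0)
    split_ifs
    · rw [map_add]
    · rw [add_zero]
  map_smul' s z := by
    funext c
    change (if h : τ c = i then inc ℤ H.subtype (s * z ⟨c, h⟩) else 0) =
      inc ℤ H.subtype s * (if h : τ c = i then inc ℤ H.subtype (z ⟨c, h⟩) else 0)
    split_ifs
    · rw [map_mul]
    · rw [mul_zero]

theorem E_apply_pos {J : Type} {H : Subgroup Γ} {τ : κ → J} {i : J}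
    (z : {c : κ // τ c = i} → MonoidAlgebra ℤ H) (c : κ) (h : τ c = i) :
    (E H τ i z : F Γ κ) c = inc ℤ H.subtype (z ⟨c, h⟩) := by
  classical
  exact dif_pos h

theorem E_apply_neg {J : Type} {H : Subgroup Γ} {τ : κ → J} {i : J}
    (z : {c : κ // τ c = i} → MonoidAlgebra ℤ H) (c : κ) (h : τ c ≠ i) :
    (E H τ i z : F Γ κ) c = 0 := by
  classical
  exact dif_neg h

theorem E_inj {J : Type} {H : Subgroup Γ} {τ : κ → J} {i : J} :
    Function.Injective (E H τ i) := by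
  intro y z h
  funext c
  have h1 : (E H τ i y : F Γ κ) c = (E H τ i z : F Γ κ) c := congrFun h c
  rw [E_apply_pos y c.1 c.2, E_apply_pos z c.1 c.2] at h1
  exact inc_injective H.subtype Subtype.val_injective h1

theorem E_single [DecidableEq κ] {J : Type} {H : Subgroup Γ} {τ : κ → J} (c : κ) :
    asF (E H τ (τ c) (Pi.single ⟨c, rfl⟩ 1)) = Pi.single c 1 := by
  funext c'
  change (E H τ (τ c) (Pi.single ⟨c, rfl⟩ 1) : F Γ κ) c' = _
  by_cases h : τ c' = τ c
  · rw [E_apply_pos _ c' h]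
    by_cases h' : c' = c
    · subst h'
      rw [Pi.single_eq_same, Pi.single_eq_same, map_one]
    · rw [Pi.single_eq_of_ne h', Pi.single_eq_of_ne, map_zero]
      intro h2
      exact h' (congrArg Subtype.val h2)
  · rw [E_apply_neg _ c' h, Pi.single_eq_of_ne]
    rintro rfl
    exact h rfl

section Main

variable {p : ι → X} {I : Set ι} {τ : κ → I}

theorem E_in (i : I) (z : {c : κ // τ c = i} → MonoidAlgebra ℤ (MulAction.stabilizer Γ (p i))) :
    In (fun c => p (τ c)) {p i} (E (MulAction.stabilizer Γ (p i)) τ i z : F Γ κ) := by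
  refine in_iff.2 fun c γ hne => ?_
  by_cases h : τ c = i
  · rw [E_apply_pos z c h] at hne
    have h1 : γ ∈ MulAction.stabilizer Γ (p i) := by
      by_contra hn
      apply hne
      apply inc_coeff_of_notMem
      rintro ⟨t, ht⟩
      exact hn (ht ▸ t.2)
    have h2 : γ • p i = p i := h1
    change γ • p (τ c) = p i
    rw [h, h2]
  · rw [E_apply_neg z c h] at hne
    exact absurd rfl hne

theorem E_surj (hI : Reps Γ p I) (i : I) (y : F Γ κ) (hy : In (fun c => p (τ c)) {p i} y) :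
    ∃ z, (E (MulAction.stabilizer Γ (p i)) τ i z : F Γ κ) = y := by
  have hinj : Function.Injective (MulAction.stabilizer Γ (p i)).subtype := Subtype.val_injective
  refine ⟨fun c => prj ℤ (MulAction.stabilizer Γ (p i)).subtype hinj (y c), ?_⟩
  refine F_ext fun c γ => ?_
  have hpos := fun hne => in_iff.1 hy c γ hne
  by_cases h : τ c = i
  · rw [E_apply_pos _ c h]
    by_cases hγ : γ ∈ MulAction.stabilizer Γ (p i)
    · have h1 := inc_coeff_apply (k := ℤ) (MulAction.stabilizer Γ (p i)).subtype hinj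
        (prj ℤ (MulAction.stabilizer Γ (p i)).subtype hinj (y c)) ⟨γ, hγ⟩
      rw [prj_coeff] at h1
      exact h1
    · rw [inc_coeff_of_notMem]
      · by_contra hne
        apply hγ
        have h2 : γ • p (τ c) = p i := hpos (Ne.symm hne)
        rw [h] at h2
        exact h2
      · rintro ⟨t, ht⟩
        exact hγ (ht ▸ t.2)
  · rw [E_apply_neg _ c h]
    by_contra hne
    apply h
    have h2 : γ • p (τ c) = p i := hpos (Ne.symm hne)
    exact Subtype.ext (hI.uniq _ (τ c).2 _ i.2 γ h2)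

end Main

/-! ### The covering module -/

/-- The map `e_c ↦ b_c`. -/
noncomputable def Psi [Fintype κ] (b : κ → F Γ ι) : F Γ κ →ₗ[ZG Γ] F Γ ι :=
  Fintype.linearCombination (ZG Γ) b

theorem Psi_single [Fintype κ] [DecidableEq κ] (b : κ → F Γ ι) (c : κ) :
    Psi b (Pi.single c 1) = b c := by
  rw [Psi, Fintype.linearCombination_apply_single, one_smul]

section Cover

variable [Fintype κ] {p : ι → X} {I : Set ι} {τ : κ → I} {A B : Submodule (ZG Γ) (F Γ ι)}
  {b : κ → F Γ ι}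

theorem Psi_gr (hb : ∀ c, In p {p (τ c)} (b c)) : Gr (fun c => p (τ c)) p (Psi b) := by
  classical
  rw [gr_iff_tr]
  refine tr_of_basis (fun γ a b h => by rw [h]) fun c => ?_
  rw [Psi_single]
  exact (hb c).mono fun x hx => (Set.mem_singleton_iff.1 hx).symm

theorem Psi_mem (hb : ∀ c, b c ∈ B) (z : F Γ κ) : Psi b z ∈ B := by
  rw [Psi, Fintype.linearCombination_apply]
  exact B.sum_mem fun c _ => B.smul_mem _ (hb c)

/-- The local map to `homIn B p (p i)`. -/
noncomputable def loc (hb : ∀ c, In p {p (τ c)} (b c)) (hb' : ∀ c, b c ∈ B) (i : I) :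
    ({c : κ // τ c = i} → MonoidAlgebra ℤ (MulAction.stabilizer Γ (p i)))
      →ₗ[MonoidAlgebra ℤ (MulAction.stabilizer Γ (p i))] homIn B p (p i) :=
  LinearMap.codRestrict (homIn B p (p i))
    (rst (MulAction.stabilizer Γ (p i)) (Psi b) ∘ₗ E (MulAction.stabilizer Γ (p i)) τ i)
    fun z => ⟨(Psi_gr hb).in (E_in i z), Psi_mem hb' _⟩

/-- The local map to the local quotient. -/
noncomputable def gi (A : Submodule (ZG Γ) (F Γ ι)) (hb : ∀ c, In p {p (τ c)} (b c))
    (hb' : ∀ c, b c ∈ B) (i : I) :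
    ({c : κ // τ c = i} → MonoidAlgebra ℤ (MulAction.stabilizer Γ (p i)))
      →ₗ[MonoidAlgebra ℤ (MulAction.stabilizer Γ (p i))]
      (homIn B p (p i) ⧸ (homIn A p (p i)).submoduleOf (homIn B p (p i))) :=
  Submodule.mkQ _ ∘ₗ loc hb hb' i

theorem gi_eq_iff (hb : ∀ c, In p {p (τ c)} (b c)) (hb' : ∀ c, b c ∈ B) (i : I)
    (z : {c : κ // τ c = i} → MonoidAlgebra ℤ (MulAction.stabilizer Γ (p i)))
    (y : homIn B p (p i)) :
    gi A hb hb' i z = Submodule.Quotient.mk y ↔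
      Psi b (E (MulAction.stabilizer Γ (p i)) τ i z : F Γ κ) - asF y.1 ∈ A := by
  change (Submodule.Quotient.mk (loc hb hb' i z) : homIn B p (p i) ⧸ _) = _ ↔ _
  rw [Submodule.Quotient.eq]
  constructor
  · intro h
    exact h.2
  · intro h
    exact ⟨((loc hb hb' i z).2.1).sub y.2.1, h⟩

theorem gi_eq_zero_iff (hb : ∀ c, In p {p (τ c)} (b c)) (hb' : ∀ c, b c ∈ B) (i : I)
    (z : {c : κ // τ c = i} → MonoidAlgebra ℤ (MulAction.stabilizer Γ (p i))) :
    gi A hb hb' i z = 0 ↔ Psi b (E (MulAction.stabilizer Γ (p i)) τ i z : F Γ κ) ∈ A := by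
  have h := gi_eq_iff (A := A) hb hb' i z 0
  rw [Submodule.Quotient.mk_zero] at h
  rw [h]
  have h0 : asF (0 : homIn B p (p i)).1 = 0 := rfl
  rw [h0, sub_zero]

theorem gi_single (hb : ∀ c, In p {p (τ c)} (b c)) (hb' : ∀ c, b c ∈ B) [DecidableEq κ] (c : κ) :
    gi A hb hb' (τ c) (Pi.single ⟨c, rfl⟩ 1) = Submodule.Quotient.mk ⟨b c, hb c, hb' c⟩ := by
  rw [gi_eq_iff]
  have h1 : asF (E (MulAction.stabilizer Γ (p (τ c))) τ (τ c) (Pi.single ⟨c, rfl⟩ 1)) =
      Pi.single c 1 := E_single (H := MulAction.stabilizer Γ (p (τ c))) (τ := τ) c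
  change Psi b (asF (E (MulAction.stabilizer Γ (p (τ c))) τ (τ c) (Pi.single ⟨c, rfl⟩ 1))) -
    b c ∈ A
  rw [h1, Psi_single, sub_self]
  exact A.zero_mem

/-- The kernel of the local map. -/
theorem ker_equiv (hI : Reps Γ p I) (hb : ∀ c, In p {p (τ c)} (b c)) (hb' : ∀ c, b c ∈ B)
    (i : I) : Nonempty (LinearMap.ker (gi A hb hb' i)
      ≃ₗ[MonoidAlgebra ℤ (MulAction.stabilizer Γ (p i))]
      homIn (A.comap (Psi b)) (fun c => p (τ c)) (p i)) := by
  let e : LinearMap.ker (gi A hb hb' i) →ₗ[MonoidAlgebra ℤ (MulAction.stabilizer Γ (p i))]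
      homIn (A.comap (Psi b)) (fun c => p (τ c)) (p i) :=
    LinearMap.codRestrict _
      ((E (MulAction.stabilizer Γ (p i)) τ i).domRestrict (LinearMap.ker (gi A hb hb' i)))
      fun z => ⟨E_in i z.1, (gi_eq_zero_iff hb hb' i z.1).1 (LinearMap.mem_ker.1 z.2)⟩
  refine ⟨LinearEquiv.ofBijective e ⟨?_, ?_⟩⟩
  · intro y z h
    exact Subtype.ext (E_inj (congrArg Subtype.val h))
  · intro y
    obtain ⟨z, hz⟩ := E_surj hI i (y : Vec _ κ) y.2.1
    have h1 : z ∈ LinearMap.ker (gi A hb hb' i) := by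
      rw [LinearMap.mem_ker, gi_eq_zero_iff, hz]
      exact y.2.2
    exact ⟨⟨z, h1⟩, Subtype.ext hz⟩

theorem smul_smul_inv (γ : Γ) (y : F Γ ι) :
    (single γ 1 : ZG Γ) • (single γ⁻¹ 1 : ZG Γ) • y = y := by
  rw [smul_smul, single_mul_single, mul_inv_cancel, mul_one]
  exact one_smul _ y

/-- The covering is surjective modulo `A`. -/
theorem exists_sub_mem [Finite ι] (hI : Reps Γ p I) (hB : ∀ P, ∀ y ∈ B, pr p P y ∈ B)
    (hb : ∀ c, In p {p (τ c)} (b c)) (hb' : ∀ c, b c ∈ B)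
    (hs : ∀ i : I, Function.Surjective (gi A hb hb' i)) :
    ∀ y ∈ B, ∃ z : F Γ κ, Psi b z - y ∈ A := by
  refine hom_ind hI hB ⟨0, ?_⟩ ?_ ?_
  · rw [map_zero, sub_zero]
    exact A.zero_mem
  · rintro y y' ⟨z, hz⟩ ⟨z', hz'⟩
    refine ⟨z + z', ?_⟩
    rw [map_add, add_sub_add_comm]
    exact A.add_mem hz hz'
  · intro i γ y hy hyi
    have h1 : In p {p i} ((single γ⁻¹ 1 : ZG Γ) • y) := by
      have := hyi.smul_singleton γ⁻¹ 1
      rwa [smul_smul, inv_mul_cancel, one_smul] at this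
    have h2 : (single γ⁻¹ 1 : ZG Γ) • y ∈ B := B.smul_mem _ hy
    obtain ⟨z, hz⟩ := hs i (Submodule.Quotient.mk ⟨(single γ⁻¹ 1 : ZG Γ) • y, h1, h2⟩)
    rw [gi_eq_iff] at hz
    refine ⟨(single γ 1 : ZG Γ) • asF (E (MulAction.stabilizer Γ (p i)) τ i z), ?_⟩
    have h3 := A.smul_mem (single γ 1 : ZG Γ) hz
    rw [smul_sub] at h3
    change (single γ 1 : ZG Γ) • Psi b (E (MulAction.stabilizer Γ (p i)) τ i z : F Γ κ) -
      (single γ 1 : ZG Γ) • ((single γ⁻¹ 1 : ZG Γ) • y) ∈ A at h3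
    rw [smul_smul_inv] at h3
    rw [map_smul]
    exact h3

/-- The covering map of the quotient. -/
noncomputable def cov (A : Submodule (ZG Γ) (F Γ ι)) (hb' : ∀ c, b c ∈ B) :
    F Γ κ →ₗ[ZG Γ] (B ⧸ A.submoduleOf B) :=
  Submodule.mkQ _ ∘ₗ LinearMap.codRestrict B (Psi b) (Psi_mem hb')

theorem cov_eq_iff (hb' : ∀ c, b c ∈ B) (z : F Γ κ) (y : B) :
    cov A hb' z = Submodule.Quotient.mk y ↔ Psi b z - y ∈ A := by
  change (Submodule.Quotient.mk (LinearMap.codRestrict B (Psi b) (Psi_mem hb') z) : B ⧸ _) = _ ↔ _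
  rw [Submodule.Quotient.eq]
  exact Iff.rfl

theorem ker_cov (hb' : ∀ c, b c ∈ B) : LinearMap.ker (cov A hb') = A.comap (Psi b) := by
  ext z
  have h := cov_eq_iff (A := A) hb' z 0
  rw [Submodule.Quotient.mk_zero, Submodule.coe_zero, sub_zero] at h
  rw [LinearMap.mem_ker, h, Submodule.mem_comap]

theorem cov_surj [Finite ι] (hI : Reps Γ p I) (hB : ∀ P, ∀ y ∈ B, pr p P y ∈ B)
    (hb : ∀ c, In p {p (τ c)} (b c)) (hb' : ∀ c, b c ∈ B)
    (hs : ∀ i : I, Function.Surjective (gi A hb hb' i)) : Function.Surjective (cov A hb') := by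
  intro y
  obtain ⟨y, rfl⟩ := Submodule.Quotient.mk_surjective _ y
  obtain ⟨z, hz⟩ := exists_sub_mem hI hB hb hb' hs y y.2
  exact ⟨z, (cov_eq_iff hb' z y).2 hz⟩

/-! ### The section in the projective case -/

/-- The homogeneous part of `y` at `γ • p i`, moved to `p i`. -/
noncomputable def mv (hB : ∀ P, ∀ y ∈ B, pr p P y ∈ B) (x : X) (γ : Γ) :
    B →+ homIn B p x where
  toFun y := ⟨((single γ⁻¹ 1 : ZG Γ) • pr p {γ • x} (y : F Γ ι) : F Γ ι), by
    have := (in_pr p {γ • x} (y : F Γ ι)).smul_singleton γ⁻¹ 1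
    rwa [smul_smul, inv_mul_cancel, one_smul] at this, B.smul_mem _ (hB _ _ y.2)⟩
  map_zero' := Subtype.ext (by
    change ((single γ⁻¹ 1 : ZG Γ) • pr p {γ • x} (0 : F Γ ι) : F Γ ι) = 0
    rw [map_zero, smul_zero])
  map_add' y z := Subtype.ext (by
    change ((single γ⁻¹ 1 : ZG Γ) • pr p {γ • x} ((y : F Γ ι) + (z : F Γ ι)) : F Γ ι) =
      (single γ⁻¹ 1 : ZG Γ) • pr p {γ • x} (y : F Γ ι) +
      (single γ⁻¹ 1 : ZG Γ) • pr p {γ • x} (z : F Γ ι)
    rw [map_add, smul_add])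

theorem mv_coe (hB : ∀ P, ∀ y ∈ B, pr p P y ∈ B) (x : X) (γ : Γ) (y : B) :
    ((mv hB x γ y : Vec (MulAction.stabilizer Γ x) ι) : F Γ ι) =
      (single γ⁻¹ 1 : ZG Γ) • pr p {γ • x} (y : F Γ ι) := rfl

/-- The additive map at the position `γ • x`. -/
noncomputable def TT (hB : ∀ P, ∀ y ∈ B, pr p P y ∈ B) {x : X}
    (S : homIn B p x →ₗ[MonoidAlgebra ℤ (MulAction.stabilizer Γ x)]
      Vec (MulAction.stabilizer Γ x) κ) (γ : Γ) : B →+ F Γ κ where
  toFun y := (single γ 1 : ZG Γ) • asF (S (mv hB x γ y))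
  map_zero' := by
    rw [map_zero, map_zero]
    exact smul_zero (A := F Γ κ) (single γ 1 : ZG Γ)
  map_add' y z := by
    rw [map_add, map_add]
    exact smul_add (A := F Γ κ) (single γ 1 : ZG Γ) _ _

omit [Fintype κ] in
theorem TT_apply (hB : ∀ P, ∀ y ∈ B, pr p P y ∈ B) {x : X}
    (S : homIn B p x →ₗ[MonoidAlgebra ℤ (MulAction.stabilizer Γ x)]
      Vec (MulAction.stabilizer Γ x) κ) (γ : Γ) (y : B) :
    TT hB S γ y = (single γ 1 : ZG Γ) • asF (S (mv hB x γ y)) := rfl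

omit [Fintype κ] in
theorem TT_mul (hB : ∀ P, ∀ y ∈ B, pr p P y ∈ B) {x : X}
    (S : homIn B p x →ₗ[MonoidAlgebra ℤ (MulAction.stabilizer Γ x)]
      Vec (MulAction.stabilizer Γ x) κ) (γ' γ : Γ) (y : B) :
    TT hB S (γ' * γ) ((single γ' 1 : ZG Γ) • y) = (single γ' 1 : ZG Γ) • TT hB S γ y := by
  have h1 : mv hB x (γ' * γ) ((single γ' 1 : ZG Γ) • y) = mv hB x γ y := by
    apply Subtype.ext
    change (single (γ' * γ)⁻¹ 1 : ZG Γ) • pr p {(γ' * γ) • x} ((single γ' 1 : ZG Γ) • (y : F Γ ι))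
      = (single γ⁻¹ 1 : ZG Γ) • pr p {γ • x} (y : F Γ ι)
    rw [mul_smul, pr_smul_singleton, smul_smul, single_mul_single, mul_one, mul_inv_rev,
      inv_mul_cancel_right]
  rw [TT_apply, TT_apply, h1, smul_smul, single_mul_single, mul_one]

omit [Fintype κ] in
theorem TT_stab (hB : ∀ P, ∀ y ∈ B, pr p P y ∈ B) {x : X}
    (S : homIn B p x →ₗ[MonoidAlgebra ℤ (MulAction.stabilizer Γ x)]
      Vec (MulAction.stabilizer Γ x) κ) (γ h : Γ) (hh : h • x = x) :
    TT hB S (γ * h) = TT hB S γ := by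
  ext1 y
  let η : MulAction.stabilizer Γ x := ⟨h, hh⟩
  have h1 : mv hB x (γ * h) y =
      (single η⁻¹ 1 : MonoidAlgebra ℤ (MulAction.stabilizer Γ x)) • mv hB x γ y := by
    apply Subtype.ext
    change ((single (γ * h)⁻¹ 1 : ZG Γ) • pr p {(γ * h) • x} (y : F Γ ι) : F Γ ι) =
      (single η⁻¹ 1 : MonoidAlgebra ℤ (MulAction.stabilizer Γ x)) •
        (mv hB x γ y : Vec (MulAction.stabilizer Γ x) ι)
    rw [vec_single]
    change ((single (γ * h)⁻¹ 1 : ZG Γ) • pr p {(γ * h) • x} (y : F Γ ι) : F Γ ι) =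
      (single h⁻¹ 1 : ZG Γ) • ((single γ⁻¹ 1 : ZG Γ) • pr p {γ • x} (y : F Γ ι))
    rw [mul_smul, hh, smul_smul, single_mul_single, mul_one, mul_inv_rev]
  rw [TT_apply, TT_apply, h1, map_smul, vec_single]
  change (single (γ * h) 1 : ZG Γ) • ((single h⁻¹ 1 : ZG Γ) • asF (S (mv hB x γ y))) = _
  rw [smul_smul, single_mul_single, mul_one, mul_inv_cancel_right]

open Classical in
/-- Local sections give a section. -/
theorem exists_section [Finite ι] (hI : Reps Γ p I) (hAB : A ≤ B)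
    (hA : ∀ P, ∀ y ∈ A, pr p P y ∈ A) (hB : ∀ P, ∀ y ∈ B, pr p P y ∈ B)
    (hb' : ∀ c, b c ∈ B)
    (S : ∀ i : I, homIn B p (p i) →ₗ[MonoidAlgebra ℤ (MulAction.stabilizer Γ (p i))]
      Vec (MulAction.stabilizer Γ (p i)) κ)
    (hS : ∀ (i : I) (y : homIn B p (p i)), asF y.1 ∈ A → S i y = 0)
    (hS' : ∀ (i : I) (y : homIn B p (p i)),
      Psi b (S i y : F Γ κ) - asF y.1 ∈ A) :
    ∃ s : (B ⧸ A.submoduleOf B) →ₗ[ZG Γ] F Γ κ, cov A hb' ∘ₗ s = LinearMap.id := by
  -- the family of additive maps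
  let φ : X → (B →+ F Γ κ) := fun x =>
    if h : ∃ (i : I) (γ : Γ), γ • p i = x then TT hB (S h.choose) h.choose_spec.choose else 0
  have hφ : ∀ (i : I) (γ : Γ), φ (γ • p i) = TT hB (S i) γ := by
    intro i γ
    have h : ∃ (i' : I) (γ' : Γ), γ' • p i' = γ • p i := ⟨i, γ, rfl⟩
    have h1 : φ (γ • p i) = TT hB (S h.choose) h.choose_spec.choose := dif_pos h
    rw [h1]
    have h2 := h.choose_spec.choose_spec
    generalize h.choose_spec.choose = γ' at h2 ⊢
    generalize h.choose = i' at h2 ⊢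
    have h3 : i' = i := by
      apply Subtype.ext
      apply hI.uniq _ i'.2 _ i.2 (γ⁻¹ * γ')
      rw [mul_smul, h2, smul_smul, inv_mul_cancel, one_smul]
    subst h3
    have h4 : (γ⁻¹ * γ') • p i' = p i' := by
      rw [mul_smul, h2, smul_smul, inv_mul_cancel, one_smul]
    have h5 := TT_stab hB (S i') γ (γ⁻¹ * γ') h4
    rwa [mul_inv_cancel_left] at h5
  have hφ0 : ∀ (x : X), (¬ ∃ (i : I) (γ : Γ), γ • p i = x) → φ x = 0 := fun x h => dif_neg h
  obtain ⟨f, hf⟩ := exists_lin_sub p B hB φ (by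
    intro γ x y _
    by_cases hx : ∃ (i : I) (γ : Γ), γ • p i = x
    · obtain ⟨i, γ', rfl⟩ := hx
      rw [smul_smul, hφ, hφ, TT_mul]
    · have hx' : ¬ ∃ (i : I) (γ' : Γ), γ' • p i = γ • x := by
        rintro ⟨i, γ', h⟩
        apply hx
        refine ⟨i, γ⁻¹ * γ', ?_⟩
        rw [mul_smul, h, smul_smul, inv_mul_cancel, one_smul]
      rw [hφ0 _ hx, hφ0 _ hx']
      change (0 : F Γ κ) = (single γ 1 : ZG Γ) • (0 : F Γ κ)
      rw [smul_zero])
  have hf' : ∀ (i : I) (γ : Γ) (y : B), In p {γ • p i} (y : F Γ ι) →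
      f y = (single γ 1 : ZG Γ) • asF (S i (mv hB (p i) γ y)) := by
    intro i γ y hy
    rw [hf _ _ hy, hφ, TT_apply]
  have hmv : ∀ (i : I) (γ : Γ) (y : B), In p {γ • p i} (y : F Γ ι) →
      ((mv hB (p i) γ y : Vec (MulAction.stabilizer Γ (p i)) ι) : F Γ ι) =
        (single γ⁻¹ 1 : ZG Γ) • (y : F Γ ι) := by
    intro i γ y hy
    rw [mv_coe, hy.eq]
  -- `f` kills `A`
  have hfA : ∀ y ∈ A, ∃ hy : y ∈ B, f ⟨y, hy⟩ = 0 := by
    refine hom_ind hI hA ⟨B.zero_mem, map_zero f⟩ ?_ ?_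
    · rintro y y' ⟨hy, h⟩ ⟨hy', h'⟩
      refine ⟨B.add_mem hy hy', ?_⟩
      have h1 : (⟨y + y', B.add_mem hy hy'⟩ : B) = ⟨y, hy⟩ + ⟨y', hy'⟩ := rfl
      rw [h1, map_add, h, h', add_zero]
    · intro i γ y hyA hyi
      refine ⟨hAB hyA, ?_⟩
      rw [hf' i γ ⟨y, hAB hyA⟩ hyi, hS i]
      · exact smul_zero (A := F Γ κ) (single γ 1 : ZG Γ)
      · rw [hmv i γ ⟨y, hAB hyA⟩ hyi]
        exact A.smul_mem _ hyA
  -- `f` is a section modulo `A`
  have hfB : ∀ y ∈ B, ∃ hy : y ∈ B, Psi b (f ⟨y, hy⟩) - y ∈ A := by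
    refine hom_ind hI hB ⟨B.zero_mem, ?_⟩ ?_ ?_
    · have h1 : (⟨0, B.zero_mem⟩ : B) = 0 := rfl
      rw [h1, map_zero, map_zero, sub_zero]
      exact A.zero_mem
    · rintro y y' ⟨hy, h⟩ ⟨hy', h'⟩
      refine ⟨B.add_mem hy hy', ?_⟩
      have h1 : (⟨y + y', B.add_mem hy hy'⟩ : B) = ⟨y, hy⟩ + ⟨y', hy'⟩ := rfl
      rw [h1, map_add, map_add, add_sub_add_comm]
      exact A.add_mem h h'
    · intro i γ y hyB hyi
      refine ⟨hyB, ?_⟩
      rw [hf' i γ ⟨y, hyB⟩ hyi, map_smul]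
      have h1 := A.smul_mem (single γ 1 : ZG Γ) (hS' i (mv hB (p i) γ ⟨y, hyB⟩))
      rw [hmv i γ ⟨y, hyB⟩ hyi, smul_sub, smul_smul_inv] at h1
      exact h1
  refine ⟨Submodule.liftQ _ f ?_, ?_⟩
  · rintro ⟨y, hy⟩ hyA
    obtain ⟨_, h⟩ := hfA y hyA
    exact h
  · apply Submodule.linearMap_qext
    ext1 y
    change cov A hb' (f y) = Submodule.Quotient.mk y
    rw [cov_eq_iff]
    obtain ⟨_, h⟩ := hfB y y.2
    exact h

end Cover

/-! ### The induction -/

theorem ffr_ker_comp {R : Type u} [Ring R] {d : ℕ} {M M' N : Type u} [AddCommGroup M] [Module R M]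
    [AddCommGroup M'] [Module R M'] [AddCommGroup N] [Module R N] (e : M ≃ₗ[R] M') (f : M' →ₗ[R] N)
    (h : FFR R d (LinearMap.ker f)) : FFR R d (LinearMap.ker (f ∘ₗ e.toLinearMap)) := by
  have hk : LinearMap.ker (f ∘ₗ e.toLinearMap) = (LinearMap.ker f).comap e.toLinearMap :=
    LinearMap.ker_comp _ _
  let e' : LinearMap.ker (f ∘ₗ e.toLinearMap) ≃ₗ[R] LinearMap.ker f :=
    e.ofSubmodules _ _ (by
      rw [hk]
      exact Submodule.map_comap_eq_of_surjective e.surjective _)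
  exact h.congr e'.symm

/-- Coverings of the local quotients give a covering of the quotient. -/
theorem exists_cover [Finite ι] (p : ι → X) (I : Set ι) (A B : Submodule (ZG Γ) (F Γ ι))
    (n : I → ℕ) (f : ∀ i : I, (Fin (n i) → MonoidAlgebra ℤ (MulAction.stabilizer Γ (p i)))
      →ₗ[MonoidAlgebra ℤ (MulAction.stabilizer Γ (p i))]
      (homIn B p (p i) ⧸ (homIn A p (p i)).submoduleOf (homIn B p (p i)))) :
    ∃ (b : (Σ i : I, Fin (n i)) → F Γ ι)
      (hb : ∀ c : (Σ i : I, Fin (n i)), In p {p c.1} (b c))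
      (hb' : ∀ c, b c ∈ B), ∀ [Fintype (Σ i : I, Fin (n i))] (i : I),
      gi (κ := Σ i : I, Fin (n i)) (p := p) (I := I) (B := B) (b := b)
        (τ := fun c => c.1) A hb hb' i = f i ∘ₗ
        (LinearEquiv.funCongrLeft (MonoidAlgebra ℤ (MulAction.stabilizer Γ (p i)))
          (MonoidAlgebra ℤ (MulAction.stabilizer Γ (p i)))
          (Equiv.sigmaSubtype (β := fun i : I => Fin (n i)) i).symm).toLinearMap := by
  classical
  have h : ∀ c : Σ i : I, Fin (n i), ∃ y : homIn B p (p c.1),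
      Submodule.Quotient.mk y = f c.1 (Pi.single c.2 1) := fun c =>
    Submodule.Quotient.mk_surjective _ _
  choose y hy using h
  refine ⟨fun c => asF (y c).1, fun c => (y c).2.1, fun c => (y c).2.2, ?_⟩
  intro _ i
  apply LinearMap.pi_ext'
  rintro ⟨c, rfl⟩
  apply LinearMap.ext_ring
  have h1 := gi_single (A := A) (τ := fun c => c.1) (fun c => (y c).2.1) (fun c => (y c).2.2) c
  rw [LinearMap.comp_apply, LinearMap.single_apply]
  rw [h1]
  have h2 : (⟨(y c : Vec _ ι), (y c).2.1, (y c).2.2⟩ : homIn B p (p c.1)) = y c := rfl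
  rw [h2, hy c]
  rw [LinearMap.comp_apply, LinearMap.comp_apply, LinearMap.single_apply]
  congr 1
  funext a
  change _ = (Pi.single (⟨c, rfl⟩ : {c' : Σ i : I, Fin (n i) // c'.1 = c.1}) 1 :
    {c' : Σ i : I, Fin (n i) // c'.1 = c.1} → _) ⟨⟨c.1, a⟩, rfl⟩
  rw [Pi.single_apply, Pi.single_apply]
  by_cases ha : a = c.2
  · subst ha
    rw [if_pos rfl, if_pos rfl]
  · rw [if_neg ha, if_neg]
    intro h3
    have h4 := congrArg Subtype.val h3
    exact ha (eq_of_heq (Sigma.ext_iff.1 h4).2)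

end Ind

open Ind in
/-- Module Ind. -/
theorem stInd : StInd.{u, v} := by
  intro Γ _ X _ d
  induction d with
  | zero =>
    intro ι _ p A B hAB hA hB hC
    obtain ⟨I, hI⟩ := exists_reps (Γ := Γ) p
    have hC' : ∀ i : I, ∃ (n : ℕ) (f : (Fin n → MonoidAlgebra ℤ (MulAction.stabilizer Γ (p i)))
        →ₗ[MonoidAlgebra ℤ (MulAction.stabilizer Γ (p i))]
        (homIn B p (p i) ⧸ (homIn A p (p i)).submoduleOf (homIn B p (p i)))),
        Function.Surjective f := by
      intro i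
      have := (hC i).1
      exact Module.Finite.exists_fin' _ _
    choose n f hf using hC'
    obtain ⟨b, hb, hb', hg⟩ := exists_cover p I A B n f
    have : Fintype (Σ i : I, Fin (n i)) := Fintype.ofFinite _
    have hs : ∀ i : I, Function.Surjective (gi (κ := Σ i : I, Fin (n i)) (p := p) (I := I) (B := B)
        (b := b) (τ := fun c => c.1) A hb hb' i) := by
      intro i
      rw [hg i]
      exact (hf i).comp (LinearEquiv.surjective _)
    have hsec : ∀ i : I, ∃ σ : (homIn B p (p i) ⧸ (homIn A p (p i)).submoduleOf (homIn B p (p i)))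
        →ₗ[MonoidAlgebra ℤ (MulAction.stabilizer Γ (p i))] _,
        gi (κ := Σ i : I, Fin (n i)) (p := p) (I := I) (B := B) (b := b) (τ := fun c => c.1)
          A hb hb' i ∘ₗ σ = LinearMap.id := by
      intro i
      have := (hC i).2
      exact Module.projective_lifting_property _ LinearMap.id (hs i)
    choose σ hσ using hsec
    obtain ⟨s, hs'⟩ := exists_section (b := b)
      hI hAB hA hB hb'
      (fun i => E (MulAction.stabilizer Γ (p i)) (fun c => c.1) i ∘ₗ σ i ∘ₗ Submodule.mkQ _)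
      (by
        intro i y hy
        have h1 : Submodule.mkQ ((homIn A p (p i)).submoduleOf (homIn B p (p i))) y = 0 := by
          rw [Submodule.mkQ_apply, Submodule.Quotient.mk_eq_zero]
          exact ⟨y.2.1, hy⟩
        rw [LinearMap.comp_apply, LinearMap.comp_apply, h1, map_zero, map_zero])
      (by
        intro i y
        exact (gi_eq_iff hb hb' i _ y).1 (DFunLike.congr_fun (hσ i) (Submodule.Quotient.mk y)))
    have hcs := cov_surj hI hB hb hb' hs
    exact ⟨Module.Finite.of_surjective (cov A hb') hcs,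
      Module.Projective.of_split s (cov A hb') hs'⟩
  | succ d ih =>
    intro ι _ p A B hAB hA hB hC
    obtain ⟨I, hI⟩ := exists_reps (Γ := Γ) p
    have hC' : ∀ i : I, ∃ (n : ℕ) (f : (Fin n → MonoidAlgebra ℤ (MulAction.stabilizer Γ (p i)))
        →ₗ[MonoidAlgebra ℤ (MulAction.stabilizer Γ (p i))]
        (homIn B p (p i) ⧸ (homIn A p (p i)).submoduleOf (homIn B p (p i)))),
        Function.Surjective f ∧ FFR _ d (LinearMap.ker f) := fun i => hC i
    choose n f hf hk using hC'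
    obtain ⟨b, hb, hb', hg⟩ := exists_cover p I A B n f
    have : Fintype (Σ i : I, Fin (n i)) := Fintype.ofFinite _
    have hs : ∀ i : I, Function.Surjective (gi (κ := Σ i : I, Fin (n i)) (p := p) (I := I) (B := B)
        (b := b) (τ := fun c => c.1) A hb hb' i) := by
      intro i
      rw [hg i]
      exact (hf i).comp (LinearEquiv.surjective _)
    have hk' : ∀ i : I, FFR (MonoidAlgebra ℤ (MulAction.stabilizer Γ (p i))) d (LinearMap.ker (gi (κ := Σ i : I, Fin (n i)) (p := p)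
        (I := I) (B := B) (b := b) (τ := fun c => c.1) A hb hb' i)) := by
      intro i
      rw [hg i]
      exact ffr_ker_comp _ _ (hk i)
    have hcs := cov_surj hI hB hb hb' hs
    refine FFR.of_surj (cov A hb') hcs ?_
    rw [ker_cov]
    have h1 := ih (Σ i : I, Fin (n i)) (fun c => p c.1) ⊥ (A.comap (Psi b)) bot_le
      (by
        intro P y hy
        rw [Submodule.mem_bot] at hy ⊢
        rw [hy, map_zero])
      (by
        intro P y hy
        have h2 : Gr (fun c : (Σ i : I, Fin (n i)) => p c.1) p (Psi b) :=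
          Psi_gr (τ := fun c : (Σ i : I, Fin (n i)) => c.1) hb
        rw [Submodule.mem_comap, h2]
        exact hA _ _ hy)
      (by
        intro c
        obtain ⟨e⟩ := ker_equiv (A := A) hI (τ := fun c => c.1) hb hb' c.1
        refine ((hk' c.1).congr e).congr (Submodule.quotEquivOfEqBot _ ?_).symm
        rw [eq_bot_iff]
        intro y hy
        have h2 : asF y.1 = 0 := hy.2
        rw [Submodule.mem_bot]
        exact Subtype.ext h2)
    refine h1.congr (Submodule.quotEquivOfEqBot _ ?_)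
    rw [eq_bot_iff]
    intro y hy
    have h2 : y.1 = 0 := hy
    rw [Submodule.mem_bot]
    exact Subtype.ext h2

end Pool.Agent.Lib.MP_551055_al.LS
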