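import Mathlib
import Pool.Agent.Lib.MP_551055_al.Trim.LS.Pos

/-!
# The position of a basis vector, for any decidability instance
-/

set_option autoImplicit false

namespace Pool.Agent.Lib.MP_551055_al
end Pool.Agent.Lib.MP_551055_al

namespace Pool.Agent.Lib.MP_551055_al.LS

open Pool.Agent.Lib.MP_551055_al

universe u v w

theorem in_single {Γ : Type u} [Group Γ] {X : Type v} [MulAction Γ X] {ι : Type} [DecidableEq ι]
    (p : ι → X) (i : ι) : In p {p i} (Pi.single i 1 : F Γ ι) := by
  rw [in_iff]
  intro k γ hne
  by_cases hk : k = i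
  · subst hk
    rw [Pi.single_eq_same, MonoidAlgebra.one_def, MonoidAlgebra.coeff_single] at hne
    have h1 : γ = 1 := by
      by_contra h
      exact hne (Finsupp.single_eq_of_ne h)
    rw [h1, one_smul]
    rfl
  · rw [Pi.single_eq_of_ne hk] at hne
    exact absurd rfl hne

theorem single_any {M : Type u} [Zero M] {ι : Type} (d d' : DecidableEq ι) (i : ι) (c : M) :
    @Pi.single ι (fun _ => M) _ d i c = @Pi.single ι (fun _ => M) _ d' i c :=
  congrArg (fun e => @Pi.single ι (fun _ => M) _ e i c) (Subsingleton.elim d d')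

end Pool.Agent.Lib.MP_551055_al.LS
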