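import Mathlib
import Pool.Agent.Lib.MP_551055_al.Trim.Descent
import Pool.Agent.Lib.MP_551055_al.Trim.LS.FFR
import Pool.Agent.Lib.MP_551055_al.Trim.LS.Pos
import Pool.Agent.Lib.MP_551055_al.Trim.LS.Stmts
import Pool.Agent.Lib.MP_551055_al.Trim.Red.Orb

/-!
# Nilpotent maps along a relation

Module Nil of the long segment project: if the group rings of the stabilisers of the positions are
regular coherent, then `1 + ν` has class zero for nilpotent `ν` which move positions along `r`.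
-/

set_option autoImplicit false

namespace Pool.Agent.Lib.MP_551055_al
end Pool.Agent.Lib.MP_551055_al

namespace Pool.Agent.Lib.MP_551055_al.Red
end Pool.Agent.Lib.MP_551055_al.Red

namespace Pool.Agent.Lib.MP_551055_al.LS

open Pool.Agent.Lib.MP_551055_al

open Pool.Agent.Lib.MP_551055_al.Red (Vec)

universe u v

/-- The quotient of two submodules `A ≤ B` of `T` which are given by the kernels of maps from `T`
to free modules has a finite resolution over a regular coherent ring. -/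
theorem nil_coh (h2 : StCoh.{u}) {R : Type u} [Ring R] (hR : RegCoh R) {V E E' : Type u}
    [AddCommGroup V] [AddCommGroup E] [AddCommGroup E'] [Module R V] [Module R E] [Module R E']
    (T A B : Submodule R V) (hf : Module.Finite R T) (hp : Module.Projective R T)
    (hE : Module.Free R E) (hE' : Module.Free R E') (g : T →ₗ[R] E) (g' : T →ₗ[R] E')
    (hA : ∀ y : T, g y = 0 ↔ (y : V) ∈ A) (hB : ∀ y : T, g' y = 0 ↔ (y : V) ∈ B) (hAB : A ≤ B)
    (hBT : B ≤ T) : ∃ d, FFR R d (B ⧸ A.submoduleOf B) := by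
  have hle : LinearMap.ker g ≤ LinearMap.ker g' := fun y hy =>
    LinearMap.mem_ker.2 ((hB y).2 (hAB ((hA y).1 (LinearMap.mem_ker.1 hy))))
  obtain ⟨d, hd⟩ := h2 R hR T E E' g g' hf hp hE hE' hle
  let e : LinearMap.ker g' ≃ₗ[R] B :=
    { toFun := fun y => ⟨y.1.1, (hB y.1).1 (LinearMap.mem_ker.1 y.2)⟩
      map_add' := fun _ _ => rfl
      map_smul' := fun _ _ => rfl
      invFun := fun y => ⟨⟨y.1, hBT y.2⟩, LinearMap.mem_ker.2 ((hB ⟨y.1, hBT y.2⟩).2 y.2)⟩
      left_inv := fun _ => rfl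
      right_inv := fun _ => rfl }
  refine ⟨d, FFR.congr (Submodule.Quotient.equiv _ _ e ?_) hd⟩
  ext y
  rw [Submodule.mem_map_equiv]
  change (⟨y.1, hBT y.2⟩ : T) ∈ LinearMap.ker g ↔ (y : V) ∈ A
  rw [LinearMap.mem_ker, hA]

section Nil

variable {Γ : Type u} [Group Γ] {X : Type v} [MulAction Γ X] {ι κ : Type}

/-- A linear map over `ℤ[Γ]` as a linear map over `ℤ[H]`. -/
noncomputable def vecMap (H : Subgroup Γ) (f : F Γ ι →ₗ[ZG Γ] F Γ κ) :
    Vec H ι →ₗ[MonoidAlgebra ℤ H] Vec H κ where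
  toFun := f
  map_add' := f.map_add
  map_smul' s y := f.map_smul (inc ℤ H.subtype s) y

/-- Homogeneous vectors are in the filtration step `i` if they are killed by `ν ^ i`. -/
theorem nil_mem_kerFil {p : ι → X} {ν : Module.End (ZG Γ) (F Γ ι)} {i : ℕ} {x : X} {y : F Γ ι}
    (hy : In p {x} y) : y ∈ kerFil p ν i ↔ (ν ^ i) y = 0 := by
  constructor
  · intro h
    have h1 : (ν ^ i) (pr p {x} y) = 0 := h x
    rwa [hy.eq] at h1
  · intro h z
    by_cases hz : z = x
    · subst hz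
      rwa [hy.eq]
    · rw [hy.pr_eq_zero (Set.disjoint_singleton.2 hz), map_zero]

theorem nil_homIn_mono {A B : Submodule (ZG Γ) (F Γ ι)} (h : A ≤ B) (p : ι → X) (x : X) :
    homIn A p x ≤ homIn B p x := fun _ hy => ⟨hy.1, h hy.2⟩

/-- The restriction of the powers of `ν` to the vectors at the position `x`. -/
noncomputable def nilMap (p : ι → X) (ν : Module.End (ZG Γ) (F Γ ι)) (x : X) (i : ℕ) :
    homIn (⊤ : Submodule (ZG Γ) (F Γ ι)) p x →ₗ[MonoidAlgebra ℤ (MulAction.stabilizer Γ x)]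
      Vec (MulAction.stabilizer Γ x) ι :=
  vecMap (MulAction.stabilizer Γ x) (ν ^ i) ∘ₗ
    (homIn (⊤ : Submodule (ZG Γ) (F Γ ι)) p x).subtype

theorem nilMap_eq_zero (p : ι → X) (ν : Module.End (ZG Γ) (F Γ ι)) (x : X) (i : ℕ)
    (y : homIn (⊤ : Submodule (ZG Γ) (F Γ ι)) p x) :
    nilMap p ν x i y = 0 ↔
      (y : Vec (MulAction.stabilizer Γ x) ι) ∈ homIn (kerFil p ν i) p x :=
  ⟨fun h => ⟨y.2.1, (nil_mem_kerFil (y := asF y.1) y.2.1).2 h⟩,
    fun h => (nil_mem_kerFil (y := asF y.1) y.2.1).1 h.2⟩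

end Nil

/-- Module Nil. -/
theorem stNil (h1 : StFil.{u, v}) (h2 : StCoh.{u}) (h3 : StInd.{u, v}) (h4 : StDev.{u})
    (h5 : StVecFree.{u}) (h6 : StHomFree.{u, v}) (h7 : StGAFree.{u}) : StNil.{u, v} := by
  intro Γ _ K X _ r hr ι _ p ν hν htr hcoh
  obtain ⟨k, hk⟩ := hν
  obtain ⟨f0, fk, fmono, fν, fgr⟩ := h1 Γ X r hr ι p ν k hk htr
  have := Fintype.ofFinite ι
  -- resolutions over the stabilisers
  have hloc : ∀ (j : ι) (i : ℕ), ∃ d, FFR (MonoidAlgebra ℤ (MulAction.stabilizer Γ (p j))) d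
      (homIn (kerFil p ν (i + 1)) p (p j) ⧸
        (homIn (kerFil p ν i) p (p j)).submoduleOf (homIn (kerFil p ν (i + 1)) p (p j))) := by
    intro j i
    obtain ⟨n, ⟨e⟩⟩ := h6 Γ X ι p (p j)
    exact nil_coh h2 (hcoh j) (homIn (⊤ : Submodule (ZG Γ) (F Γ ι)) p (p j)) _ _
      (Module.Finite.equiv e.symm) (Module.Projective.of_equiv e.symm) (h5 Γ _ ι) (h5 Γ _ ι)
      (nilMap p ν (p j) i) (nilMap p ν (p j) (i + 1)) (nilMap_eq_zero p ν (p j) i)
      (nilMap_eq_zero p ν (p j) (i + 1)) (nil_homIn_mono (fmono (Nat.le_succ i)) p (p j))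
      (nil_homIn_mono le_top p (p j))
  choose D hD using hloc
  -- a common length
  let d : ℕ := Finset.univ.sup fun j => (Finset.range k).sup (D j)
  have hd : ∀ j, ∀ i < k, D j i ≤ d := fun j i hi =>
    (Finset.le_sup (f := D j) (Finset.mem_range.2 hi)).trans
      (Finset.le_sup (f := fun j => (Finset.range k).sup (D j)) (Finset.mem_univ j))
  have hglob : ∀ i < k, FFR (ZG Γ) d
      (kerFil p ν (i + 1) ⧸ (kerFil p ν i).submoduleOf (kerFil p ν (i + 1))) := by
    intro i hi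
    exact h3 Γ X d ι p (kerFil p ν i) (kerFil p ν (i + 1)) (fmono (Nat.le_succ i)) (fgr i)
      (fgr (i + 1)) fun j => (hD j i).mono (hd j i hi)
  have hGA : K.GA (LinearMap.id + ν) :=
    h4 (ZG Γ) K d k (F Γ ι) (kerFil p ν) ν inferInstance inferInstance f0 fk fmono fν hglob
  exact (h7 (ZG Γ) K ι _).1 hGA

end Pool.Agent.Lib.MP_551055_al.LS
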