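import Mathlib
import Pool.Agent.Lib.MP_551055_al.Trim.LS.Final
import Pool.Agent.Lib.MP_551055_al.Trim.LS.PStmts
import Pool.Agent.Lib.MP_551055_al.Trim.LS.Stmts

/-!
# Poly-`ℤ` groups times free abelian groups have regular noetherian group rings
-/

set_option autoImplicit false

namespace Pool.Agent.Lib.MP_551055_al
end Pool.Agent.Lib.MP_551055_al

namespace Pool.Agent.Lib.MP_551055_al.LS

open Pool.Agent.Lib.MP_551055_al

universe u

/-- The property does not change along isomorphisms of rings. -/
theorem RegNoeth.congr {R R' : Type u} [Ring R] [Ring R'] (e : R ≃+* R') (h : RegNoeth R) :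
    RegNoeth R' := by
  refine ⟨?_, ?_⟩
  · have := h.1
    exact isNoetherianRing_of_ringEquiv R e
  · intro M _ inst hM
    let _ : Module R M := Module.compHom M (e : R →+* R')
    have : RingHomInvPair (e : R →+* R') (e.symm : R' →+* R) := RingHomInvPair.of_ringEquiv e
    have : RingHomInvPair (e.symm : R' →+* R) (e : R →+* R') := RingHomInvPair.symm _ _
    let E : M ≃ₛₗ[(e : R →+* R')] M :=
      { toFun := fun y => y
        map_add' := fun _ _ => rfl
        map_smul' := fun _ _ => rfl
        invFun := fun y => y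
        left_inv := fun _ => rfl
        right_inv := fun _ => rfl }
    have hfin : Module.Finite R M :=
      Module.Finite.of_surjective (σ := (e.symm : R' →+* R)) E.symm.toLinearMap E.symm.surjective
    obtain ⟨d, hd⟩ := h.2 M hfin
    exact ⟨d, FFR.semi d E hd⟩

/-- The integers. -/
theorem regNoeth_int : RegNoeth ℤ := by
  refine ⟨inferInstance, ?_⟩
  intro M _ _ hM
  obtain ⟨n, f, hf⟩ := Module.Finite.exists_fin' ℤ M
  exact ⟨1, n, f, hf, inferInstance, inferInstance⟩

/-- Isomorphic groups. -/
theorem regNoeth_mulEquiv {G H : Type u} [Group G] [Group H] (e : G ≃* H)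
    (h : RegNoeth (MonoidAlgebra ℤ G)) : RegNoeth (MonoidAlgebra ℤ H) :=
  h.congr (MonoidAlgebra.mapDomainRingEquiv ℤ e)

/-- The trivial group. -/
theorem regNoeth_triv (G : Type) [Group G] [Subsingleton G] : RegNoeth (MonoidAlgebra ℤ G) :=
  regNoeth_int.congr (MonoidAlgebra.uniqueRingEquiv G).symm

/-- The stabiliser of the point `0` is the kernel. -/
theorem ker_eq_St {G : Type u} [Group G] (f : G →* Multiplicative ℤ) : f.ker = St f := by
  ext γ
  rw [mem_stab, MonoidHom.mem_ker]
  exact ⟨fun h => by rw [h]; rfl, fun h => h⟩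

theorem regNoeth_polyZ (h : StPReg.{0}) : ∀ (G : Type) [Group G], PolyZ G →
    RegNoeth (MonoidAlgebra ℤ G) := by
  intro G _ hG
  induction hG with
  | triv G hs => exact regNoeth_triv G
  | ext G f hf _ ih =>
    exact h G f hf (regNoeth_mulEquiv (MulEquiv.subgroupCongr (ker_eq_St f)) ih)

/-- The last coordinate of the second factor. -/
def lastHom (G : Type) [Group G] (n : ℕ) : G × ZN (n + 1) →* Multiplicative ℤ where
  toFun x := Multiplicative.ofAdd (Multiplicative.toAdd x.2 (Fin.last n))
  map_one' := rfl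
  map_mul' _ _ := rfl

theorem lastHom_surjective (G : Type) [Group G] (n : ℕ) :
    Function.Surjective (lastHom G n) := fun k =>
  ⟨(1, Multiplicative.ofAdd fun _ => Multiplicative.toAdd k), rfl⟩

/-- The kernel. -/
def kerEquiv (G : Type) [Group G] (n : ℕ) : G × ZN n ≃* (lastHom G n).ker where
  toFun x := ⟨(x.1, Multiplicative.ofAdd
    (Fin.snoc (α := fun _ => ℤ) (Multiplicative.toAdd x.2) 0)), by
      rw [MonoidHom.mem_ker]
      change Multiplicative.ofAdd (Fin.snoc (α := fun _ => ℤ) (Multiplicative.toAdd x.2) 0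
        (Fin.last n)) = 1
      rw [Fin.snoc_last]
      rfl⟩
  invFun x := (x.1.1, Multiplicative.ofAdd fun i => Multiplicative.toAdd x.1.2 (Fin.castSucc i))
  left_inv x := by
    refine Prod.ext rfl ?_
    change (fun i => Fin.snoc (α := fun _ => ℤ) (Multiplicative.toAdd x.2) 0 (Fin.castSucc i))
      = Multiplicative.toAdd x.2
    funext i
    rw [Fin.snoc_castSucc]
  right_inv x := by
    apply Subtype.ext
    refine Prod.ext rfl ?_
    change Fin.snoc (α := fun _ => ℤ) (fun i => Multiplicative.toAdd x.1.2 (Fin.castSucc i)) 0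
      = Multiplicative.toAdd x.1.2
    funext j
    refine Fin.lastCases ?_ (fun i => ?_) j
    · rw [Fin.snoc_last]
      exact ((MonoidHom.mem_ker (f := lastHom G n)).1 x.2).symm
    · rw [Fin.snoc_castSucc]
  map_mul' x y := by
    apply Subtype.ext
    refine Prod.ext rfl ?_
    change Fin.snoc (α := fun _ => ℤ) (Multiplicative.toAdd x.2 + Multiplicative.toAdd y.2) 0
      = Fin.snoc (α := fun _ => ℤ) (Multiplicative.toAdd x.2) 0
        + Fin.snoc (α := fun _ => ℤ) (Multiplicative.toAdd y.2) 0
    funext j
    rw [Pi.add_apply]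
    refine Fin.lastCases ?_ (fun i => ?_) j
    · rw [Fin.snoc_last, Fin.snoc_last, Fin.snoc_last]
      rfl
    · rw [Fin.snoc_castSucc, Fin.snoc_castSucc, Fin.snoc_castSucc]
      rfl

/-- Poly-`ℤ` groups times free abelian groups of finite rank have regular noetherian group
rings. -/
theorem stPFin (h : StPReg.{0}) : StPFin := by
  intro G _ hG n
  induction n with
  | zero =>
    have e : G ≃* G × ZN 0 :=
      { toFun := fun g => (g, 1)
        invFun := fun x => x.1
        left_inv := fun _ => rfl
        right_inv := fun x => Prod.ext rfl (Subsingleton.elim (α := Fin 0 → ℤ) _ _)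
        map_mul' := fun _ _ => Prod.ext rfl (Subsingleton.elim (α := Fin 0 → ℤ) _ _) }
    exact regNoeth_mulEquiv e (regNoeth_polyZ h G hG)
  | succ n ih =>
    refine h (G × ZN (n + 1)) (lastHom G n) (lastHom_surjective G n) ?_
    exact regNoeth_mulEquiv
      ((kerEquiv G n).trans (MulEquiv.subgroupCongr (ker_eq_St (lastHom G n)))) ih

end Pool.Agent.Lib.MP_551055_al.LS
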