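import Mathlib
import Pool.Agent.Lib.MP_551055_al.Trim.Descent
import Pool.Agent.Lib.MP_551055_al.Trim.LS.FFR
import Pool.Agent.Lib.MP_551055_al.Trim.LS.PStmts
import Pool.Agent.Lib.MP_551055_al.Trim.LS.Pos
import Pool.Agent.Lib.MP_551055_al.Trim.LS.Stmts
import Pool.Agent.Lib.MP_551055_al.Trim.Red.Orb
import Pool.Agent.Lib.MP_551055_al.Trim.Red.Res

/-!
# Module PGr: resolutions of the window give resolutions of the induced module
-/

set_option autoImplicit false

namespace Pool.Agent.Lib.MP_551055_al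
end Pool.Agent.Lib.MP_551055_al

namespace Pool.Agent.Lib.MP_551055_al.Red
end Pool.Agent.Lib.MP_551055_al.Red

namespace Pool.Agent.Lib.MP_551055_al.LS

open Pool.Agent.Lib.MP_551055_al

open Pool.Agent.Lib.MP_551055_al.Red (res res_coeff res_single_mul Vec vec_smul_apply)

open MonoidAlgebra

universe u

namespace PGr

variable {Γ : Type u} [Group Γ] {ι κ : Type}

theorem in_pz {f : Γ →* Multiplicative ℤ} {P : Set (Ln f)} {y : F Γ κ} :
    In (pz f κ) P y ↔ ∀ i γ, (y i).coeff γ ≠ 0 → pt f (f γ).toAdd ∈ P := by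
  rw [in_iff]
  have h : ∀ (i : κ) (γ : Γ), γ • pz f κ i = pt f (f γ).toAdd := by
    intro i γ
    change γ • pt f 0 = _
    rw [smul_pt, add_zero]
  constructor
  · intro hh i γ hne
    rw [← h i γ]
    exact hh i γ hne
  · intro hh i γ hne
    rw [h i γ]
    exact hh i γ hne

/-- The coefficients of a vector with one position vanish in the other degrees. -/
theorem coeff_eq_zero {f : Γ →* Multiplicative ℤ} {x : Ln f} {y : F Γ κ}
    (hy : In (pz f κ) {x} y) (i : κ) (g : Γ) (hg : (f g).toAdd ≠ co x) : (y i).coeff g = 0 := by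
  by_contra hne
  exact hg (in_pz.1 hy i g hne)

theorem evm_coeff (t : Γ) (m : ℕ) (y : F Γ (Fin (m + 1) × ι)) (i : ι) (g : Γ) :
    (evm t m ι y i).coeff g = ∑ k : Fin (m + 1), (y (k, i)).coeff (g * (t ^ (k : ℕ))⁻¹) := by
  rw [evm_apply, coeff_sum, Finsupp.finsetSum_apply]
  refine Finset.sum_congr rfl fun k _ => ?_
  rw [coeff_mul_single_apply, mul_one]

theorem toAdd_pow {f : Γ →* Multiplicative ℤ} {t : Γ} (ht : f t = Multiplicative.ofAdd 1) (k : ℕ) :
    (f (t ^ k)).toAdd = k := by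
  rw [map_pow, ht, _root_.toAdd_pow, toAdd_ofAdd, nsmul_eq_mul, mul_one]

theorem toAdd_mul_inv {f : Γ →* Multiplicative ℤ} {t : Γ} (ht : f t = Multiplicative.ofAdd 1)
    (g : Γ) (k : ℕ) : (f (g * (t ^ k)⁻¹)).toAdd = (f g).toAdd - k := by
  rw [map_mul, map_inv, toAdd_mul, toAdd_inv, PGr.toAdd_pow ht, sub_eq_add_neg]

/-- The coefficients of `evm y` if `y` has one position. -/
theorem coeff_evm {f : Γ →* Multiplicative ℤ} {t : Γ} (ht : f t = Multiplicative.ofAdd 1) (m : ℕ)
    {x : Ln f} {y : F Γ (Fin (m + 1) × ι)} (hy : In (pz f _) {x} y) (i : ι) (k : Fin (m + 1)) (g : Γ)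
    (hg : (f g).toAdd = co x + (k : ℕ)) :
    (evm t m ι y i).coeff g = (y (k, i)).coeff (g * (t ^ (k : ℕ))⁻¹) := by
  rw [evm_coeff]
  refine Finset.sum_eq_single k (fun k' _ hk' => ?_) fun h => absurd (Finset.mem_univ k) h
  apply coeff_eq_zero hy
  rw [toAdd_mul_inv ht, hg]
  intro h
  apply hk'
  apply Fin.ext
  omega

theorem toAdd_mul_pow {f : Γ →* Multiplicative ℤ} {t : Γ} (ht : f t = Multiplicative.ofAdd 1)
    (g : Γ) (k : ℕ) : (f (g * t ^ k)).toAdd = (f g).toAdd + k := by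
  rw [map_mul, toAdd_mul, PGr.toAdd_pow ht]

end PGr

section

variable {Γ : Type u} [Group Γ] {ι : Type}

/-- The degrees of `evm y` if all positions of `y` are equal to `x`. -/
theorem evm_in (f : Γ →* Multiplicative ℤ) (t : Γ) (ht : f t = Multiplicative.ofAdd 1) (m : ℕ)
    (x : Ln f) (y : F Γ (Fin (m + 1) × ι)) (hy : In (pz f _) {x} y) :
    In (pz f ι) (seg f (co x) (co x + m)) (evm t m ι y) := by
  refine PGr.in_pz.2 fun i g hne => ?_
  rw [PGr.evm_coeff] at hne
  obtain ⟨k, _, hk⟩ := Finset.exists_ne_zero_of_sum_ne_zero hne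
  have h1 : (f (g * (t ^ (k : ℕ))⁻¹)).toAdd = co x := by
    by_contra hn
    exact hk (PGr.coeff_eq_zero hy _ _ hn)
  rw [PGr.toAdd_mul_inv ht] at h1
  have h2 := k.2
  rw [pt_mem_seg]
  omega

/-- The vectors with degrees in `[x, x + m]` are the images of unique vectors with position `x`. -/
theorem evm_bij (f : Γ →* Multiplicative ℤ) (t : Γ) (ht : f t = Multiplicative.ofAdd 1) (m : ℕ)
    (x : Ln f) (z : F Γ ι) (hz : In (pz f ι) (seg f (co x) (co x + m)) z) :
    ∃! y : F Γ (Fin (m + 1) × ι), In (pz f _) {x} y ∧ evm t m ι y = z := by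
  classical
  let w : F Γ (Fin (m + 1) × ι) := fun q => z q.2 * single ((t ^ (q.1 : ℕ))⁻¹) 1
  have hw : ∀ (k : Fin (m + 1)) (i : ι) (g : Γ), (w (k, i)).coeff g = (z i).coeff (g * t ^ (k : ℕ)) := by
    intro k i g
    change (z i * single ((t ^ (k : ℕ))⁻¹) 1).coeff g = _
    rw [coeff_mul_single_apply, mul_one, inv_inv]
  refine ⟨pr (pz f _) {x} w, ⟨in_pr _ _ _, ?_⟩, ?_⟩
  · refine F_ext fun i g => ?_
    by_cases hg : co x ≤ (f g).toAdd ∧ (f g).toAdd ≤ co x + m
    · obtain ⟨k, hk⟩ : ∃ k : Fin (m + 1), (f g).toAdd = co x + (k : ℕ) := by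
        refine ⟨⟨((f g).toAdd - co x).toNat, by omega⟩, ?_⟩
        change (f g).toAdd = co x + (((f g).toAdd - co x).toNat : ℤ)
        omega
      rw [PGr.coeff_evm ht m (in_pr _ _ _) i k g hk, pr_coeff, if_pos, hw, inv_mul_cancel_right]
      change (g * (t ^ (k : ℕ))⁻¹) • pt f 0 = x
      rw [smul_pt, PGr.toAdd_mul_inv ht, hk]
      change co x + (k : ℕ) - (k : ℕ) + 0 = co x
      omega
    · have h1 : (z i).coeff g = 0 := by
        by_contra hne
        exact hg ((pt_mem_seg f _ _ _).1 (PGr.in_pz.1 hz i g hne))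
      rw [h1]
      by_contra hne
      exact hg ((pt_mem_seg f _ _ _).1
        (PGr.in_pz.1 (evm_in f t ht m x _ (in_pr _ _ w)) i g hne))
  · rintro y ⟨hy, hyz⟩
    refine F_ext fun q g => ?_
    obtain ⟨k, i⟩ := q
    rw [pr_coeff]
    by_cases hg : (f g).toAdd = co x
    · rw [if_pos, hw, ← hyz, PGr.coeff_evm ht m hy i k, mul_inv_cancel_right]
      · rw [PGr.toAdd_mul_pow ht, hg]
      · change g • pt f 0 = x
        rw [smul_pt, hg]
        change co x + 0 = co x
        omega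
    · rw [if_neg, PGr.coeff_eq_zero hy _ _ hg]
      intro h
      apply hg
      have h1 : g • pt f 0 = x := h
      rw [smul_pt] at h1
      have h2 : (f g).toAdd + 0 = co x := h1
      omega

end

namespace PGr

variable {Γ : Type u} [Group Γ] {ι : Type}

theorem asF_smul {κ : Type} {H : Subgroup Γ} (s : MonoidAlgebra ℤ H) (y : Vec H κ) :
    asF (s • y) = (inc ℤ H.subtype s : ZG Γ) • asF y := by
  funext i
  rw [Pi.smul_apply, smul_eq_mul]
  exact vec_smul_apply s y i

/-- The map `evm` between the vectors at the position `0` and the window. -/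
noncomputable def win (f : Γ →* Multiplicative ℤ) (t : Γ) (ht : f t = Multiplicative.ofAdd 1)
    (m : ℕ) (M : Submodule (ZG Γ) (F Γ ι)) :
    homIn (SB f t m M) (pz f _) (pt f 0) →ₗ[MonoidAlgebra ℤ (St f)] winSub f M 0 m where
  toFun y := ⟨evm t m ι (asF y.1), by
    obtain ⟨y, hy, hy'⟩ := y
    refine ⟨(evm_in f t ht m (pt f 0) y hy).mono fun x hx => ?_, ?_⟩
    · obtain ⟨h1, h2⟩ := hx
      have h3 : co (pt f 0) = 0 := rfl
      rw [h3] at h1 h2
      rw [zero_add] at h2
      exact ⟨h1, h2⟩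
    · have h1 := hy' (pt f 0)
      have h2 : pr (pz f _) {pt f 0} (y : F Γ (Fin (m + 1) × ι)) = y := hy
      rw [h2] at h1
      exact h1⟩
  map_add' y z := Subtype.ext (map_add (evm t m ι) (asF y.1) (asF z.1))
  map_smul' s y := by
    apply Subtype.ext
    change evm t m ι (asF (s • y.1)) =
      asF (@HSMul.hSMul (MonoidAlgebra ℤ (St f)) (Vec (St f) ι) (Vec (St f) ι) _ s
        (evm t m ι (asF y.1)))
    rw [asF_smul, map_smul]
    exact (asF_smul s (evm t m ι (asF y.1) : F Γ ι)).symm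

theorem win_bijective (f : Γ →* Multiplicative ℤ) (t : Γ) (ht : f t = Multiplicative.ofAdd 1)
    (m : ℕ) (M : Submodule (ZG Γ) (F Γ ι)) : Function.Bijective (win f t ht m M) := by
  constructor
  · intro y z h
    have h1 : evm t m ι (asF y.1) = evm t m ι (asF z.1) := congrArg Subtype.val h
    obtain ⟨w, _, hw⟩ := evm_bij f t ht m (pt f 0) (evm t m ι (asF z.1))
      (evm_in f t ht m (pt f 0) _ z.2.1)
    apply Subtype.ext
    exact (hw _ ⟨y.2.1, h1⟩).trans (hw _ ⟨z.2.1, rfl⟩).symm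
  · rintro ⟨z, hz, hz'⟩
    have hz0 : In (pz f ι) (seg f (co (pt f 0)) (co (pt f 0) + m)) (z : F Γ ι) := by
      refine In.mono hz fun x hx => ?_
      obtain ⟨h1, h2⟩ := hx
      have h3 : co (pt f 0) = 0 := rfl
      refine ⟨?_, ?_⟩
      · rw [h3]; exact h1
      · rw [h3, zero_add]; exact h2
    obtain ⟨y, ⟨hy, hyz⟩, _⟩ := evm_bij f t ht m (pt f 0) z hz0
    refine ⟨⟨y, hy, ?_⟩, Subtype.ext hyz⟩
    change ∀ x, evm t m ι (pr (pz f _) {x} y) ∈ M
    intro x
    by_cases hx : x = pt f 0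
    · rw [hx, hy.eq, hyz]
      exact hz'
    · rw [hy.pr_eq_zero (Set.disjoint_singleton.2 hx), map_zero]
      exact M.zero_mem

end PGr

/-- Module PGr. -/
theorem stPGr (h : StInd.{u, 0}) : StPGr.{u} := by
  intro Γ _ f t ht ι _ m d M hM
  have h1 : FFR (ZG Γ) d (SB f t m M ⧸
      (⊥ : Submodule (ZG Γ) (F Γ (Fin (m + 1) × ι))).submoduleOf (SB f t m M)) := by
    refine h Γ (Ln f) d (Fin (m + 1) × ι) (pz f _) ⊥ (SB f t m M) bot_le ?_ ?_ ?_
    · intro P y hy
      rw [Submodule.mem_bot] at hy ⊢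
      rw [hy, map_zero]
    · intro P y hy x
      rw [pr_pr]
      by_cases hx : x ∈ P
      · rw [Set.inter_eq_left.2 (Set.singleton_subset_iff.2 hx)]
        exact hy x
      · rw [Set.singleton_inter_eq_empty.2 hx, pr_empty, map_zero]
        exact M.zero_mem
    · intro i
      have e1 : homIn (SB f t m M) (pz f _) (pt f 0) ≃ₗ[MonoidAlgebra ℤ (St f)] winSub f M 0 m :=
        LinearEquiv.ofBijective (PGr.win f t ht m M) (PGr.win_bijective f t ht m M)
      have e2 : (homIn (⊥ : Submodule (ZG Γ) (F Γ (Fin (m + 1) × ι))) (pz f _) (pt f 0)).submoduleOf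
          (homIn (SB f t m M) (pz f _) (pt f 0)) = ⊥ := by
        rw [eq_bot_iff]
        rintro y ⟨_, hy⟩
        rw [Submodule.mem_bot]
        exact Subtype.ext hy
      change FFR (MonoidAlgebra ℤ (St f)) d (homIn (SB f t m M) (pz f _) (pt f 0) ⧸
        (homIn (⊥ : Submodule (ZG Γ) (F Γ (Fin (m + 1) × ι))) (pz f _) (pt f 0)).submoduleOf
          (homIn (SB f t m M) (pz f _) (pt f 0)))
      exact (hM.congr e1.symm).congr (Submodule.quotEquivOfEqBot _ e2).symm
  refine h1.congr (Submodule.quotEquivOfEqBot _ ?_)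
  rw [eq_bot_iff]
  rintro y hy
  rw [Submodule.mem_bot]
  exact Subtype.ext hy

end Pool.Agent.Lib.MP_551055_al.LS
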