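import Mathlib
import Pool.Agent.Lib.MP_551055_al.Trim.Descent
import Pool.Agent.Lib.MP_551055_al.Trim.LS.InSingle
import Pool.Agent.Lib.MP_551055_al.Trim.LS.Ind
import Pool.Agent.Lib.MP_551055_al.Trim.LS.PGr
import Pool.Agent.Lib.MP_551055_al.Trim.LS.PStmts
import Pool.Agent.Lib.MP_551055_al.Trim.LS.PStmts2
import Pool.Agent.Lib.MP_551055_al.Trim.LS.Pos
import Pool.Agent.Lib.MP_551055_al.Trim.LS.Stmts
import Pool.Agent.Lib.MP_551055_al.Trim.OneRelation
import Pool.Agent.Lib.MP_551055_al.Trim.Red.Orb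
import Pool.Agent.Lib.MP_551055_al.Trim.VNDefs

/-!
# Module PIndF: free resolutions over `ℤ[ker f]` give free resolutions over `ℤ[Γ]`
-/

set_option autoImplicit false

namespace Pool.Agent.Lib.MP_551055_al
end Pool.Agent.Lib.MP_551055_al

namespace Pool.Agent.Lib.MP_551055_al.Red
end Pool.Agent.Lib.MP_551055_al.Red

namespace Pool.Agent.Lib.MP_551055_al.LS

open Pool.Agent.Lib.MP_551055_al

open Pool.Agent.Lib.MP_551055_al.Red (Vec)

open MonoidAlgebra

universe u

namespace PIndF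

/-! ### Free resolutions -/

section Gen

variable {R : Type u} [Ring R]

theorem fff_congr {d : ℕ} {M N : Type u} [AddCommGroup M] [Module R M] [AddCommGroup N]
    [Module R N] (e : M ≃ₗ[R] N) (h : FFF R d M) : FFF R d N := by
  cases d with
  | zero =>
    obtain ⟨n, ⟨g⟩⟩ := h
    exact ⟨n, ⟨e.symm.trans g⟩⟩
  | succ d =>
    obtain ⟨n, f, hf, hk⟩ := h
    refine ⟨n, e.toLinearMap ∘ₗ f, e.surjective.comp hf, ?_⟩
    rw [LinearMap.ker_comp_of_ker_eq_bot f (LinearEquiv.ker e)]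
    exact hk

/-- Resolutions by projective modules give free resolutions if finitely generated projective
modules are stably free. -/
theorem fff_of_ffr (hR : ∀ (Q : Type u) [AddCommGroup Q] [Module R Q], Module.Finite R Q →
      Module.Projective R Q → StFree R Q)
    (h1 : ∀ (Q : Type u) [AddCommGroup Q] [Module R Q], StFree R Q → FFF R 1 Q) {d : ℕ} :
    ∀ {M : Type u} [AddCommGroup M] [Module R M], FFR R d M → FFF R (d + 1) M := by
  induction d with
  | zero =>
    intro M _ _ h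
    exact h1 M (hR M h.1 h.2)
  | succ d ih =>
    intro M _ _ h
    obtain ⟨n, f, hf, hk⟩ := h
    exact ⟨n, f, hf, ih hk⟩

end Gen

variable {Γ : Type u} [Group Γ] {κ : Type}

/-- The inclusion of the free module over the kernel. -/
noncomputable def iv (f : Γ →* Multiplicative ℤ) (n : ℕ) :
    (Fin n → MonoidAlgebra ℤ (St f)) →ₗ[MonoidAlgebra ℤ (St f)] Vec (St f) (Fin n) where
  toFun v := fun j => inc ℤ (St f).subtype (v j)
  map_add' v w := by
    funext j
    exact map_add (inc ℤ (St f).subtype) (v j) (w j)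
  map_smul' s v := by
    funext j
    exact map_mul (inc ℤ (St f).subtype) s (v j)

theorem iv_apply (f : Γ →* Multiplicative ℤ) (n : ℕ) (v : Fin n → MonoidAlgebra ℤ (St f))
    (j : Fin n) : asF (iv f n v) j = inc ℤ (St f).subtype (v j) := rfl

theorem sub_inj (f : Γ →* Multiplicative ℤ) : Function.Injective (St f).subtype :=
  Subtype.val_injective

theorem iv_injective (f : Γ →* Multiplicative ℤ) (n : ℕ) : Function.Injective (iv f n) := by
  intro v w h
  funext j
  exact inc_injective (St f).subtype (sub_inj f) (congrFun h j)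

theorem iv_in (f : Γ →* Multiplicative ℤ) (n : ℕ) (v : Fin n → MonoidAlgebra ℤ (St f)) :
    In (pz f (Fin n)) {pt f 0} (asF (iv f n v)) := by
  refine in_iff.2 fun j γ hne => ?_
  have h1 : γ ∈ St f := by
    by_contra hn
    apply hne
    apply inc_coeff_of_notMem
    rintro ⟨t, ht⟩
    exact hn (ht ▸ t.2)
  exact h1

theorem exists_iv (f : Γ →* Multiplicative ℤ) (n : ℕ) (y : F Γ (Fin n))
    (hy : In (pz f (Fin n)) {pt f 0} y) : ∃ v, asF (iv f n v) = y := by
  refine ⟨fun j => prj ℤ (St f).subtype (sub_inj f) (y j), ?_⟩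
  refine F_ext fun j γ => ?_
  rw [iv_apply]
  by_cases hγ : γ ∈ St f
  · have h1 := inc_coeff_apply (k := ℤ) (St f).subtype (sub_inj f)
      (prj ℤ (St f).subtype (sub_inj f) (y j)) ⟨γ, hγ⟩
    rw [prj_coeff] at h1
    exact h1
  · rw [inc_coeff_of_notMem]
    · by_contra hne
      exact hγ (in_iff.1 hy j γ (Ne.symm hne))
    · rintro ⟨t, ht⟩
      exact hγ (ht ▸ t.2)

section Main

variable {f : Γ →* Multiplicative ℤ} {B : Submodule (ZG Γ) (F Γ κ)} {n : ℕ}
  (g : (Fin n → MonoidAlgebra ℤ (St f)) →ₗ[MonoidAlgebra ℤ (St f)] homIn B (pz f κ) (pt f 0))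

/-- The images of the basis vectors. -/
noncomputable def bs (j : Fin n) : F Γ κ := asF (g (Pi.single j 1)).1

theorem bs_in (j : Fin n) : In (pz f κ) {pt f 0} (bs g j) := (g (Pi.single j 1)).2.1

theorem bs_mem (j : Fin n) : bs g j ∈ B := (g (Pi.single j 1)).2.2

theorem Psi_iv (v : Fin n → MonoidAlgebra ℤ (St f)) :
    Ind.Psi (bs g) (asF (iv f n v)) = asF (g v).1 := by
  have h1 : v = ∑ j, v j • (Pi.single j 1 : Fin n → MonoidAlgebra ℤ (St f)) := by
    conv_lhs => rw [← Finset.univ_sum_single v]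
    refine Finset.sum_congr rfl fun j _ => ?_
    rw [← Pi.single_smul', smul_eq_mul, mul_one]
  have h2 : g v = ∑ j, v j • g (Pi.single j 1) := by
    conv_lhs => rw [h1, map_sum]
    exact Finset.sum_congr rfl fun j _ => map_smul g _ _
  rw [h2, Ind.Psi, Fintype.linearCombination_apply]
  have h3 : ∀ s : Finset (Fin n),
      asF ((∑ j ∈ s, v j • g (Pi.single j 1) : homIn B (pz f κ) (pt f 0)) : Vec (St f) κ) =
        ∑ j ∈ s, asF (iv f n v) j • bs g j := by
    classical
    intro s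
    induction s using Finset.induction_on with
    | empty => rfl
    | insert a s ha ih =>
      rw [Finset.sum_insert ha, Finset.sum_insert ha, ← ih, iv_apply]
      have h4 := PGr.asF_smul (v a) (g (Pi.single a 1)).1
      change asF (v a • (g (Pi.single a 1)).1) + _ = _
      rw [h4]
      rfl
  exact (h3 Finset.univ).symm

theorem Psi_gr : Gr (pz f (Fin n)) (pz f κ) (Ind.Psi (bs g)) := by
  rw [gr_iff_tr]
  refine tr_of_basis (fun γ a b h => by rw [h]) fun c => ?_
  have h1 : Ind.Psi (bs g) (Pi.single c 1) = bs g c := Ind.Psi_single (bs g) c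
  have h2 := (bs_in g c).mono (Q := {b | pz f (Fin n) c = b})
    fun x hx => (Set.mem_singleton_iff.1 hx).symm
  rw [← h1] at h2
  rw [single_any _ (fun a b => Classical.propDecidable (a = b))] at h2
  exact h2

/-- The extension of `g`. -/
noncomputable def ex : F Γ (Fin n) →ₗ[ZG Γ] B :=
  LinearMap.codRestrict B (Ind.Psi (bs g)) (Ind.Psi_mem (bs_mem g))

theorem ex_coe (y : F Γ (Fin n)) : (ex g y : F Γ κ) = Ind.Psi (bs g) y := rfl

theorem ex_surj (hf : Function.Surjective f) [Finite κ] (hB : ∀ P, ∀ y ∈ B, pr (pz f κ) P y ∈ B)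
    (hg : Function.Surjective g) : Function.Surjective (ex g) := by
  have key : ∀ (x : Ln f) (y : F Γ κ), y ∈ B → In (pz f κ) {x} y →
      ∃ z : F Γ (Fin n), Ind.Psi (bs g) z = y := by
    intro x y hy hyx
    obtain ⟨γ, hγ⟩ := hf (Multiplicative.ofAdd (co x))
    have hx : γ • pt f 0 = x := by
      rw [smul_pt, hγ, toAdd_ofAdd, add_zero]
      rfl
    have hx' : γ⁻¹ • x = pt f 0 := by rw [← hx, inv_smul_smul]
    have h1 : In (pz f κ) {pt f 0} ((single γ⁻¹ 1 : ZG Γ) • y) := by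
      have := hyx.smul_singleton γ⁻¹ 1
      rwa [hx'] at this
    obtain ⟨v, hv⟩ := hg ⟨((single γ⁻¹ 1 : ZG Γ) • y : F Γ κ), h1, B.smul_mem _ hy⟩
    refine ⟨(single γ 1 : ZG Γ) • asF (iv f n v), ?_⟩
    rw [map_smul, Psi_iv, hv]
    exact Ind.smul_smul_inv γ y
  intro y
  obtain ⟨s, -, hs⟩ := exists_sum_pr (pz f κ) (y : F Γ κ)
  choose! z hz using fun x : Ln f => key x (pr (pz f κ) {x} (y : F Γ κ)) (hB _ _ y.2)
    (in_pr _ _ _)
  refine ⟨∑ x ∈ s, z x, Subtype.ext ?_⟩
  rw [ex_coe, map_sum, hs]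
  exact Finset.sum_congr rfl fun x _ => hz x

theorem ker_gr : ∀ P, ∀ y ∈ LinearMap.ker (Ind.Psi (bs g)), pr (pz f (Fin n)) P y ∈
    LinearMap.ker (Ind.Psi (bs g)) := by
  intro P y hy
  rw [LinearMap.mem_ker] at hy ⊢
  rw [Psi_gr g P y, hy, map_zero]

theorem ker_ex : LinearMap.ker (ex g) = LinearMap.ker (Ind.Psi (bs g)) :=
  LinearMap.ker_codRestrict _ _ _

/-- The homogeneous part of the kernel. -/
theorem ker_equiv : Nonempty (LinearMap.ker g ≃ₗ[MonoidAlgebra ℤ (St f)]
    homIn (LinearMap.ker (Ind.Psi (bs g))) (pz f (Fin n)) (pt f 0)) := by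
  let e : LinearMap.ker g →ₗ[MonoidAlgebra ℤ (St f)]
      homIn (LinearMap.ker (Ind.Psi (bs g))) (pz f (Fin n)) (pt f 0) :=
    LinearMap.codRestrict _ ((iv f n).domRestrict (LinearMap.ker g))
      fun v => ⟨iv_in f n v.1, by
        have h1 := Psi_iv g v.1
        rw [LinearMap.mem_ker.1 v.2] at h1
        exact h1⟩
  refine ⟨LinearEquiv.ofBijective e ⟨?_, ?_⟩⟩
  · intro v w h
    exact Subtype.ext (iv_injective f n (congrArg Subtype.val h))
  · intro y
    obtain ⟨v, hv⟩ := exists_iv f n (asF y.1) y.2.1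
    have h1 : v ∈ LinearMap.ker g := by
      rw [LinearMap.mem_ker]
      apply Subtype.ext
      have h2 := Psi_iv g v
      rw [hv] at h2
      exact h2.symm.trans y.2.2
    exact ⟨⟨v, h1⟩, Subtype.ext hv⟩

end Main

/-- A graded module without vectors at the position `0` is trivial. -/
theorem eq_zero_of_homIn {f : Γ →* Multiplicative ℤ} (hf : Function.Surjective f) [Finite κ]
    {B : Submodule (ZG Γ) (F Γ κ)} (hB : ∀ P, ∀ y ∈ B, pr (pz f κ) P y ∈ B)
    (h0 : ∀ y : homIn B (pz f κ) (pt f 0), y = 0) : ∀ y ∈ B, y = 0 := by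
  intro y hy
  apply eq_zero_of_pr (p := pz f κ)
  intro x
  obtain ⟨γ, hγ⟩ := hf (Multiplicative.ofAdd (co x))
  have hx : γ • pt f 0 = x := by
    rw [smul_pt, hγ, toAdd_ofAdd, add_zero]
    rfl
  have hx' : γ⁻¹ • x = pt f 0 := by rw [← hx, inv_smul_smul]
  have h1 : In (pz f κ) {pt f 0} ((single γ⁻¹ 1 : ZG Γ) • pr (pz f κ) {x} y) := by
    have := (in_pr (pz f κ) {x} y).smul_singleton γ⁻¹ 1
    rwa [hx'] at this
  have h2 : (single γ⁻¹ 1 : ZG Γ) • pr (pz f κ) {x} y = 0 :=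
    congrArg Subtype.val (h0 ⟨((single γ⁻¹ 1 : ZG Γ) • pr (pz f κ) {x} y : F Γ κ), h1,
      B.smul_mem _ (hB _ _ hy)⟩)
  have h3 := Ind.smul_smul_inv γ (pr (pz f κ) {x} y)
  rw [h2, smul_zero] at h3
  exact h3.symm

/-- Free resolutions of the homogeneous part give free resolutions. -/
theorem fff_ind {f : Γ →* Multiplicative ℤ} (hf : Function.Surjective f) (d : ℕ) :
    ∀ (κ : Type) [Finite κ] (B : Submodule (ZG Γ) (F Γ κ)),
      (∀ P, ∀ y ∈ B, pr (pz f κ) P y ∈ B) →
      FFF (MonoidAlgebra ℤ (St f)) d (homIn B (pz f κ) (pt f 0)) → FFF (ZG Γ) d B := by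
  induction d with
  | zero =>
    intro κ _ B hB h
    obtain ⟨n, ⟨e⟩⟩ := h
    refine ⟨n, ⟨(LinearEquiv.ofBijective (ex e.symm.toLinearMap) ⟨?_, ?_⟩).symm⟩⟩
    · rw [← LinearMap.ker_eq_bot, ker_ex, eq_bot_iff]
      intro y hy
      rw [Submodule.mem_bot]
      refine eq_zero_of_homIn hf (ker_gr e.symm.toLinearMap) (fun z => ?_) y hy
      obtain ⟨e'⟩ := ker_equiv (g := e.symm.toLinearMap)
      have h1 : e'.symm z = 0 := by
        apply Subtype.ext
        have h2 := LinearMap.mem_ker.1 (e'.symm z).2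
        exact (LinearEquiv.map_eq_zero_iff e.symm).1 h2
      exact (LinearEquiv.map_eq_zero_iff e'.symm).1 h1
    · exact ex_surj e.symm.toLinearMap hf hB e.symm.surjective
  | succ d ih =>
    intro κ _ B hB h
    obtain ⟨n, g, hg, hk⟩ := h
    refine ⟨n, ex g, ex_surj g hf hB hg, ?_⟩
    rw [ker_ex]
    obtain ⟨e'⟩ := ker_equiv g
    exact ih (Fin n) (LinearMap.ker (Ind.Psi (bs g))) (ker_gr g) (fff_congr e' hk)

end PIndF

/-- Module PIndF. -/
theorem stPIndF (h : StPFreeProj.{u}) : StPIndF.{u} := by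
  intro Γ _ f hf hH κ _ B hB d hd
  refine PIndF.fff_ind hf (d + 1) κ B hB (PIndF.fff_of_ffr ?_ ?_ hd)
  · intro Q _ _ h1 h2
    exact hH Q h1 h2
  · intro Q _ _ h1
    exact (h (MonoidAlgebra ℤ (St f)) Q).2 h1

end Pool.Agent.Lib.MP_551055_al.LS
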