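import Mathlib
import Pool.Agent.Lib.MP_551055_al.Trim.LS.FFR
import Pool.Agent.Lib.MP_551055_al.Trim.LS.PStmts
import Pool.Agent.Lib.MP_551055_al.Trim.LS.Pos
import Pool.Agent.Lib.MP_551055_al.Trim.LS.Stmts
import Pool.Agent.Lib.MP_551055_al.Trim.Red.Orb

/-!
# Module PReg: extensions by `ℤ` preserve regular noetherian group rings
-/

set_option autoImplicit false

namespace Pool.Agent.Lib.MP_551055_al
end Pool.Agent.Lib.MP_551055_al

namespace Pool.Agent.Lib.MP_551055_al.Red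
end Pool.Agent.Lib.MP_551055_al.Red

namespace Pool.Agent.Lib.MP_551055_al.LS

open Pool.Agent.Lib.MP_551055_al

open Pool.Agent.Lib.MP_551055_al.Red (Vec)

universe u

/-- The windows of a submodule are finitely generated if the group ring of the kernel is
noetherian. -/
theorem winSub_finite (h1 : StPWin.{u}) {Γ : Type u} [Group Γ] (f : Γ →* Multiplicative ℤ)
    (hf : Function.Surjective f) (hN : IsNoetherianRing (MonoidAlgebra ℤ (St f))) {ι : Type}
    [Finite ι] (M : Submodule (ZG Γ) (F Γ ι)) (a b : ℤ) :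
    Module.Finite (MonoidAlgebra ℤ (St f)) (winSub f M a b) := by
  have h2 := h1 Γ f hf ι a b
  have h3 : IsNoetherian (MonoidAlgebra ℤ (St f))
      (winSub f (⊤ : Submodule (ZG Γ) (F Γ ι)) a b) := isNoetherian_of_isNoetherianRing_of_finite _ _
  have hle : winSub f M a b ≤ winSub f (⊤ : Submodule (ZG Γ) (F Γ ι)) a b :=
    fun y hy => ⟨hy.1, trivial⟩
  exact Module.Finite.of_injective (Submodule.inclusion hle) (Submodule.inclusion_injective hle)

theorem stPReg (h1 : StPWin.{u}) (h2 : StPNoeth.{u}) (h3 : StPSes.{u}) (h4 : StPGr.{u})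
    (h5 : StPExact.{u}) : StPReg.{u} := by
  intro Γ _ f hf hR
  obtain ⟨hN, hres⟩ := hR
  obtain ⟨hS, hgen⟩ := h2 Γ f hf hN
  obtain ⟨t, ht⟩ := hf (Multiplicative.ofAdd 1)
  refine ⟨hS, ?_⟩
  intro X _ _ hX
  obtain ⟨r, p, hp⟩ := Module.Finite.exists_fin' (ZG Γ) X
  let M : Submodule (ZG Γ) (F Γ (Fin r)) := LinearMap.ker p
  obtain ⟨k, hk⟩ := hgen (Fin r) M
  obtain ⟨θ, e, hθ, hex, hr⟩ := h5 Γ f t ht (Fin r) k M
  have he : Function.Surjective e := by
    intro y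
    have hle : Submodule.span (ZG Γ) {z : F Γ (Fin r) | z ∈ M ∧ In (pz f (Fin r)) (seg f 0 k) z}
        ≤ (LinearMap.range e).map M.subtype := by
      refine Submodule.span_le.2 ?_
      rintro z ⟨hzM, hz⟩
      refine ⟨⟨z, hzM⟩, hr ⟨z, hzM⟩ (hz.mono fun x hx => ?_), rfl⟩
      obtain ⟨hx1, hx2⟩ := hx
      exact ⟨hx1, by omega⟩
    obtain ⟨y', hy', hyy⟩ := hle (hk y y.2)
    have h6 : y' = y := Subtype.ext hyy
    rw [← h6]
    exact hy'
  obtain ⟨d0, hd0⟩ := hres (winSub f M 0 (k : ℤ)) (winSub_finite h1 f hf hN M 0 k)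
  obtain ⟨d1, hd1⟩ := hres (winSub f M 0 ((k + 1 : ℕ) : ℤ))
    (winSub_finite h1 f hf hN M 0 ((k + 1 : ℕ) : ℤ))
  have g0 := h4 Γ f t ht (Fin r) k (max d0 d1) M (hd0.mono (le_max_left _ _))
  have g1 := h4 Γ f t ht (Fin r) (k + 1) (max d0 d1) M (hd1.mono (le_max_right _ _))
  have g : FFR (ZG Γ) (max d0 d1 + 1) M := h3 (ZG Γ) (max d0 d1) _ _ _ θ e hθ he hex g0 g1
  exact ⟨max d0 d1 + 1 + 1, r, p, hp, g⟩

end Pool.Agent.Lib.MP_551055_al.LS
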