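import Mathlib
import Pool.Agent.Lib.MP_551055_al.Trim.LS.PStmts
import Pool.Agent.Lib.MP_551055_al.Trim.LS.Pos
import Pool.Agent.Lib.MP_551055_al.Trim.Red.Orb
import Pool.Agent.Lib.MP_551055_al.Trim.Red.Res

/-!
# The windows of a finite free module are finitely generated over the group ring of the kernel
-/

set_option autoImplicit false

namespace Pool.Agent.Lib.MP_551055_al
end Pool.Agent.Lib.MP_551055_al

namespace Pool.Agent.Lib.MP_551055_al.Red
end Pool.Agent.Lib.MP_551055_al.Red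

namespace Pool.Agent.Lib.MP_551055_al.LS

open Pool.Agent.Lib.MP_551055_al

open Pool.Agent.Lib.MP_551055_al.Red (Vec LInv OrbFin supSub free_orb mem_supSub)

universe u

variable {Γ : Type u} [Group Γ]

/-- The elements of `Γ` of degree in `[a, b]`. -/
def win (f : Γ →* Multiplicative ℤ) (a b : ℤ) : Set Γ :=
  {g | a ≤ (f g).toAdd ∧ (f g).toAdd ≤ b}

theorem win_linv (f : Γ →* Multiplicative ℤ) (a b : ℤ) : LInv (St f) (win f a b) := by
  intro h hh g hg
  have h0 : (f h).toAdd = 0 := (mem_stab f 0 h).1 hh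
  change a ≤ (f (h * g)).toAdd ∧ (f (h * g)).toAdd ≤ b
  rw [map_mul, toAdd_mul, h0, zero_add]
  exact hg

theorem win_orbFin (f : Γ →* Multiplicative ℤ) (hf : Function.Surjective f) (a b : ℤ) :
    OrbFin (St f) (win f a b) := by
  classical
  obtain ⟨t, ht⟩ := hf (Multiplicative.ofAdd 1)
  refine ⟨(Finset.Icc a b).image fun j : ℤ => t ^ j, fun g hg => ⟨t ^ (f g).toAdd, ?_, ?_⟩⟩
  · exact Finset.mem_image_of_mem _ (Finset.mem_Icc.2 hg)
  · rw [mem_stab, map_mul, map_inv, map_zpow, ht, toAdd_mul, toAdd_inv, toAdd_zpow, toAdd_ofAdd,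
      smul_eq_mul, mul_one, add_neg_cancel]

theorem in_seg_iff {f : Γ →* Multiplicative ℤ} {ι : Type} {a b : ℤ} {y : F Γ ι} :
    In (pz f ι) (seg f a b) y ↔ ∀ i g, (y i).coeff g ≠ 0 → g ∈ win f a b := by
  rw [in_iff]
  refine forall_congr' fun i => forall_congr' fun g => imp_congr_right fun _ => ?_
  change g • pt f 0 ∈ seg f a b ↔ _
  rw [smul_pt, add_zero, pt_mem_seg]
  exact Iff.rfl

theorem winSub_top (f : Γ →* Multiplicative ℤ) (ι : Type) (a b : ℤ) :
    winSub f (⊤ : Submodule (ZG Γ) (F Γ ι)) a b = supSub (St f) ι (win f a b) (win_linv f a b) := by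
  ext y
  rw [mem_winSub, mem_supSub, in_seg_iff]
  exact ⟨fun h => h.1, fun h => ⟨h, trivial⟩⟩

theorem stPWin : StPWin.{u} := by
  intro Γ _ f hf ι _ a b
  have := Fintype.ofFinite ι
  obtain ⟨N, ⟨e⟩⟩ := free_orb (κ := ι) (St f) (win f a b) (win_linv f a b) (win_orbFin f hf a b)
  rw [winSub_top]
  exact Module.Finite.equiv e.symm

end Pool.Agent.Lib.MP_551055_al.LS
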