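import Mathlib
import Pool.Agent.Lib.MP_551055_al.Trim.LS.Adapt
import Pool.Agent.Lib.MP_551055_al.Trim.LS.Coh
import Pool.Agent.Lib.MP_551055_al.Trim.LS.Cut
import Pool.Agent.Lib.MP_551055_al.Trim.LS.Dev
import Pool.Agent.Lib.MP_551055_al.Trim.LS.Fil
import Pool.Agent.Lib.MP_551055_al.Trim.LS.Ind
import Pool.Agent.Lib.MP_551055_al.Trim.LS.K1a
import Pool.Agent.Lib.MP_551055_al.Trim.LS.K1c
import Pool.Agent.Lib.MP_551055_al.Trim.LS.K1d
import Pool.Agent.Lib.MP_551055_al.Trim.LS.K1e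
import Pool.Agent.Lib.MP_551055_al.Trim.LS.NF
import Pool.Agent.Lib.MP_551055_al.Trim.LS.Nil
import Pool.Agent.Lib.MP_551055_al.Trim.LS.PExact
import Pool.Agent.Lib.MP_551055_al.Trim.LS.PExt
import Pool.Agent.Lib.MP_551055_al.Trim.LS.PFin
import Pool.Agent.Lib.MP_551055_al.Trim.LS.PFree
import Pool.Agent.Lib.MP_551055_al.Trim.LS.PGr
import Pool.Agent.Lib.MP_551055_al.Trim.LS.PIndF
import Pool.Agent.Lib.MP_551055_al.Trim.LS.PK0
import Pool.Agent.Lib.MP_551055_al.Trim.LS.PNoeth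
import Pool.Agent.Lib.MP_551055_al.Trim.LS.PPoly
import Pool.Agent.Lib.MP_551055_al.Trim.LS.PReg
import Pool.Agent.Lib.MP_551055_al.Trim.LS.PSes
import Pool.Agent.Lib.MP_551055_al.Trim.LS.PStmts
import Pool.Agent.Lib.MP_551055_al.Trim.LS.PStmts2
import Pool.Agent.Lib.MP_551055_al.Trim.LS.PWin
import Pool.Agent.Lib.MP_551055_al.Trim.LS.Split
import Pool.Agent.Lib.MP_551055_al.Trim.LS.Stmts
import Pool.Agent.Lib.MP_551055_al.Trim.LS.TreeA
import Pool.Agent.Lib.MP_551055_al.Trim.LS.VecFree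

/-!
# LS: the assembled theorems
-/

universe u v

namespace Pool.Agent.Lib.MP_551055_al.LS

theorem lsNil : StNil.{u, v} :=
  stNil stFil stCoh stInd
    (stDev (stSES stConj (stGAInd stConj)) (stGAFree stConj) stUnip)
    stVecFree stHomFree (stGAFree stConj)

theorem lsAdapt : StAdapt.{u, v} :=
  stAdapt (stSplit stTreeA (stCut stTreeA)) stNF

theorem lsPReg : StPReg.{u} :=
  stPReg stPWin (stPNoeth stPWin) (stPSes stPExt) (stPGr stInd) stPExact

theorem lsPFin : StPFin := stPFin lsPReg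

theorem lsPPoly : StPPoly :=
  stPPoly (stPK0 stPWin (stPNoeth stPWin) stPFreeSes stPFreeProj (stPIndF stPFreeProj) stPExact) lsPFin

end Pool.Agent.Lib.MP_551055_al.LS
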