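import Mathlib
import Pool.Agent.Lib.MP_551055_al.Trim.Descent
import Pool.Agent.Lib.MP_551055_al.Trim.LS.Pos
import Pool.Agent.Lib.MP_551055_al.Trim.LS.Stmts

/-!
# Long segments: reduction to subgroups generated by a stabiliser and one element
-/

set_option autoImplicit false

namespace Pool.Agent.Lib.MP_551055_al
end Pool.Agent.Lib.MP_551055_al

namespace Pool.Agent.Lib.MP_551055_al.LS

open Pool.Agent.Lib.MP_551055_al

universe u v w

/-- `K` contains all isomorphisms defined over `ℤ[E]`. -/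
def SGood {Γ : Type u} [Group Γ] (K : K1C (ZG Γ)) (E : Subgroup Γ) : Prop :=
  ∀ (ι κ : Type) [Fintype ι] [Fintype κ] [DecidableEq ι] [DecidableEq κ]
    (A : Matrix ι κ (MonoidAlgebra ℤ E)) (B : Matrix κ ι (MonoidAlgebra ℤ E)),
    A * B = 1 → B * A = 1 → K.G (Matrix.toLinearMapRight' (A.map (inc ℤ E.subtype)))

/-- `K` contains the multiplications of the coordinates by group elements from the right. -/
def MGood {Γ : Type u} [Group Γ] (K : K1C (ZG Γ)) : Prop :=
  ∀ (ι : Type) [Finite ι] (g : ι → Γ) (Φ : F Γ ι →ₗ[ZG Γ] F Γ ι),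
    (∀ y i, Φ y i = y i * MonoidAlgebra.single (g i) 1) → K.G Φ

/-- The matrix `B` has degree `j`: it moves the position `x` to positions `z` with `itr r j x z`. -/
def Dg {Γ : Type u} [Group Γ] {X : Type v} [MulAction Γ X] (r : X → X → Prop) (j : ℕ) {ι : Type}
    (p : ι → X) (B : Matrix ι ι (ZG Γ)) : Prop :=
  ∀ (i l : ι) (γ : Γ), (B i l).coeff γ ≠ 0 → itr r j (p i) (γ • p l)

/-- The matrix `B` is supported on the orbit of the pair `(x, z)`. -/
def OrbS {Γ : Type u} [Group Γ] {X : Type v} [MulAction Γ X] {ι : Type}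
    (p : ι → X) (B : Matrix ι ι (ZG Γ)) (x z : X) : Prop :=
  ∀ (i l : ι) (γ : Γ), (B i l).coeff γ ≠ 0 → ∃ h : Γ, p i = h • x ∧ γ • p l = h • z

/-- Module Elim. The elimination: it suffices to treat matrices supported on one orbit of pairs. -/
def StElim : Prop :=
  ∀ (Γ : Type u) [Group Γ] (K : K1C (ZG Γ)) (X : Type v) [MulAction Γ X] (r : X → X → Prop),
    UR (Γ := Γ) r → ∀ (ι : Type) [Fintype ι] [DecidableEq ι] (p : ι → X)
      (A : Matrix ι ι (ZG Γ)) (k : ℕ), A ^ k = 0 → Dg r 1 p A →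
      (∀ (j : ℕ) (B : Matrix ι ι (ZG Γ)), 1 ≤ j → B ^ k = 0 → Dg r j p B →
        ∀ x z : X, OrbS p B x z → K.G (Matrix.toLinearMapRight' (1 + B))) →
      K.G (Matrix.toLinearMapRight' (1 + A))

/-- `γ` translates the segment from `u` to `v` along itself in the direction of `v`. -/
def Trl {Γ : Type u} [Group Γ] {V : Type v} [MulAction Γ V] (T : SimpleGraph V) (γ : Γ)
    (u v : V) : Prop :=
  γ • v ≠ v ∧ T.dist u (γ • v) = T.dist u v + T.dist v (γ • v) ∧
    T.dist u (γ • v) = T.dist u (γ • u) + T.dist (γ • u) (γ • v)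

/-- The set `S` of segments is closed under prolongation at the end and every infinite reduced ray
has an initial segment in `S`. -/
structure Bar {V : Type v} (T : SimpleGraph V) (S : V → V → Prop) : Prop where
  pro : ∀ u v w, S u v → T.Adj v w → T.dist u w = T.dist u v + 1 → S u w
  ray : ∀ x : ℕ → V, (∀ n, T.Adj (x n) (x (n + 1))) → (∀ n, x n ≠ x (n + 2)) →
    ∃ n, 1 ≤ n ∧ S (x 0) (x n)

end Pool.Agent.Lib.MP_551055_al.LS
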