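import Mathlib
import Pool.Agent.Lib.MP_551055_al.Trim.LS.Final
import Pool.Agent.Lib.MP_551055_al.Trim.LS.PStmts
import Pool.Agent.Lib.MP_551055_al.Trim.LS.Stmts
import Pool.Agent.Lib.MP_551055_al.Trim.LS.Stmts2
import Pool.Agent.Lib.MP_551055_al.Trim.Red.Defs
import Pool.Agent.Lib.MP_551055_al.Trim.VNDefs

/-!
# Long segments: the closure theorem
-/

set_option autoImplicit false

namespace Pool.Agent.Lib.MP_551055_al
end Pool.Agent.Lib.MP_551055_al

namespace Pool.Agent.Lib.MP_551055_al.Red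
end Pool.Agent.Lib.MP_551055_al.Red

namespace Pool.Agent.Lib.MP_551055_al.LS

open Pool.Agent.Lib.MP_551055_al

open Pool.Agent.Lib.MP_551055_al.Red (Img)

/-- `D` is poly-`ℤ`, or all group rings `ℤ[D × ℤ^m]` are regular coherent. -/
def Small (D : Type) [Group D] : Prop :=
  PolyZ D ∨ ∀ m : ℕ, RegCoh (MonoidAlgebra ℤ (D × ZN m))

theorem Small.regCoh (hP : StPFin) {D : Type} [Group D] (h : Small D) (m : ℕ) :
    RegCoh (MonoidAlgebra ℤ (D × ZN m)) := by
  rcases h with h | h
  · intro M _ _ hM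
    exact (hP D h m).2 M inferInstance
  · exact h m

/-- `ℤ^n × ℤ = ℤ^(n+1)`. -/
def znSucc (D : Type) [Group D] (n : ℕ) : (D × ZN n) × Multiplicative ℤ ≃* D × ZN (n + 1) where
  toFun x := (x.1.1, Multiplicative.ofAdd (Fin.snoc (α := fun _ => ℤ) x.1.2.toAdd x.2.toAdd))
  invFun y := ((y.1, Multiplicative.ofAdd fun i => y.2.toAdd i.castSucc),
    Multiplicative.ofAdd (y.2.toAdd (Fin.last n)))
  left_inv x := by
    refine Prod.ext (Prod.ext rfl ?_) ?_
    · change Multiplicative.ofAdd (fun i : Fin n =>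
        Fin.snoc (α := fun _ => ℤ) x.1.2.toAdd x.2.toAdd i.castSucc) = x.1.2
      simp only [Fin.snoc_castSucc]
      rfl
    · change Multiplicative.ofAdd (Fin.snoc (α := fun _ => ℤ) x.1.2.toAdd x.2.toAdd (Fin.last n)) = x.2
      rw [Fin.snoc_last]
      rfl
  right_inv y := by
    refine Prod.ext rfl ?_
    change Multiplicative.ofAdd (Fin.snoc (α := fun _ => ℤ) (fun i : Fin n => y.2.toAdd i.castSucc)
      (y.2.toAdd (Fin.last n))) = y.2
    have h := Fin.snoc_init_self (α := fun _ => ℤ) y.2.toAdd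
    exact congrArg Multiplicative.ofAdd h
  map_mul' x y := by
    refine Prod.ext rfl ?_
    change Multiplicative.ofAdd (Fin.snoc (α := fun _ => ℤ) (x.1.2.toAdd + y.1.2.toAdd)
      (x.2.toAdd + y.2.toAdd)) = Multiplicative.ofAdd
      (Fin.snoc (α := fun _ => ℤ) x.1.2.toAdd x.2.toAdd + Fin.snoc (α := fun _ => ℤ) y.1.2.toAdd y.2.toAdd)
    congr 1
    funext i
    refine Fin.lastCases ?_ (fun j => ?_) i
    · simp
    · simp

/-- The closure theorem. -/
theorem closure_trees (hF : StFinalR.{0, 0}) (hP : StPFin) (n : ℕ) (G : Type) [Group G] (V : Type)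
    [MulAction G V] (T : SimpleGraph V) (hT : TreeAct G V T)
    (hv : ∀ v : V, VN.ProjStFree (MulAction.stabilizer G v × ZN n))
    (he : ∀ u v, T.Adj u v → VN.ProjStFree (MulAction.stabilizer G (u, v) × ZN (n + 1)))
    (hx : ∀ x : ℕ → V, (∀ k, T.Adj (x k) (x (k + 1))) → (∀ k, x k ≠ x (k + 2)) →
      ∃ k, 1 ≤ k ∧ Small (MulAction.stabilizer G (x 0, x k))) :
    VN.ProjStFree (G × ZN n) := by
  let _ : MulAction (G × ZN n) V := MulAction.compHom V (MonoidHom.fst G (ZN n))
  have hsmul : ∀ (γ : G × ZN n) (x : V), γ • x = γ.1 • x := fun _ _ => rfl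
  have hT' : TreeAct (G × ZN n) V T :=
    { tree := hT.tree
      adj := fun γ a b hab => hT.adj γ.1 a b hab
      inv := fun γ a b hab h => hT.inv γ.1 a b hab h }
  -- stabilisers
  have hst1 : ∀ a : V, Nonempty (MulAction.stabilizer G a × ZN n ≃*
      MulAction.stabilizer (G × ZN n) a) := by
    intro a
    exact ⟨{ toFun := fun γ => ⟨(γ.1.1, γ.2), γ.1.2⟩
             invFun := fun γ => (⟨γ.1.1, γ.2⟩, γ.1.2)
             left_inv := fun _ => rfl
             right_inv := fun _ => rfl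
             map_mul' := fun _ _ => rfl }⟩
  have hst2 : ∀ a : V × V, Nonempty (MulAction.stabilizer G a × ZN n ≃*
      MulAction.stabilizer (G × ZN n) a) := by
    intro a
    exact ⟨{ toFun := fun γ => ⟨(γ.1.1, γ.2), γ.1.2⟩
             invFun := fun γ => (⟨γ.1.1, γ.2⟩, γ.1.2)
             left_inv := fun _ => rfl
             right_inv := fun _ => rfl
             map_mul' := fun _ _ => rfl }⟩
  have hst3 : ∀ a : V × V, Nonempty (MulAction.stabilizer G a × ZN (n + 1) ≃*
      MulAction.stabilizer (G × ZN n) a × Multiplicative ℤ) := by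
    intro a
    obtain ⟨e⟩ := hst2 a
    exact ⟨(znSucc (MulAction.stabilizer G a) n).symm.trans
      (MulEquiv.prodCongr e (MulEquiv.refl (Multiplicative ℤ)))⟩
  refine hF (G × ZN n) V T hT' (fun v => ?_) (fun u v huv => ?_) (fun x hx1 hx2 => ?_)
  · obtain ⟨e⟩ := hst1 v
    exact projStFree_congr e (hv v)
  · obtain ⟨e⟩ := hst3 (u, v)
    exact projStFree_congr e (he u v huv)
  · obtain ⟨k, hk, h⟩ := hx x hx1 hx2
    refine ⟨k, hk, ?_⟩
    have hsw : MulAction.stabilizer G (x 0, x k) = MulAction.stabilizer G (x k, x 0) := by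
      ext γ
      rw [MulAction.mem_stabilizer_iff, MulAction.mem_stabilizer_iff]
      constructor
      · intro h
        exact Prod.ext (congrArg Prod.snd h) (congrArg Prod.fst h)
      · intro h
        exact Prod.ext (congrArg Prod.snd h) (congrArg Prod.fst h)
    have h1 := h.regCoh hP (n + 1)
    rw [hsw] at h1
    obtain ⟨e⟩ := hst3 (x k, x 0)
    exact RegCoh.congr (MonoidAlgebra.mapDomainRingEquiv ℤ e) h1

end Pool.Agent.Lib.MP_551055_al.LS
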