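import Mathlib
import Pool.Agent.Lib.MP_551055_al.Trim.LS.Pos
import Pool.Agent.Lib.MP_551055_al.Trim.LS.Stmts
import Pool.Agent.Lib.MP_551055_al.Trim.Red.Defs
import Pool.Agent.Lib.MP_551055_al.Trim.VNDefs

/-!
# Module FinalE: the final assembly, version with subgroups generated by a stabiliser and one element
-/

set_option autoImplicit false

namespace Pool.Agent.Lib.MP_551055_al
end Pool.Agent.Lib.MP_551055_al

namespace Pool.Agent.Lib.MP_551055_al.Red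
end Pool.Agent.Lib.MP_551055_al.Red

namespace Pool.Agent.Lib.MP_551055_al.LS

open Pool.Agent.Lib.MP_551055_al

open Pool.Agent.Lib.MP_551055_al.Red (Img)

universe u v

theorem mainK1N (hTreeC : StTreeC.{u, v}) (hKI : StKI.{u, v})
    (hTheta : StTheta.{u, v}) (hAdapt : StAdapt.{u, v}) (hInit : StInit.{u, v})
    (Γ : Type u) [Group Γ] (V : Type v) [MulAction Γ V] (T : SimpleGraph V) (hT : TreeAct Γ V T)
    (hP : ∀ u v, T.Adj u v → VN.ProjStFree (MulAction.stabilizer Γ (u, v)))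
    (K : K1C (ZG Γ)) (hV : VGood K V) (hN : NilGood K T 1)
    (n : ℕ) (α : F Γ (Fin n) →ₗ[ZG Γ] F Γ (Fin n)) (hα : Function.Bijective α) : K.G α := by
  obtain ⟨_, O, hO, hO'⟩ := hTreeC Γ V T hT
  obtain ⟨s, hs, hsα⟩ := hInit Γ V T hT O hO' K n α hα
  obtain ⟨s', hs', hss'⟩ := hAdapt Γ V T hT hP O hO hO' K hV s hs
  obtain ⟨ψ, ω, hψ, hΦ, hω, htr⟩ := hTheta Γ V T hT s' hs'
  apply hsα
  apply hss'
  rw [hΦ]
  have h1 : K.G ((1 : Module.End (ZG Γ) (F Γ (s'.K ⊕ s'.I))) + ω) :=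
    hKI Γ V T hT K hN s'.K s'.I s'.f s'.v ω s'.adj hω htr
  have h2 : K.G ψ.toLinearMap := hV _ _ _ _ ψ.toLinearMap hψ ψ.bijective
  exact K.comp _ _ h1 h2

end Pool.Agent.Lib.MP_551055_al.LS
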