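import Mathlib
import Pool.Agent.Lib.MP_551055_al.Trim.Descent
import Pool.Agent.Lib.MP_551055_al.Trim.LS.InSingle
import Pool.Agent.Lib.MP_551055_al.Trim.LS.Pos
import Pool.Agent.Lib.MP_551055_al.Trim.LS.Stmts
import Pool.Agent.Lib.MP_551055_al.Trim.Red.Res

/-!
# Long segments, module Graded

A class which contains the monomial maps and the maps defined over the group rings of the
stabilisers of vertices contains all maps which preserve positions at vertices.
-/

set_option autoImplicit false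

namespace Pool.Agent.Lib.MP_551055_al
end Pool.Agent.Lib.MP_551055_al

namespace Pool.Agent.Lib.MP_551055_al.LS

open Pool.Agent.Lib.MP_551055_al

open MonoidAlgebra

universe u v

section Graded

variable {Γ : Type u} [Group Γ] {V : Type v} [MulAction Γ V]

/-! ## Maps with all positions at one vertex -/

/-- A map which preserves positions, all of them at `r`, is defined over the stabiliser. -/
theorem graded_matrix {ι κ : Type} [Fintype ι] [DecidableEq ι] (r : V) (p : ι → V) (q : κ → V)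
    (hp : ∀ i, p i = r) (hq : ∀ j, q j = r) (f : F Γ ι →ₗ[ZG Γ] F Γ κ) (hf : Gr p q f) :
    ∃ A : Matrix ι κ (MonoidAlgebra ℤ (MulAction.stabilizer Γ r)),
      LinearMap.toMatrixRight' f = A.map (inc ℤ (MulAction.stabilizer Γ r).subtype) := by
  classical
  have hi : Function.Injective (MulAction.stabilizer Γ r).subtype := Subtype.val_injective
  refine ⟨Matrix.of fun i j => prj ℤ (MulAction.stabilizer Γ r).subtype hi
    (f (Pi.single i 1) j), ?_⟩
  refine Matrix.ext fun i j => ?_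
  change f (Pi.single i 1) j = inc ℤ (MulAction.stabilizer Γ r).subtype
    (prj ℤ (MulAction.stabilizer Γ r).subtype hi (f (Pi.single i 1) j))
  ext g
  by_cases hg : g ∈ MulAction.stabilizer Γ r
  · have h1 := inc_coeff_apply (MulAction.stabilizer Γ r).subtype hi
      (prj ℤ (MulAction.stabilizer Γ r).subtype hi (f (Pi.single i 1) j)) ⟨g, hg⟩
    rw [prj_coeff] at h1
    exact h1.symm
  · rw [inc_coeff_of_notMem _ _ g]
    · by_contra hne
      have h1 : In p {r} (Pi.single i 1 : F Γ ι) := by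
        have h3 := @in_single Γ _ _ _ ι _ p i
        rw [hp i] at h3
        exact h3
      have h2 := in_iff.1 (hf.in h1) j g hne
      rw [hq j] at h2
      exact hg h2
    · rintro ⟨h, rfl⟩
      exact hg h.2

/-- The class contains the maps which preserve positions if all positions are at one vertex. -/
theorem graded_one (K : K1C (ZG Γ))
    (hvert : ∀ (x : V) (ι κ : Type) [Fintype ι] [Fintype κ] [DecidableEq ι] [DecidableEq κ]
      (A : Matrix ι κ (MonoidAlgebra ℤ (MulAction.stabilizer Γ x)))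
      (B : Matrix κ ι (MonoidAlgebra ℤ (MulAction.stabilizer Γ x))), A * B = 1 → B * A = 1 →
      K.G (Matrix.toLinearMapRight' (A.map (inc ℤ (MulAction.stabilizer Γ x).subtype))))
    {ι κ : Type} [Finite ι] [Finite κ] (r : V) (p : ι → V) (q : κ → V)
    (hp : ∀ i, p i = r) (hq : ∀ j, q j = r) (f : F Γ ι ≃ₗ[ZG Γ] F Γ κ)
    (hf : Gr p q f.toLinearMap) : K.G f.toLinearMap := by
  classical
  have := Fintype.ofFinite ι
  have := Fintype.ofFinite κ
  have hi : Function.Injective (MulAction.stabilizer Γ r).subtype := Subtype.val_injective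
  obtain ⟨A, hA⟩ := graded_matrix r p q hp hq f.toLinearMap hf
  obtain ⟨B, hB⟩ := graded_matrix r q p hq hp f.symm.toLinearMap hf.symm
  have hA' : f.toLinearMap = Matrix.toLinearMapRight'
      (A.map (inc ℤ (MulAction.stabilizer Γ r).subtype)) := by
    rw [← hA]
    exact (LinearMap.toMatrixRight'.symm_apply_apply f.toLinearMap).symm
  have hB' : f.symm.toLinearMap = Matrix.toLinearMapRight'
      (B.map (inc ℤ (MulAction.stabilizer Γ r).subtype)) := by
    rw [← hB]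
    exact (LinearMap.toMatrixRight'.symm_apply_apply f.symm.toLinearMap).symm
  have hinj : Function.Injective (inc ℤ (MulAction.stabilizer Γ r).subtype) :=
    inc_injective _ hi
  have hAB : A * B = 1 := by
    apply Matrix.map_injective hinj
    change (A * B).map (inc ℤ (MulAction.stabilizer Γ r).subtype) =
      (1 : Matrix ι ι _).map (inc ℤ (MulAction.stabilizer Γ r).subtype)
    rw [Matrix.map_mul, Matrix.map_one _ (map_zero _) (map_one _)]
    apply (Matrix.toLinearMapRight' (R := ZG Γ) (m := ι) (n := ι)).injective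
    rw [Matrix.toLinearMapRight'_mul, ← hA', ← hB', Matrix.toLinearMapRight'_one]
    exact LinearMap.ext fun y => f.symm_apply_apply y
  have hBA : B * A = 1 := by
    apply Matrix.map_injective hinj
    change (B * A).map (inc ℤ (MulAction.stabilizer Γ r).subtype) =
      (1 : Matrix κ κ _).map (inc ℤ (MulAction.stabilizer Γ r).subtype)
    rw [Matrix.map_mul, Matrix.map_one _ (map_zero _) (map_one _)]
    apply (Matrix.toLinearMapRight' (R := ZG Γ) (m := κ) (n := κ)).injective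
    rw [Matrix.toLinearMapRight'_mul, ← hA', ← hB', Matrix.toLinearMapRight'_one]
    exact LinearMap.ext fun y => f.apply_symm_apply y
  rw [hA']
  exact hvert r ι κ A B hAB hBA

/-! ## Decomposition along an invariant set of positions -/

theorem pr_elim {ι₁ ι₂ : Type} (p₁ : ι₁ → V) (p₂ : ι₂ → V) (P : Set V) (y₁ : F Γ ι₁)
    (y₂ : F Γ ι₂) :
    pr (Sum.elim p₁ p₂) P (Sum.elim y₁ y₂ : F Γ (ι₁ ⊕ ι₂)) =
      Sum.elim (pr p₁ P y₁) (pr p₂ P y₂) := by
  funext i
  rcases i with i | i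
  · rfl
  · rfl

theorem elim_eta {ι₁ ι₂ : Type} (y : F Γ (ι₁ ⊕ ι₂)) :
    (Sum.elim (y ∘ Sum.inl) (y ∘ Sum.inr) : F Γ (ι₁ ⊕ ι₂)) = y := by
  funext i
  rcases i with i | i
  · rfl
  · rfl

theorem pr_self_inv {ι : Type} (p : ι → V) (P : Set V) (hP : ∀ (γ : Γ) (x : V), x ∈ P → γ • x ∈ P)
    (hp : ∀ i, p i ∈ P) (y : F Γ ι) : pr p P y = y :=
  in_iff.2 fun i γ _ => hP γ _ (hp i)

theorem pr_zero_inv {ι : Type} (p : ι → V) (P : Set V)
    (hP : ∀ (γ : Γ) (x : V), γ • x ∈ P → x ∈ P) (hp : ∀ i, p i ∉ P) (y : F Γ ι) :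
    pr p P y = 0 := by
  classical
  refine F_ext fun i γ => ?_
  rw [pr_coeff, if_neg]
  · rfl
  · exact fun h => hp i (hP γ _ h)

/-- The inclusion of the first summand. -/
noncomputable def gInl (S : Type u) [Ring S] (ι₁ ι₂ : Type) : (ι₁ → S) →ₗ[S] (ι₁ ⊕ ι₂ → S) where
  toFun y := Sum.elim y 0
  map_add' y z := by
    funext i
    rcases i with i | i
    · rfl
    · exact (add_zero _).symm
  map_smul' s y := by
    funext i
    rcases i with i | i
    · rfl
    · exact (smul_zero (A := S) s).symm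

/-- The inclusion of the second summand. -/
noncomputable def gInr (S : Type u) [Ring S] (ι₁ ι₂ : Type) : (ι₂ → S) →ₗ[S] (ι₁ ⊕ ι₂ → S) where
  toFun y := Sum.elim 0 y
  map_add' y z := by
    funext i
    rcases i with i | i
    · exact (add_zero _).symm
    · rfl
  map_smul' s y := by
    funext i
    rcases i with i | i
    · exact (smul_zero (A := S) s).symm
    · rfl

theorem graded_split (K : K1C (ZG Γ)) {ι₁ ι₂ κ₁ κ₂ : Type} [Finite ι₁] [Finite ι₂] [Finite κ₁]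
    [Finite κ₂] (p₁ : ι₁ → V) (p₂ : ι₂ → V) (q₁ : κ₁ → V) (q₂ : κ₂ → V) (P : Set V)
    (hP : ∀ (γ : Γ) (x : V), γ • x ∈ P ↔ x ∈ P)
    (hp₁ : ∀ i, p₁ i ∈ P) (hp₂ : ∀ i, p₂ i ∉ P) (hq₁ : ∀ i, q₁ i ∈ P) (hq₂ : ∀ i, q₂ i ∉ P)
    (f : F Γ (ι₁ ⊕ ι₂) →ₗ[ZG Γ] F Γ (κ₁ ⊕ κ₂)) (hf : Gr (Sum.elim p₁ p₂) (Sum.elim q₁ q₂) f)
    (hb : Function.Bijective f)
    (h₁ : ∀ g : F Γ ι₁ →ₗ[ZG Γ] F Γ κ₁, Gr p₁ q₁ g → Function.Bijective g → K.G g)
    (h₂ : ∀ g : F Γ ι₂ →ₗ[ZG Γ] F Γ κ₂, Gr p₂ q₂ g → Function.Bijective g → K.G g) :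
    K.G f := by
  -- the parts of vectors
  have hP' : ∀ (γ : Γ) (x : V), γ • x ∈ Pᶜ ↔ x ∈ Pᶜ := fun γ x => not_congr (hP γ x)
  have a1 : ∀ (y₁ : F Γ ι₁) (y₂ : F Γ ι₂),
      pr (Sum.elim p₁ p₂) P (Sum.elim y₁ y₂ : F Γ (ι₁ ⊕ ι₂)) = Sum.elim y₁ 0 := by
    intro y₁ y₂
    rw [pr_elim, pr_self_inv p₁ P (fun γ x => (hP γ x).2) hp₁,
      pr_zero_inv p₂ P (fun γ x => (hP γ x).1) hp₂]
  have a2 : ∀ (y₁ : F Γ ι₁) (y₂ : F Γ ι₂),
      pr (Sum.elim p₁ p₂) Pᶜ (Sum.elim y₁ y₂ : F Γ (ι₁ ⊕ ι₂)) = Sum.elim (0 : F Γ ι₁) y₂ := by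
    intro y₁ y₂
    rw [pr_elim, pr_self_inv p₂ Pᶜ (fun γ x => (hP' γ x).2) hp₂,
      pr_zero_inv p₁ Pᶜ (fun γ x => (hP' γ x).1) fun i h => h (hp₁ i)]
  have b1 : ∀ (z₁ : F Γ κ₁) (z₂ : F Γ κ₂),
      pr (Sum.elim q₁ q₂) P (Sum.elim z₁ z₂ : F Γ (κ₁ ⊕ κ₂)) = Sum.elim z₁ 0 := by
    intro z₁ z₂
    rw [pr_elim, pr_self_inv q₁ P (fun γ x => (hP γ x).2) hq₁,
      pr_zero_inv q₂ P (fun γ x => (hP γ x).1) hq₂]
  have b2 : ∀ (z₁ : F Γ κ₁) (z₂ : F Γ κ₂),
      pr (Sum.elim q₁ q₂) Pᶜ (Sum.elim z₁ z₂ : F Γ (κ₁ ⊕ κ₂)) = Sum.elim (0 : F Γ κ₁) z₂ := by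
    intro z₁ z₂
    rw [pr_elim, pr_self_inv q₂ Pᶜ (fun γ x => (hP' γ x).2) hq₂,
      pr_zero_inv q₁ Pᶜ (fun γ x => (hP' γ x).1) fun i h => h (hq₁ i)]
  -- the two blocks
  let f₁ : F Γ ι₁ →ₗ[ZG Γ] F Γ κ₁ :=
    LinearMap.funLeft (ZG Γ) (ZG Γ) Sum.inl ∘ₗ f ∘ₗ gInl (ZG Γ) ι₁ ι₂
  let f₂ : F Γ ι₂ →ₗ[ZG Γ] F Γ κ₂ :=
    LinearMap.funLeft (ZG Γ) (ZG Γ) Sum.inr ∘ₗ f ∘ₗ gInr (ZG Γ) ι₁ ι₂
  have hf₁ : ∀ y₁ : F Γ ι₁, f (Sum.elim y₁ 0) = Sum.elim (f₁ y₁) 0 := by
    intro y₁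
    have h1 := hf P (Sum.elim y₁ 0)
    rw [a1, ← elim_eta (f (Sum.elim y₁ 0)), b1] at h1
    rw [← elim_eta (f (Sum.elim y₁ 0)), h1]
    rfl
  have hf₂ : ∀ y₂ : F Γ ι₂, f (Sum.elim (0 : F Γ ι₁) y₂) = Sum.elim (0 : F Γ κ₁) (f₂ y₂) := by
    intro y₂
    have h1 := hf Pᶜ (Sum.elim (0 : F Γ ι₁) y₂)
    rw [a2, ← elim_eta (f (Sum.elim (0 : F Γ ι₁) y₂)), b2] at h1
    rw [← elim_eta (f (Sum.elim (0 : F Γ ι₁) y₂)), h1]
    rfl
  have hfb : f = blk f₁ 0 f₂ := by
    refine LinearMap.ext fun y => ?_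
    have h1 : y = (Sum.elim (y ∘ Sum.inl) 0 : F Γ (ι₁ ⊕ ι₂)) +
        Sum.elim (0 : F Γ ι₁) (y ∘ Sum.inr) := by
      funext i
      rcases i with i | i
      · exact (add_zero _).symm
      · exact (zero_add _).symm
    conv_lhs => rw [h1, map_add, hf₁, hf₂]
    funext j
    rcases j with j | j
    · exact add_zero _
    · rfl
  have e₁ : ∀ {y z : F Γ ι₁}, (Sum.elim y 0 : F Γ (ι₁ ⊕ ι₂)) = Sum.elim z 0 → y = z :=
    fun h => funext fun i => congrFun h (Sum.inl i)
  have e₂ : ∀ {y z : F Γ ι₂}, (Sum.elim (0 : F Γ ι₁) y : F Γ (ι₁ ⊕ ι₂)) =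
      Sum.elim (0 : F Γ ι₁) z → y = z :=
    fun h => funext fun i => congrFun h (Sum.inr i)
  have g₁ : K.G f₁ := by
    refine h₁ f₁ ?_ ⟨?_, ?_⟩
    · intro Q y
      have h2 := hf Q (Sum.elim y 0)
      rw [pr_elim, map_zero, hf₁, hf₁, pr_elim, map_zero] at h2
      exact funext fun j => congrFun h2 (Sum.inl j)
    · intro y z hyz
      apply e₁
      apply hb.1
      rw [hf₁, hf₁, hyz]
    · intro z
      obtain ⟨y, hy⟩ := hb.2 (Sum.elim z 0)
      refine ⟨y ∘ Sum.inl, ?_⟩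
      have h2 := hf P y
      rw [hy, b1, ← elim_eta y, a1, hf₁] at h2
      exact funext fun j => congrFun h2 (Sum.inl j)
  have g₂ : K.G f₂ := by
    refine h₂ f₂ ?_ ⟨?_, ?_⟩
    · intro Q y
      have h2 := hf Q (Sum.elim (0 : F Γ ι₁) y)
      rw [pr_elim, map_zero, hf₂, hf₂, pr_elim, map_zero] at h2
      exact funext fun j => congrFun h2 (Sum.inr j)
    · intro y z hyz
      apply e₂
      apply hb.1
      rw [hf₂, hf₂, hyz]
    · intro z
      obtain ⟨y, hy⟩ := hb.2 (Sum.elim (0 : F Γ κ₁) z)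
      refine ⟨y ∘ Sum.inr, ?_⟩
      have h2 := hf Pᶜ y
      rw [hy, b2, ← elim_eta y, a2, hf₂] at h2
      exact funext fun j => congrFun h2 (Sum.inr j)
  rw [hfb]
  exact K.tri _ _ _ g₁ g₂

/-! ## Induction on the number of positions -/

theorem graded_perm {ι κ : Type} (p : ι → V) (e : ι ≃ κ) :
    Gr p (p ∘ e.symm) (LinearMap.funLeft (ZG Γ) (ZG Γ) e.symm) := fun _ _ => rfl

theorem graded_reps (K : K1C (ZG Γ))
    (hvert : ∀ (x : V) (ι κ : Type) [Fintype ι] [Fintype κ] [DecidableEq ι] [DecidableEq κ]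
      (A : Matrix ι κ (MonoidAlgebra ℤ (MulAction.stabilizer Γ x)))
      (B : Matrix κ ι (MonoidAlgebra ℤ (MulAction.stabilizer Γ x))), A * B = 1 → B * A = 1 →
      K.G (Matrix.toLinearMapRight' (A.map (inc ℤ (MulAction.stabilizer Γ x).subtype))))
    (R : Set V) (hR : ∀ x ∈ R, ∀ y ∈ R, ∀ γ : Γ, γ • x = y → x = y) (n : ℕ) :
    ∀ (ι κ : Type) [Finite ι] [Finite κ] (p : ι → V) (q : κ → V), Nat.card ι + Nat.card κ ≤ n →
      (∀ i, p i ∈ R) → (∀ j, q j ∈ R) → ∀ f : F Γ ι →ₗ[ZG Γ] F Γ κ, Gr p q f →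
      Function.Bijective f → K.G f := by
  classical
  induction n with
  | zero =>
    intro ι κ _ _ p q hn hp hq f hf hb
    have h1 : Nat.card ι = 0 := by omega
    have h2 : Nat.card κ = 0 := by omega
    have i1 : IsEmpty ι := (Finite.card_eq_zero_iff).1 h1
    have i2 : IsEmpty κ := (Finite.card_eq_zero_iff).1 h2
    have h3 : f = LinearMap.funLeft (ZG Γ) (ZG Γ) (Equiv.equivOfIsEmpty ι κ).symm :=
      LinearMap.ext fun y => funext fun j => isEmptyElim j
    rw [h3]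
    exact K.perm _
  | succ n ih =>
    intro ι κ _ _ p q hn hp hq f hf hb
    -- choose a position
    by_cases hne : ∃ r : V, (∃ i, p i = r) ∨ (∃ j, q j = r)
    swap
    · refine ih ι κ p q ?_ hp hq f hf hb
      have i1 : IsEmpty ι := ⟨fun i => hne ⟨p i, Or.inl ⟨i, rfl⟩⟩⟩
      have i2 : IsEmpty κ := ⟨fun j => hne ⟨q j, Or.inr ⟨j, rfl⟩⟩⟩
      simp
    obtain ⟨r, hr⟩ := hne
    have hrR : r ∈ R := by
      rcases hr with ⟨i, rfl⟩ | ⟨j, rfl⟩
      · exact hp i
      · exact hq j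
    let P : Set V := {x | ∃ γ : Γ, γ • r = x}
    have hPr : ∀ x ∈ R, x ∈ P → x = r := fun x hx ⟨γ, hγ⟩ => (hR r hrR x hx γ hγ).symm
    have hP : ∀ (γ : Γ) (x : V), γ • x ∈ P ↔ x ∈ P := by
      intro γ x
      constructor
      · rintro ⟨δ, hδ⟩
        exact ⟨γ⁻¹ * δ, by rw [mul_smul, hδ, inv_smul_smul]⟩
      · rintro ⟨δ, hδ⟩
        exact ⟨γ * δ, by rw [mul_smul, hδ]⟩
    have hrP : r ∈ P := ⟨1, one_smul _ _⟩
    let eι : ι ≃ {i // p i = r} ⊕ {i // ¬ p i = r} := (Equiv.sumCompl fun i => p i = r).symm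
    let eκ : κ ≃ {j // q j = r} ⊕ {j // ¬ q j = r} := (Equiv.sumCompl fun j => q j = r).symm
    let f' : F Γ ({i // p i = r} ⊕ {i // ¬ p i = r}) →ₗ[ZG Γ]
        F Γ ({j // q j = r} ⊕ {j // ¬ q j = r}) :=
      LinearMap.funLeft (ZG Γ) (ZG Γ) eκ.symm ∘ₗ f ∘ₗ LinearMap.funLeft (ZG Γ) (ZG Γ) eι.symm.symm
    have hpe : p ∘ eι.symm = Sum.elim (fun i : {i // p i = r} => p i)
        (fun i : {i // ¬ p i = r} => p i) := by
      funext i
      rcases i with i | i <;> rfl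
    have hqe : q ∘ eκ.symm = Sum.elim (fun j : {j // q j = r} => q j)
        (fun j : {j // ¬ q j = r} => q j) := by
      funext i
      rcases i with i | i <;> rfl
    have hff : f' ∘ₗ LinearMap.funLeft (ZG Γ) (ZG Γ) eι.symm =
        LinearMap.funLeft (ZG Γ) (ZG Γ) eκ.symm ∘ₗ f := by
      refine LinearMap.ext fun y => ?_
      have h1 : LinearMap.funLeft (ZG Γ) (ZG Γ) eι.symm.symm
          (LinearMap.funLeft (ZG Γ) (ZG Γ) eι.symm y) = y := by
        funext i
        change y (eι.symm (eι.symm.symm i)) = y i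
        rw [Equiv.apply_symm_apply]
      change LinearMap.funLeft (ZG Γ) (ZG Γ) eκ.symm (f (LinearMap.funLeft (ZG Γ) (ZG Γ)
        eι.symm.symm (LinearMap.funLeft (ZG Γ) (ZG Γ) eι.symm y))) = _
      rw [h1]
      rfl
    have hgr : Gr (Sum.elim (fun i : {i // p i = r} => p i) (fun i : {i // ¬ p i = r} => p i))
        (Sum.elim (fun j : {j // q j = r} => q j) (fun j : {j // ¬ q j = r} => q j)) f' := by
      rw [← hpe, ← hqe]
      have h1 : Gr (p ∘ eι.symm) p (LinearMap.funLeft (ZG Γ) (ZG Γ) eι.symm.symm) := by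
        intro Q y
        funext i
        have h2 : p i = (p ∘ eι.symm) (eι.symm.symm i) := by
          change p i = p (eι.symm (eι.symm.symm i))
          rw [Equiv.apply_symm_apply]
        change Red.res {γ : Γ | γ • (p ∘ eι.symm) (eι.symm.symm i) ∈ Q} (y (eι.symm.symm i)) =
          Red.res {γ : Γ | γ • p i ∈ Q} (y (eι.symm.symm i))
        rw [← h2]
      exact (h1.comp hf).comp (graded_perm q eκ)
    have hbij : ∀ {α β : Type} (e : α ≃ β),
        Function.Bijective (LinearMap.funLeft (ZG Γ) (ZG Γ) e.symm) := by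
      intro α β e
      exact (LinearEquiv.funCongrLeft (ZG Γ) (ZG Γ) e.symm).bijective
    have hb' : Function.Bijective f' := (hbij eκ).comp (hb.comp (hbij eι.symm))
    have hG' : K.G f' := by
      refine graded_split K _ _ _ _ P hP (fun i => ?_) (fun i h => ?_) (fun j => ?_)
        (fun j h => ?_) f' hgr hb' (fun g hg hgb => ?_) (fun g hg hgb => ?_)
      · rw [i.2]; exact hrP
      · exact i.2 (hPr _ (hp i) h)
      · rw [j.2]; exact hrP
      · exact j.2 (hPr _ (hq j) h)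
      · exact graded_one K hvert r _ _ (fun i => i.2) (fun j => j.2)
          (LinearEquiv.ofBijective g hgb) hg
      · refine ih {i // ¬ p i = r} {j // ¬ q j = r} (fun i => p i) (fun j => q j) ?_
          (fun i => hp i) (fun j => hq j) g hg hgb
        have c1 : Nat.card {i // ¬ p i = r} ≤ Nat.card ι :=
          Nat.card_le_card_of_injective _ Subtype.val_injective
        have c2 : Nat.card {j // ¬ q j = r} ≤ Nat.card κ :=
          Nat.card_le_card_of_injective _ Subtype.val_injective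
        rcases hr with ⟨i, hi⟩ | ⟨j, hj⟩
        · have c3 : Nat.card {i // ¬ p i = r} < Nat.card ι := by
            have := Fintype.ofFinite ι
            rw [Nat.card_eq_fintype_card, Nat.card_eq_fintype_card]
            exact Fintype.card_subtype_lt (x := i) (fun h => h hi)
          omega
        · have c3 : Nat.card {j // ¬ q j = r} < Nat.card κ := by
            have := Fintype.ofFinite κ
            rw [Nat.card_eq_fintype_card, Nat.card_eq_fintype_card]
            exact Fintype.card_subtype_lt (x := j) (fun h => h hj)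
          omega
    have hG : K.G (f' ∘ₗ LinearMap.funLeft (ZG Γ) (ZG Γ) eι.symm) :=
      K.comp _ _ (K.perm eι) hG'
    rw [hff] at hG
    exact K.right f _ hG (K.perm eκ)

/-! ## Monomial maps -/

/-- Multiplication of the coordinates from the right. -/
noncomputable def gMono {ι : Type} (g : ι → Γ) : F Γ ι ≃ₗ[ZG Γ] F Γ ι where
  toFun y i := y i * single (g i) 1
  invFun y i := y i * single (g i)⁻¹ 1
  map_add' y z := by funext i; exact add_mul _ _ _
  map_smul' s y := by funext i; exact mul_assoc _ _ _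
  left_inv y := by
    funext i
    change y i * single (g i) 1 * single (g i)⁻¹ 1 = y i
    rw [mul_assoc, single_mul_single, mul_inv_cancel, mul_one, ← one_def, mul_one]
  right_inv y := by
    funext i
    change y i * single (g i)⁻¹ 1 * single (g i) 1 = y i
    rw [mul_assoc, single_mul_single, inv_mul_cancel, mul_one, ← one_def, mul_one]

theorem gMono_gr {ι : Type} (g : ι → Γ) (p : ι → V) :
    Gr p (fun i => (g i)⁻¹ • p i) (gMono g).toLinearMap := by
  classical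
  intro P y
  refine F_ext fun i γ => ?_
  rw [pr_coeff]
  change (pr p P y i * single (g i) 1).coeff γ =
    if γ • (g i)⁻¹ • p i ∈ P then (y i * single (g i) 1).coeff γ else 0
  rw [coeff_mul_single_apply, coeff_mul_single_apply, pr_coeff, mul_smul]
  split_ifs
  · rfl
  · exact zero_mul _

end Graded

/-- Module Graded. -/
theorem stGraded : StGraded.{u, v} := by
  intro Γ _ V _ K hmono hvert ι κ _ _ p q f hf hb
  classical
  -- representatives of the orbits
  let ρ : V → V := fun x => (Quotient.out (s := MulAction.orbitRel Γ V)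
    (Quotient.mk (MulAction.orbitRel Γ V) x))
  have hρ : ∀ x : V, ∃ γ : Γ, γ • ρ x = x := by
    intro x
    have h1 : MulAction.orbitRel Γ V (ρ x) x := Quotient.mk_out (s := MulAction.orbitRel Γ V) x
    obtain ⟨γ, hγ⟩ := MulAction.orbitRel_apply.1 h1
    exact ⟨γ⁻¹, by rw [← hγ]; exact inv_smul_smul γ x⟩
  choose t ht using hρ
  have hρ' : ∀ (γ : Γ) (x : V), ρ (γ • x) = ρ x := by
    intro γ x
    have h1 : (Quotient.mk (MulAction.orbitRel Γ V) (γ • x)) =
        Quotient.mk (MulAction.orbitRel Γ V) x :=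
      Quotient.sound (MulAction.orbitRel_apply.2 ⟨γ, rfl⟩)
    change Quotient.out (Quotient.mk (MulAction.orbitRel Γ V) (γ • x)) = _
    rw [h1]
  have ht' : ∀ x : V, (t x)⁻¹ • x = ρ x := fun x => by
    rw [inv_smul_eq_iff, ht]
  have hρρ : ∀ x : V, ρ (ρ x) = ρ x := fun x => by
    rw [← ht' x, hρ' _ x, ht' x]
  have hR : ∀ x ∈ Set.range ρ, ∀ y ∈ Set.range ρ, ∀ γ : Γ, γ • x = y → x = y := by
    rintro _ ⟨x, rfl⟩ _ ⟨y, rfl⟩ γ h
    rw [← hρρ x, ← hρρ y, ← h, hρ']
  let fE : F Γ ι ≃ₗ[ZG Γ] F Γ κ := LinearEquiv.ofBijective f hb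
  let Dp : F Γ ι ≃ₗ[ZG Γ] F Γ ι := gMono fun i => t (p i)
  let Dq : F Γ κ ≃ₗ[ZG Γ] F Γ κ := gMono fun j => t (q j)
  have gp : Gr p (fun i => ρ (p i)) Dp.toLinearMap := by
    have h1 := gMono_gr (fun i => t (p i)) p
    simp only [ht'] at h1
    exact h1
  have gq : Gr q (fun j => ρ (q j)) Dq.toLinearMap := by
    have h1 := gMono_gr (fun j => t (q j)) q
    simp only [ht'] at h1
    exact h1
  let f' : F Γ ι →ₗ[ZG Γ] F Γ κ := Dq.toLinearMap ∘ₗ f ∘ₗ Dp.symm.toLinearMap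
  have gf : Gr (fun i => ρ (p i)) (fun j => ρ (q j)) f' := (gp.symm.comp hf).comp gq
  have hG' : K.G f' := by
    refine graded_reps K hvert (Set.range ρ) hR _ ι κ _ _ le_rfl (fun i => ⟨p i, rfl⟩)
      (fun j => ⟨q j, rfl⟩) f' gf ?_
    exact Dq.bijective.comp (hb.comp Dp.symm.bijective)
  have hG : K.G (f' ∘ₗ Dp.toLinearMap) :=
    K.comp _ _ (hmono ι (fun i => t (p i)) Dp.toLinearMap fun y i => rfl) hG'
  have hff : f' ∘ₗ Dp.toLinearMap = Dq.toLinearMap ∘ₗ f := by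
    refine LinearMap.ext fun y => ?_
    change Dq (f (Dp.symm (Dp y))) = Dq (f y)
    rw [LinearEquiv.symm_apply_apply]
  rw [hff] at hG
  exact K.right f _ hG (hmono κ (fun j => t (q j)) Dq.toLinearMap fun y i => rfl)

end Pool.Agent.Lib.MP_551055_al.LS
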