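import Mathlib
import Pool.Agent.Lib.MP_551055_al.Trim.LS.InSingle
import Pool.Agent.Lib.MP_551055_al.Trim.LS.Pos
import Pool.Agent.Lib.MP_551055_al.Trim.LS.Stmts

/-!
# Adapted systems: the operator `Θ = 1 + ω`
-/

set_option autoImplicit false

namespace Pool.Agent.Lib.MP_551055_al.LS

open MonoidAlgebra

universe u v w z

namespace Theta

section Gen

variable {Γ : Type u} [Group Γ] {X : Type v} {Y : Type w} [MulAction Γ X] [MulAction Γ Y]

variable {ι κ : Type}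

theorem in_diff {p : ι → X} {P Q : Set X} {y : F Γ ι} (h : In p Q y) (h0 : pr p P y = 0) :
    In p (Q \ P) y := by
  classical
  refine in_iff.2 fun i γ hne => ⟨in_iff.1 h i γ hne, fun hP => hne ?_⟩
  have h1 : (pr p P y i).coeff γ = 0 := by rw [h0]; rfl
  rwa [pr_coeff, if_pos hP] at h1

theorem eq_of_parts [Finite ι] (p : ι → X) {M : Type z} [AddCommGroup M] (f g : F Γ ι →+ M)
    (y : F Γ ι) (h : ∀ x, f (pr p {x} y) = g (pr p {x} y)) : f y = g y := by
  obtain ⟨s, _, hs⟩ := exists_sum_pr p y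
  rw [hs, map_sum, map_sum]
  exact Finset.sum_congr rfl fun x _ => h x

theorem in_of_parts [Finite ι] (p : ι → X) (q : κ → Y) (Q : Set Y) (f : F Γ ι →+ F Γ κ)
    (y : F Γ ι) (h : ∀ x, In q Q (f (pr p {x} y))) : In q Q (f y) := by
  obtain ⟨s, _, hs⟩ := exists_sum_pr p y
  rw [hs, map_sum]
  exact In.sum fun x _ => h x

/-- The nonzero coefficients. -/
def supp (y : F Γ ι) : Set (ι × Γ) := {x | (y x.1).coeff x.2 ≠ 0}

theorem supp_finite [Finite ι] (y : F Γ ι) : (supp y).Finite := by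
  have h1 : (⋃ i : ι, (fun γ : Γ => (i, γ)) '' ((y i).coeff.support : Set Γ)).Finite :=
    Set.finite_iUnion fun i => (Finset.finite_toSet _).image _
  refine h1.subset fun x hx => ?_
  exact Set.mem_iUnion.2 ⟨x.1, x.2, Finset.mem_coe.2 (Finsupp.mem_support_iff.2 hx), rfl⟩

/-- The number of nonzero coefficients. -/
noncomputable def num (y : F Γ ι) : ℕ := (supp y).ncard

theorem supp_neg (y : F Γ ι) : supp (-y) = supp y := by
  ext x
  change (-(y x.1)).coeff x.2 ≠ 0 ↔ (y x.1).coeff x.2 ≠ 0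
  rw [coeff_neg, Finsupp.neg_apply, neg_ne_zero]

theorem num_eq_zero [Finite ι] {y : F Γ ι} (h : num y = 0) : y = 0 := by
  have h1 : supp y = ∅ := (Set.ncard_eq_zero (supp_finite y)).1 h
  refine F_ext fun i γ => ?_
  by_contra hne
  have h2 : (i, γ) ∈ supp y := hne
  rw [h1] at h2
  exact h2

theorem num_pr_lt [Finite ι] {p : ι → X} {P Q : Set X} {y : F Γ ι} (hd : Disjoint P Q)
    (h : pr p Q y ≠ 0) : num (pr p P y) < num y := by
  classical
  apply Set.ncard_lt_ncard _ (supp_finite y)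
  rw [Set.ssubset_iff_of_subset]
  · by_contra hn
    apply h
    refine F_ext fun i γ => ?_
    rw [pr_coeff]
    split_ifs with h1
    · by_contra hne
      apply hn
      refine ⟨(i, γ), hne, fun h2 => ?_⟩
      have h3 : (pr p P y i).coeff γ ≠ 0 := h2
      rw [pr_coeff, if_neg (Set.disjoint_right.1 hd h1)] at h3
      exact h3 rfl
    · rfl
  · intro x hx
    have h3 : (pr p P y x.1).coeff x.2 ≠ 0 := hx
    rw [pr_coeff] at h3
    split_ifs at h3 with h1
    · exact h3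
    · exact absurd rfl h3

end Gen

section Main

variable {Γ : Type u} [Group Γ] {V : Type v} [MulAction Γ V] {T : SimpleGraph V}

theorem in_pos (hT : TreeAct Γ V T) (s : Sys Γ T) (y : F Γ (s.K ⊕ s.I)) :
    In (cell s.f s.v) {c | c.1 = c.2 ∨ T.Adj c.1 c.2} y := by
  refine in_iff.2 fun i γ _ => ?_
  rcases i with k | i
  · exact Or.inr (hT.adj γ _ _ (s.adj k))
  · exact Or.inl rfl

/-- The part of `y` at something which is not a cell. -/
theorem eq_zero_of_not (hT : TreeAct Γ V T) (s : Sys Γ T) {c : V × V} {y : F Γ (s.K ⊕ s.I)}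
    (hy : In (cell s.f s.v) {c} y) (h : ¬ (c.1 = c.2 ∨ T.Adj c.1 c.2)) : y = 0 :=
  hy.eq_zero (in_pos hT s y) (Set.disjoint_singleton_left.2 h)

theorem phi_in (s : Sys Γ T) {a b : V} {y : F Γ (s.K ⊕ s.I)} (hy : In (cell s.f s.v) {(a, b)} y) :
    In s.w {x | x = a ∨ x = b} (s.Φ y) :=
  s.tr.hom hy

theorem phi_vert (s : Sys Γ T) {a : V} {y : F Γ (s.K ⊕ s.I)} (hy : In (cell s.f s.v) {(a, a)} y) :
    In s.w {a} (s.Φ y) :=
  (phi_in s hy).mono fun x hx => by
    rcases hx with h | h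
    · exact h
    · exact h

theorem phi_edge (s : Sys Γ T) {a b : V} (hab : a ≠ b) {y : F Γ (s.K ⊕ s.I)}
    (hy : In (cell s.f s.v) {(a, b)} y) : pr s.w {a} (s.Φ y) + pr s.w {b} (s.Φ y) = s.Φ y := by
  rw [← pr_union s.w (Set.disjoint_singleton.2 hab)]
  refine ((phi_in s hy).mono fun x hx => ?_).eq
  rcases hx with h | h
  · exact Or.inl h
  · exact Or.inr h

theorem pr_pair (s : Sys Γ T) {a b : V} (hab : a ≠ b) (y : F Γ (s.K ⊕ s.I)) :
    pr (cell s.f s.v) {(a, b), (b, a)} y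
      = pr (cell s.f s.v) {(a, b)} y + pr (cell s.f s.v) {(b, a)} y := by
  rw [← pr_union]
  · rfl
  · exact Set.disjoint_singleton.2 fun h => hab (congrArg Prod.fst h)

/-- (S1) -/
theorem s1 (ht : StTreeA.{v}) (hc : StCut.{u, v}) (hT : TreeAct Γ V T) (s : Sys Γ T)
    (ha : s.Adapted) {u v : V} (huv : T.Adj u v) {m : F Γ s.J} (hm : In s.w {v} m) :
    pr (cell s.f s.v) {(v, u)} (s.Φ.symm m) = 0 := by
  have hne : u ≠ v := huv.ne
  obtain ⟨h1, h2, _, _⟩ := ht V T hT.tree v u huv.symm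
  have hcut := hc Γ V T hT s u v huv (s.Φ.symm m) (by rwa [LinearEquiv.apply_symm_apply])
  set y := s.Φ.symm m with hy
  set p := cell s.f s.v with hp
  set n1 := pr p {(u, v)} y with hn1
  set n2 := pr p {(v, u)} y with hn2
  rw [pr_pair s hne, ← hp, ← hn1, ← hn2, map_add, map_add] at hcut
  have h3 := congrArg (fun z => pr p {(u, v), (v, u)} (s.Φ.symm z)) hcut
  simp only [map_add, LinearEquiv.symm_apply_apply, map_zero] at h3
  have h4 : pr p {(u, v), (v, u)} (pr p (side T v u ×ˢ side T v u) y) = 0 := by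
    rw [pr_pr]
    have h5 : ({(u, v), (v, u)} : Set (V × V)) ∩ side T v u ×ˢ side T v u = ∅ := by
      ext c
      constructor
      · rintro ⟨hc1 | hc1, hc2, hc3⟩
        · rw [hc1] at hc3; exact h2 hc3
        · rw [Set.mem_singleton_iff.1 hc1] at hc2; exact h2 hc2
      · intro h; exact absurd h (Set.notMem_empty c)
    rw [h5, pr_empty]
  have h5 : pr p {(u, v), (v, u)} (s.Φ.symm (pr s.w {u} (s.Φ n1))) = 0 :=
    ha u v huv n1 (in_pr p _ _)
  have h6 : pr p {(v, u), (u, v)} (s.Φ.symm (pr s.w {v} (s.Φ n2))) = 0 :=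
    ha v u huv.symm n2 (in_pr p _ _)
  have h7 := congrArg (fun z => pr p {(u, v), (v, u)} (s.Φ.symm z))
    (phi_edge s hne.symm (in_pr p {(v, u)} y))
  rw [← hn2] at h7
  simp only [map_add, LinearEquiv.symm_apply_apply] at h7
  rw [Set.pair_comm] at h6
  rw [h6, zero_add] at h7
  have h8 : pr p {(u, v), (v, u)} n2 = n2 :=
    ((in_pr p {(v, u)} y).mono fun c hc => Or.inr hc).eq
  rw [h8] at h7
  rw [h4, h5, h7, zero_add, zero_add] at h3
  exact h3

/-- (S2) -/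
theorem s2 (ht : StTreeA.{v}) (hc : StCut.{u, v}) (hT : TreeAct Γ V T) (s : Sys Γ T)
    (ha : s.Adapted) {u v : V} (huv : T.Adj u v) {n : F Γ (s.K ⊕ s.I)}
    (hn : In (cell s.f s.v) {(u, v)} n) :
    In (cell s.f s.v) (side T v u ×ˢ side T v u) (s.Φ.symm (pr s.w {u} (s.Φ n))) := by
  obtain ⟨_, _, h3, h4⟩ := ht V T hT.tree u v huv
  have hcut := hc Γ V T hT s v u huv.symm (s.Φ.symm (pr s.w {u} (s.Φ n)))
    (by rw [LinearEquiv.apply_symm_apply]; exact in_pr _ _ _)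
  have had := ha u v huv n hn
  rw [Set.pair_comm (v, u) (u, v), had, map_zero, map_zero, add_zero] at hcut
  have h5 := (LinearEquiv.map_eq_zero_iff s.Φ).1 hcut
  have h6 := in_diff (in_diff (in_pos hT s (s.Φ.symm (pr s.w {u} (s.Φ n)))) h5) had
  refine h6.mono fun c hc => ?_
  obtain ⟨⟨hc1, hc2⟩, hc3⟩ := hc
  have k1 : c.1 ∉ side T u v := by
    intro k
    have k' : c.2 ∉ side T u v := fun k' => hc2 ⟨k, k'⟩
    rcases hc1 with hc1 | hc1
    · rw [hc1] at k; exact k' k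
    · obtain ⟨e1, e2⟩ := h4 _ _ hc1 k k'
      exact hc3 (Or.inr (Prod.ext e1 e2))
  have k2 : c.2 ∉ side T u v := by
    intro k
    rcases hc1 with hc1 | hc1
    · rw [← hc1] at k; exact k1 k
    · obtain ⟨e1, e2⟩ := h4 _ _ hc1.symm k k1
      exact hc3 (Or.inl (Prod.ext e2 e1))
  rw [← h3]
  exact ⟨k1, k2⟩

theorem exists_psi (s : Sys Γ T) : ∃ ψ : F Γ (s.K ⊕ s.I) →ₗ[ZG Γ] F Γ s.J,
    ∀ (c : V × V) (y : F Γ (s.K ⊕ s.I)), In (cell s.f s.v) {c} y →
      ψ y = pr s.w {c.2} (s.Φ y) := by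
  obtain ⟨f, hf⟩ := exists_lin (cell s.f s.v)
    (fun c => (pr s.w {c.2}).comp s.Φ.toLinearMap.toAddMonoidHom) (fun γ c y _ => by
      change pr s.w {γ • c.2} (s.Φ ((single γ 1 : ZG Γ) • y))
        = (single γ 1 : ZG Γ) • pr s.w {c.2} (s.Φ y)
      rw [map_smul, pr_smul_singleton])
  exact ⟨f, fun c y hy => hf c y hy⟩

theorem exists_lam (s : Sys Γ T) : ∃ L : F Γ s.J →ₗ[ZG Γ] F Γ (s.K ⊕ s.I),
    ∀ (x : V) (m : F Γ s.J), In s.w {x} m →
      L m = pr (cell s.f s.v) {c | c.2 = x} (s.Φ.symm m) := by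
  obtain ⟨f, hf⟩ := exists_lin s.w
    (fun x => (pr (cell s.f s.v) {c | c.2 = x}).comp s.Φ.symm.toLinearMap.toAddMonoidHom)
    (fun γ x m _ => by
      change pr (cell s.f s.v) {c | c.2 = γ • x} (s.Φ.symm ((single γ 1 : ZG Γ) • m))
        = (single γ 1 : ZG Γ) • pr (cell s.f s.v) {c | c.2 = x} (s.Φ.symm m)
      rw [map_smul, pr_smul]
      congr 3
      ext c
      exact smul_left_cancel_iff γ)
  exact ⟨f, fun c y hy => hf c y hy⟩

/-- `ψ Λ = 1` -/
theorem psi_lam (ht : StTreeA.{v}) (hc : StCut.{u, v}) (hT : TreeAct Γ V T) (s : Sys Γ T)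
    (ha : s.Adapted) {ψ : F Γ (s.K ⊕ s.I) →ₗ[ZG Γ] F Γ s.J}
    (hψ : ∀ (c : V × V) (y : F Γ (s.K ⊕ s.I)), In (cell s.f s.v) {c} y →
      ψ y = pr s.w {c.2} (s.Φ y)) {L : F Γ s.J →ₗ[ZG Γ] F Γ (s.K ⊕ s.I)}
    (hL : ∀ (x : V) (m : F Γ s.J), In s.w {x} m →
      L m = pr (cell s.f s.v) {c | c.2 = x} (s.Φ.symm m)) : ψ ∘ₗ L = LinearMap.id := by
  refine linearMap_ext s.w fun x m hm => ?_
  rw [LinearMap.comp_apply, hL x m hm, LinearMap.id_apply]
  have h1 := eq_of_parts (cell s.f s.v)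
    (ψ.toAddMonoidHom.comp (pr (cell s.f s.v) {c | c.2 = x}))
    ((pr s.w {x}).comp s.Φ.toLinearMap.toAddMonoidHom) (s.Φ.symm m) (fun c => ?_)
  · change ψ (pr (cell s.f s.v) {c | c.2 = x} (s.Φ.symm m)) = pr s.w {x} (s.Φ (s.Φ.symm m)) at h1
    rw [LinearEquiv.apply_symm_apply, hm.eq] at h1
    exact h1
  · change ψ (pr (cell s.f s.v) {c | c.2 = x} (pr (cell s.f s.v) {c} (s.Φ.symm m)))
      = pr s.w {x} (s.Φ (pr (cell s.f s.v) {c} (s.Φ.symm m)))
    have hin := in_pr (cell s.f s.v) {c} (s.Φ.symm m)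
    by_cases hcx : c.2 = x
    · rw [(hin.mono (Set.singleton_subset_iff.2 hcx)).eq, hψ c _ hin, hcx]
    · rw [hin.pr_eq_zero (Set.disjoint_singleton_right.2 hcx), map_zero]
      symm
      obtain ⟨a, b⟩ := c
      change b ≠ x at hcx
      by_cases hax : a = x
      · subst hax
        by_cases hab : T.Adj b a
        · rw [s1 ht hc hT s ha hab hm, map_zero, map_zero]
        · rw [eq_zero_of_not hT s hin, map_zero, map_zero]
          rintro (h | h)
          · exact hcx (Eq.symm h)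
          · exact hab h.symm
      · refine (phi_in s hin).pr_eq_zero (Set.disjoint_singleton_left.2 ?_)
        rintro (h | h)
        · exact hax h.symm
        · exact hcx h.symm

/-- `Λ` applied to the part at the end point of the image of an edge. -/
theorem lam_edge (ht : StTreeA.{v}) (hc : StCut.{u, v}) (hT : TreeAct Γ V T) (s : Sys Γ T)
    (ha : s.Adapted) {L : F Γ s.J →ₗ[ZG Γ] F Γ (s.K ⊕ s.I)}
    (hL : ∀ (x : V) (m : F Γ s.J), In s.w {x} m →
      L m = pr (cell s.f s.v) {c | c.2 = x} (s.Φ.symm m)) {u v : V} (huv : T.Adj u v)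
    {n : F Γ (s.K ⊕ s.I)} (hn : In (cell s.f s.v) {(u, v)} n) :
    L (pr s.w {v} (s.Φ n)) = n := by
  obtain ⟨_, h2, _, _⟩ := ht V T hT.tree v u huv.symm
  rw [hL v _ (in_pr _ _ _)]
  have h1 : pr s.w {v} (s.Φ n) = s.Φ n - pr s.w {u} (s.Φ n) := by
    rw [eq_sub_iff_add_eq, add_comm]
    exact phi_edge s huv.ne hn
  rw [h1, map_sub, LinearEquiv.symm_apply_apply, map_sub,
    (s2 ht hc hT s ha huv hn).pr_eq_zero, sub_zero]
  · exact (hn.mono fun c hc => by rw [Set.mem_singleton_iff.1 hc]; rfl).eq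
  · refine Set.disjoint_left.2 fun c hc hc' => h2 ?_
    have hc1 : c.2 = v := hc
    have hc2 : c.2 ∈ side T v u := hc'.2
    rwa [hc1] at hc2

theorem lam_vert (s : Sys Γ T) {L : F Γ s.J →ₗ[ZG Γ] F Γ (s.K ⊕ s.I)}
    (hL : ∀ (x : V) (m : F Γ s.J), In s.w {x} m →
      L m = pr (cell s.f s.v) {c | c.2 = x} (s.Φ.symm m)) {a : V}
    {n : F Γ (s.K ⊕ s.I)} (hn : In (cell s.f s.v) {(a, a)} n) :
    L (s.Φ n) = n := by
  rw [hL a _ (phi_vert s hn), LinearEquiv.symm_apply_apply]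
  exact (hn.mono fun c hc => by rw [Set.mem_singleton_iff.1 hc]; rfl).eq

/-- `Λ ψ = 1` -/
theorem lam_psi (ht : StTreeA.{v}) (hc : StCut.{u, v}) (hT : TreeAct Γ V T) (s : Sys Γ T)
    (ha : s.Adapted) {ψ : F Γ (s.K ⊕ s.I) →ₗ[ZG Γ] F Γ s.J}
    (hψ : ∀ (c : V × V) (y : F Γ (s.K ⊕ s.I)), In (cell s.f s.v) {c} y →
      ψ y = pr s.w {c.2} (s.Φ y)) {L : F Γ s.J →ₗ[ZG Γ] F Γ (s.K ⊕ s.I)}
    (hL : ∀ (x : V) (m : F Γ s.J), In s.w {x} m →
      L m = pr (cell s.f s.v) {c | c.2 = x} (s.Φ.symm m)) : L ∘ₗ ψ = LinearMap.id := by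
  refine linearMap_ext (cell s.f s.v) fun c n hn => ?_
  rw [LinearMap.comp_apply, hψ c n hn, LinearMap.id_apply]
  obtain ⟨a, b⟩ := c
  by_cases hab : a = b
  · subst hab
    change L (pr s.w {a} (s.Φ n)) = n
    rw [(phi_vert s hn).eq]
    exact lam_vert s hL hn
  · by_cases hadj : T.Adj a b
    · exact lam_edge ht hc hT s ha hL hadj hn
    · have h0 : n = 0 := eq_zero_of_not hT s hn (by
        rintro (h | h)
        · exact hab h
        · exact hadj h)
      rw [h0, map_zero, map_zero, map_zero]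

/-- `Λ Φ - 1` on vertices. -/
theorem om_vert (s : Sys Γ T) {L : F Γ s.J →ₗ[ZG Γ] F Γ (s.K ⊕ s.I)}
    (hL : ∀ (x : V) (m : F Γ s.J), In s.w {x} m →
      L m = pr (cell s.f s.v) {c | c.2 = x} (s.Φ.symm m)) {a : V}
    {n : F Γ (s.K ⊕ s.I)} (hn : In (cell s.f s.v) {(a, a)} n) :
    L (s.Φ n) - n = 0 := by
  rw [lam_vert s hL hn, sub_self]

/-- `Λ Φ - 1` on edges. -/
theorem om_edge (ht : StTreeA.{v}) (hc : StCut.{u, v}) (hT : TreeAct Γ V T) (s : Sys Γ T)
    (ha : s.Adapted) {L : F Γ s.J →ₗ[ZG Γ] F Γ (s.K ⊕ s.I)}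
    (hL : ∀ (x : V) (m : F Γ s.J), In s.w {x} m →
      L m = pr (cell s.f s.v) {c | c.2 = x} (s.Φ.symm m)) {u v : V} (huv : T.Adj u v)
    {n : F Γ (s.K ⊕ s.I)} (hn : In (cell s.f s.v) {(u, v)} n) :
    L (s.Φ n) - n = pr (cell s.f s.v) {c | c.2 = u} (s.Φ.symm (pr s.w {u} (s.Φ n))) := by
  have h1 := congrArg L (phi_edge s huv.ne hn)
  rw [map_add, lam_edge ht hc hT s ha hL huv hn, hL u _ (in_pr _ _ _)] at h1
  rw [← h1, add_sub_cancel_right]

theorem om_edge_in (ht : StTreeA.{v}) (hc : StCut.{u, v}) (hT : TreeAct Γ V T) (s : Sys Γ T)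
    (ha : s.Adapted) {L : F Γ s.J →ₗ[ZG Γ] F Γ (s.K ⊕ s.I)}
    (hL : ∀ (x : V) (m : F Γ s.J), In s.w {x} m →
      L m = pr (cell s.f s.v) {c | c.2 = x} (s.Φ.symm m)) {u v : V} (huv : T.Adj u v)
    {n : F Γ (s.K ⊕ s.I)} (hn : In (cell s.f s.v) {(u, v)} n) :
    In (cell s.f s.v) {c | c.2 = u ∧ c.1 ≠ v} (L (s.Φ n) - n) := by
  rw [om_edge ht hc hT s ha hL huv hn]
  obtain ⟨_, h2, _, _⟩ := ht V T hT.tree v u huv.symm
  have h3 := (s2 ht hc hT s ha huv hn).pr_inter (P := {c | c.2 = u})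
  refine h3.mono fun c hc => ?_
  have hc1 : c.2 = u := hc.1
  have hc2 : c.1 ∈ side T v u := hc.2.1
  refine ⟨hc1, fun h => h2 ?_⟩
  rwa [h] at hc2

/-- The recursion: the number of nonzero coefficients decreases. -/
theorem step (ht : StTreeA.{v}) (hc : StCut.{u, v}) (hT : TreeAct Γ V T) (s : Sys Γ T)
    (ha : s.Adapted) {u a : V} (hau : T.Adj a u) {m : F Γ s.J} (hm : In s.w {u} m)
    (hne : pr (cell s.f s.v) {(a, u)} (s.Φ.symm m) ≠ 0) :
    num (s.Φ.symm (pr s.w {a} (s.Φ (pr (cell s.f s.v) {(a, u)} (s.Φ.symm m)))))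
      < num (s.Φ.symm m) := by
  obtain ⟨_, h2, _, _⟩ := ht V T hT.tree u a hau.symm
  have hcut := hc Γ V T hT s a u hau (s.Φ.symm m) (by rwa [LinearEquiv.apply_symm_apply])
  rw [pr_pair s hau.ne, s1 ht hc hT s ha hau hm, add_zero] at hcut
  have h3 := congrArg s.Φ.symm hcut
  rw [map_add, LinearEquiv.symm_apply_apply, map_zero] at h3
  have h4 := eq_neg_of_add_eq_zero_right h3
  rw [h4]
  change (supp _).ncard < _
  rw [supp_neg]
  refine num_pr_lt (Set.disjoint_singleton_right.2 ?_) hne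
  intro h
  exact h2 h.2

/-- Nilpotency on edges. -/
theorem nil_edge (ht : StTreeA.{v}) (hc : StCut.{u, v}) (hT : TreeAct Γ V T) (s : Sys Γ T)
    (ha : s.Adapted) {L : F Γ s.J →ₗ[ZG Γ] F Γ (s.K ⊕ s.I)}
    (hL : ∀ (x : V) (m : F Γ s.J), In s.w {x} m →
      L m = pr (cell s.f s.v) {c | c.2 = x} (s.Φ.symm m))
    {ω : Module.End (ZG Γ) (F Γ (s.K ⊕ s.I))} (hω : ∀ y, ω y = L (s.Φ y) - y) (c : ℕ) :
    ∀ (u v : V), T.Adj u v → ∀ n : F Γ (s.K ⊕ s.I), In (cell s.f s.v) {(u, v)} n →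
      num (s.Φ.symm (pr s.w {u} (s.Φ n))) ≤ c → (ω ^ (c + 1)) n = 0 := by
  induction c with
  | zero =>
    intro u v huv n hn hnum
    have h0 := num_eq_zero (Nat.le_zero.1 hnum)
    rw [zero_add, pow_one, hω, om_edge ht hc hT s ha hL huv hn, h0, map_zero]
  | succ c ih =>
    intro u v huv n hn hnum
    rw [pow_succ, Module.End.mul_apply]
    have h1 := eq_of_parts (cell s.f s.v) (ω ^ (c + 1)).toAddMonoidHom
      (0 : F Γ (s.K ⊕ s.I) →+ F Γ (s.K ⊕ s.I)) (ω n) (fun b => ?_)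
    · exact h1
    · change (ω ^ (c + 1)) (pr (cell s.f s.v) {b} (ω n)) = 0
      rw [hω n, om_edge ht hc hT s ha hL huv hn, pr_pr]
      obtain ⟨a, b⟩ := b
      by_cases hb : b = u
      · subst hb
        have h2 : ({(a, b)} : Set (V × V)) ∩ {c | c.2 = b} = {(a, b)} := by
          ext x
          constructor
          · exact fun h => h.1
          · intro h
            refine ⟨h, ?_⟩
            rw [Set.mem_singleton_iff.1 h]
            rfl
        rw [h2]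
        have hin := in_pr (cell s.f s.v) {(a, b)} (s.Φ.symm (pr s.w {b} (s.Φ n)))
        by_cases hab : a = b
        · subst hab
          rw [pow_succ, Module.End.mul_apply, hω, om_vert s hL hin, map_zero]
        · by_cases hadj : T.Adj a b
          · by_cases hz : pr (cell s.f s.v) {(a, b)} (s.Φ.symm (pr s.w {b} (s.Φ n))) = 0
            · rw [hz, map_zero]
            · refine ih a b hadj _ hin ?_
              have h3 := step ht hc hT s ha hadj (in_pr s.w {b} (s.Φ n)) hz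
              omega
          · have hz := eq_zero_of_not hT s hin (by
              rintro (h | h)
              · exact hab h
              · exact hadj h)
            rw [hz, map_zero]
      · have h2 : ({(a, b)} : Set (V × V)) ∩ {c | c.2 = u} = ∅ := by
          ext x
          constructor
          · rintro ⟨h, h'⟩
            rw [Set.mem_singleton_iff.1 h] at h'
            exact absurd h' hb
          · intro h; exact absurd h (Set.notMem_empty x)
        rw [h2, pr_empty, map_zero]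

theorem pow_mono {M : Type z} [AddCommGroup M] [Module (ZG Γ) M] (ω : Module.End (ZG Γ) M) (y : M)
    {a b : ℕ} (hab : a ≤ b) (h : (ω ^ a) y = 0) : (ω ^ b) y = 0 := by
  obtain ⟨c, rfl⟩ := Nat.exists_eq_add_of_le hab
  rw [add_comm, pow_add, Module.End.mul_apply, h, map_zero]

theorem nilpotent (ht : StTreeA.{v}) (hc : StCut.{u, v}) (hT : TreeAct Γ V T) (s : Sys Γ T)
    (ha : s.Adapted) {L : F Γ s.J →ₗ[ZG Γ] F Γ (s.K ⊕ s.I)}
    (hL : ∀ (x : V) (m : F Γ s.J), In s.w {x} m →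
      L m = pr (cell s.f s.v) {c | c.2 = x} (s.Φ.symm m))
    {ω : Module.End (ZG Γ) (F Γ (s.K ⊕ s.I))} (hω : ∀ y, ω y = L (s.Φ y) - y) :
    IsNilpotent ω := by
  classical
  have := Fintype.ofFinite (s.K ⊕ s.I)
  have h1 : ∀ i : s.K ⊕ s.I, ∃ c, (ω ^ c) (Pi.single i 1 : F Γ (s.K ⊕ s.I)) = 0 := by
    intro i
    have hb : In (cell s.f s.v) {cell s.f s.v i} (Pi.single i 1 : F Γ (s.K ⊕ s.I)) :=
      @in_single Γ _ _ _ _ _ (cell s.f s.v) i
    rcases i with k | i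
    · exact ⟨_, nil_edge ht hc hT s ha hL hω _ (s.f k).1 (s.f k).2 (s.adj k) _ hb le_rfl⟩
    · refine ⟨1, ?_⟩
      rw [pow_one, hω]
      exact om_vert s hL (a := s.v i) hb
  choose c hc' using h1
  refine ⟨∑ i, c i, ?_⟩
  refine LinearMap.pi_ext' fun i => ?_
  refine LinearMap.ext_ring ?_
  change (ω ^ (∑ i, c i)) (Pi.single i 1) = 0
  exact pow_mono ω _ (Finset.single_le_sum (f := c) (fun _ _ => Nat.zero_le _)
    (Finset.mem_univ i)) (hc' i)

end Main

end Theta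

/-- Module Theta. -/
theorem stTheta (ht : StTreeA.{v}) (hc : StCut.{u, v}) : StTheta.{u, v} := by
  intro Γ _ V _ T hT s ha
  obtain ⟨ψ, hψ⟩ := Theta.exists_psi s
  obtain ⟨L, hL⟩ := Theta.exists_lam s
  have e1 := Theta.psi_lam ht hc hT s ha hψ hL
  have e2 := Theta.lam_psi ht hc hT s ha hψ hL
  have hω : ∀ y, (L ∘ₗ s.Φ.toLinearMap - 1 : Module.End (ZG Γ) (F Γ (s.K ⊕ s.I))) y
      = L (s.Φ y) - y := fun y => rfl
  refine ⟨LinearEquiv.ofLinearMap ψ L e1 e2, L ∘ₗ s.Φ.toLinearMap - 1, ?_, ?_, ?_, ?_⟩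
  · refine gr_of_hom fun x y hy => ?_
    have hy' : In (cell s.f s.v) {c | c.2 = x} y := hy
    change In s.w {x} (ψ y)
    rw [← hy'.eq]
    refine Theta.in_of_parts (cell s.f s.v) s.w {x}
      (ψ.toAddMonoidHom.comp (pr (cell s.f s.v) {c | c.2 = x})) y fun c => ?_
    change In s.w {x} (ψ (pr (cell s.f s.v) {c | c.2 = x} (pr (cell s.f s.v) {c} y)))
    have hin := in_pr (cell s.f s.v) {c} y
    by_cases hcx : c.2 = x
    · rw [(hin.mono (Set.singleton_subset_iff.2 hcx)).eq, hψ c _ hin, hcx]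
      exact in_pr _ _ _
    · rw [hin.pr_eq_zero (Set.disjoint_singleton_right.2 hcx), map_zero]
      exact In.zero _ _
  · have h1 : (1 : Module.End (ZG Γ) (F Γ (s.K ⊕ s.I))) + (L ∘ₗ s.Φ.toLinearMap - 1)
        = L ∘ₗ s.Φ.toLinearMap := add_sub_cancel _ _
    rw [h1]
    change s.Φ.toLinearMap = ψ ∘ₗ L ∘ₗ s.Φ.toLinearMap
    rw [← LinearMap.comp_assoc, e1, LinearMap.id_comp]
  · exact Theta.nilpotent ht hc hT s ha hL hω
  · refine tr_of_hom fun c y hy => ?_
    obtain ⟨a, b⟩ := c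
    rw [hω]
    by_cases hab : a = b
    · subst hab
      rw [Theta.om_vert s hL hy]
      exact In.zero _ _
    · by_cases hadj : T.Adj a b
      · exact (Theta.om_edge_in ht hc hT s ha hL hadj hy).mono fun c hc =>
          ⟨hab, hc.1, hc.2⟩
      · have hz := Theta.eq_zero_of_not hT s hy (by
          rintro (h | h)
          · exact hab h
          · exact hadj h)
        rw [hz, map_zero, map_zero, sub_zero]
        exact In.zero _ _

end Pool.Agent.Lib.MP_551055_al.LS
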