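import Mathlib
import Pool.Agent.Lib.MP_551055_al.Trim.LS.Stmts

/-!
# Module Orb: matrices supported on one orbit of pairs
-/

set_option autoImplicit false

namespace Pool.Agent.Lib.MP_551055_al
end Pool.Agent.Lib.MP_551055_al

namespace Pool.Agent.Lib.MP_551055_al.LS

open Pool.Agent.Lib.MP_551055_al

universe u v

namespace OrbAux

section Itr

variable {X : Type v} {r : X → X → Prop}

theorem itr_add (r : X → X → Prop) (a b : ℕ) : ∀ x z : X,
    itr r (a + b) x z ↔ ∃ y, itr r a x y ∧ itr r b y z := by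
  induction a with
  | zero =>
    intro x z
    rw [Nat.zero_add]
    constructor
    · exact fun h => ⟨x, rfl, h⟩
    · rintro ⟨y, rfl, h⟩
      exact h
  | succ a ih =>
    intro x z
    rw [show a + 1 + b = (a + b) + 1 by omega]
    constructor
    · rintro ⟨w, hw, h⟩
      obtain ⟨y, h1, h2⟩ := (ih w z).1 h
      exact ⟨y, ⟨w, hw, h1⟩, h2⟩
    · rintro ⟨y, ⟨w, hw, h1⟩, h2⟩
      exact ⟨w, hw, (ih w z).2 ⟨y, h1, h2⟩⟩

theorem itr_itr (j i : ℕ) : ∀ x z : X, itr (itr r j) i x z → itr r (j * i) x z := by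
  induction i with
  | zero => exact fun x z h => h
  | succ i ih =>
    rintro x z ⟨y, h1, h2⟩
    rw [show j * (i + 1) = j + j * i by ring]
    exact (itr_add r j (j * i) x z).2 ⟨y, h1, ih y z h2⟩

variable {Γ : Type u} [Group Γ] [MulAction Γ X]

theorem itr_smul (hr : UR (Γ := Γ) r) (γ : Γ) (j : ℕ) : ∀ x z : X, itr r j x z →
    itr r j (γ • x) (γ • z) := by
  induction j with
  | zero =>
    intro x z h
    exact congrArg (γ • ·) h
  | succ j ih =>
    rintro x z ⟨y, h1, h2⟩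
    exact ⟨γ • y, hr.inv γ x y h1, ih y z h2⟩

theorem itr_uniq (hr : UR (Γ := Γ) r) (b : ℕ) (a : ℕ) : ∀ x y y' z : X, itr r a x y →
    itr r a x y' → itr r b y z → itr r b y' z → y = y' := by
  induction a with
  | zero =>
    rintro x y y' z h1 h2 - -
    exact h1.symm.trans h2
  | succ a ih =>
    rintro x y y' z ⟨w, h1, h2⟩ ⟨w', h1', h2'⟩ h3 h3'
    have h4 : w = w' := hr.uniq (a + b) x w w' z h1 h1' ((itr_add r a b w z).2 ⟨y, h2, h3⟩)
      ((itr_add r a b w' z).2 ⟨y', h2', h3'⟩)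
    subst h4
    exact ih w y y' z h2 h2' h3 h3'

theorem ur_itr (hr : UR (Γ := Γ) r) (j : ℕ) : UR (Γ := Γ) (itr r j) :=
  ⟨fun γ a b h => itr_smul hr γ j a b h, fun i a b b' c h1 h2 h3 h4 =>
    itr_uniq hr (j * i) j a b b' c h1 h2 (itr_itr j i b c h3) (itr_itr j i b' c h4)⟩

end Itr

theorem K_id {S : Type u} [Ring S] (K : K1C S) (ι : Type) [Finite ι] :
    K.G (LinearMap.id : (ι → S) →ₗ[S] (ι → S)) :=
  K.perm (Equiv.refl ι)

theorem exists_of_coeff_mul {G : Type u} [Group G] {x y : MonoidAlgebra ℤ G} {g : G}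
    (h : (x * y).coeff g ≠ 0) : ∃ a b, x.coeff a ≠ 0 ∧ y.coeff b ≠ 0 ∧ a * b = g := by
  classical
  have h1 := MonoidAlgebra.support_coeff_mul_subset x y (Finsupp.mem_support_iff.2 h)
  obtain ⟨a, ha, b, hb, hab⟩ := Finset.mem_mul.1 h1
  exact ⟨a, b, Finsupp.mem_support_iff.1 ha, Finsupp.mem_support_iff.1 hb, hab⟩

theorem exists_of_coeff_sum {G : Type u} {ι : Type} {s : Finset ι} {f : ι → MonoidAlgebra ℤ G}
    {g : G} (h : (∑ i ∈ s, f i).coeff g ≠ 0) : ∃ i ∈ s, (f i).coeff g ≠ 0 := by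
  by_contra hne
  push Not at hne
  apply h
  rw [MonoidAlgebra.coeff_sum, Finsupp.finset_sum_apply]
  exact Finset.sum_eq_zero hne

theorem nil_inv {R : Type u} [Ring R] {N : R} {k : ℕ} (h : N ^ k = 0) :
    (1 + N) * ∑ m ∈ Finset.range k, (-N) ^ m = 1 ∧
      (∑ m ∈ Finset.range k, (-N) ^ m) * (1 + N) = 1 := by
  have h0 : (-N) ^ k = 0 := by
    rw [neg_pow, h, mul_zero]
  have h1 : 1 + N = 1 - (-N) := by rw [sub_neg_eq_add]
  constructor
  · rw [h1, mul_neg_geom_sum, h0, sub_zero]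
  · rw [h1, geom_sum_mul_neg, h0, sub_zero]

end OrbAux

end Pool.Agent.Lib.MP_551055_al.LS
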