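import Mathlib

/-!
# Module NilE
-/

set_option autoImplicit false

namespace Pool.Agent.Lib.MP_551055_al
end Pool.Agent.Lib.MP_551055_al

namespace Pool.Agent.Lib.MP_551055_al.LS

open Pool.Agent.Lib.MP_551055_al

universe u v

theorem toLin_pow {S : Type u} [Ring S] {ι : Type} [Fintype ι] [DecidableEq ι]
    (A : Matrix ι ι S) (k : ℕ) :
    Matrix.toLinearMapRight' (A ^ k) = ((Matrix.toLinearMapRight' A : Module.End S (ι → S)) ^ k) := by
  induction k with
  | zero =>
    rw [pow_zero, pow_zero, Matrix.toLinearMapRight'_one]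
    rfl
  | succ k ih =>
    rw [pow_succ, Matrix.toLinearMapRight'_mul, ih, pow_succ']
    rfl

end Pool.Agent.Lib.MP_551055_al.LS
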