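import Mathlib
import Pool.Agent.Lib.MP_551055_al.Trim.Descent
import Pool.Agent.Lib.MP_551055_al.Trim.LS.Final
import Pool.Agent.Lib.MP_551055_al.Trim.LS.Pos
import Pool.Agent.Lib.MP_551055_al.Trim.LS.Stmts
import Pool.Agent.Lib.MP_551055_al.Trim.LS.Stmts2
import Pool.Agent.Lib.MP_551055_al.Trim.OneRelation
import Pool.Agent.Lib.MP_551055_al.Trim.Red.Defs
import Pool.Agent.Lib.MP_551055_al.Trim.Red.Idem
import Pool.Agent.Lib.MP_551055_al.Trim.VNDefs

/-!
# Long segments: the final assembly, version with rays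
-/

set_option autoImplicit false

namespace Pool.Agent.Lib.MP_551055_al
end Pool.Agent.Lib.MP_551055_al

namespace Pool.Agent.Lib.MP_551055_al.Red
end Pool.Agent.Lib.MP_551055_al.Red

namespace Pool.Agent.Lib.MP_551055_al.LS

open Pool.Agent.Lib.MP_551055_al

open Pool.Agent.Lib.MP_551055_al.Red (Img)

universe u v

theorem stMainK1R (hRay : StRay.{u, v}) (hTreeC : StTreeC.{u, v}) (hKI : StKI.{u, v})
    (hTheta : StTheta.{u, v}) (hAdapt : StAdapt.{u, v}) (hInit : StInit.{u, v}) :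
    StMainK1R.{u, v} := by
  intro Γ _ V _ T hT hP hR K hV n α hα
  obtain ⟨_, O, hO, hO'⟩ := hTreeC Γ V T hT
  obtain ⟨s, hs, hsα⟩ := hInit Γ V T hT O hO' K n α hα
  obtain ⟨s', hs', hss'⟩ := hAdapt Γ V T hT hP O hO hO' K hV s hs
  obtain ⟨ψ, ω, hψ, hΦ, hω, htr⟩ := hTheta Γ V T hT s' hs'
  apply hsα
  apply hss'
  rw [hΦ]
  have h1 : K.G ((1 : Module.End (ZG Γ) (F Γ (s'.K ⊕ s'.I))) + ω) :=
    hKI Γ V T hT K (hRay Γ V T hT hR K) s'.K s'.I s'.f s'.v ω s'.adj hω htr
  have h2 : K.G ψ.toLinearMap := hV _ _ _ _ ψ.toLinearMap hψ ψ.bijective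
  exact K.comp _ _ h1 h2

theorem stFinalR (hMain : StMainK1R.{u, v}) (hClass : StBassClass.{u}) (hMono : StBassMono.{u})
    (hVert : StBassVert.{u}) (hIdem : StBassIdem.{u}) (hGraded : StGraded.{u, v}) :
    StFinalR.{u, v} := by
  intro G _ V _ T hT hPv hPe hR
  let _ : MulAction (G × Multiplicative ℤ) V := actZ G V
  have hsmul : ∀ (γ : G × Multiplicative ℤ) (x : V), γ • x = γ.1 • x := fun _ _ => rfl
  have hT' : TreeAct (G × Multiplicative ℤ) V T :=
    { tree := hT.tree
      adj := fun γ a b hab => hT.adj γ.1 a b hab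
      inv := fun γ a b hab h => hT.inv γ.1 a b hab h }
  obtain ⟨K, hK⟩ := hClass G
  -- vertices
  have hV : VGood K V := by
    refine hGraded (G × Multiplicative ℤ) V K ?_ ?_
    · intro ι _ g Φ hΦ
      exact (hK ι ι Φ).2 (hMono G ι g Φ hΦ)
    · intro x
      have key : ∀ S : Subgroup (G × Multiplicative ℤ),
          S = (MulAction.stabilizer G x).prod (⊤ : Subgroup (Multiplicative ℤ)) →
          ∀ (ι κ : Type) [Fintype ι] [Fintype κ] [DecidableEq ι] [DecidableEq κ]
            (A : Matrix ι κ (MonoidAlgebra ℤ S)) (B : Matrix κ ι (MonoidAlgebra ℤ S)),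
            A * B = 1 → B * A = 1 →
            K.G (Matrix.toLinearMapRight' (A.map (inc ℤ S.subtype))) := by
        rintro S rfl ι κ _ _ _ _ A B hAB hBA
        exact (hK ι κ _).2 (hVert G (MulAction.stabilizer G x) (hPv x) ι κ A B hAB hBA)
      refine key (MulAction.stabilizer (G × Multiplicative ℤ) x) ?_
      ext γ
      rw [MulAction.mem_stabilizer_iff, Subgroup.mem_prod, MulAction.mem_stabilizer_iff, hsmul]
      exact ⟨fun h => ⟨h, Subgroup.mem_top _⟩, fun h => h.1⟩
  -- stabilisers of pairs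
  have hst : ∀ a : V × V, Nonempty ((MulAction.stabilizer G a × Multiplicative ℤ) ≃*
      MulAction.stabilizer (G × Multiplicative ℤ) a) := by
    intro a
    exact ⟨{ toFun := fun γ => ⟨(γ.1.1, γ.2), γ.1.2⟩
             invFun := fun γ => (⟨γ.1.1, γ.2⟩, γ.1.2)
             left_inv := fun _ => rfl
             right_inv := fun _ => rfl
             map_mul' := fun _ _ => rfl }⟩
  have hPe' : ∀ a b, T.Adj a b →
      VN.ProjStFree (MulAction.stabilizer (G × Multiplicative ℤ) (a, b)) := by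
    intro a b hab
    obtain ⟨e⟩ := hst (a, b)
    exact projStFree_congr e (hPe a b hab)
  have hR' : RayRC (G × Multiplicative ℤ) T := by
    intro x hx hx'
    obtain ⟨n, hn, h⟩ := hR x hx hx'
    obtain ⟨e⟩ := hst (x n, x 0)
    exact ⟨n, hn, RegCoh.congr (MonoidAlgebra.mapDomainRingEquiv ℤ e) h⟩
  apply Red.stIdem
  intro n p hp
  obtain ⟨α, hα, h⟩ := hIdem G n p hp
  apply h
  rw [← hK]
  exact hMain (G × Multiplicative ℤ) V T hT' hPe' hR' K hV n α hα

end Pool.Agent.Lib.MP_551055_al.LS
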