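import Mathlib
import Pool.Agent.Lib.MP_551055_al.Trim.LS.PStmts
import Pool.Agent.Lib.MP_551055_al.Trim.LS.Pos
import Pool.Agent.Lib.MP_551055_al.Trim.LS.Stmts
import Pool.Agent.Lib.MP_551055_al.Trim.Red.Orb

/-!
# Hilbert's basis theorem for extensions by `ℤ`
-/

set_option autoImplicit false

namespace Pool.Agent.Lib.MP_551055_al
end Pool.Agent.Lib.MP_551055_al

namespace Pool.Agent.Lib.MP_551055_al.Red
end Pool.Agent.Lib.MP_551055_al.Red

namespace Pool.Agent.Lib.MP_551055_al.LS.PNoethAux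
end Pool.Agent.Lib.MP_551055_al.LS.PNoethAux

namespace Pool.Agent.Lib.MP_551055_al.LS

open Pool.Agent.Lib.MP_551055_al

open Pool.Agent.Lib.MP_551055_al.Red (Vec)

universe u

namespace PNoethAux

variable {Γ : Type u} [Group Γ] {f : Γ →* Multiplicative ℤ} {ι : Type}

theorem winSub_mono (M : Submodule (ZG Γ) (F Γ ι)) {a b a' b' : ℤ} (h : a' ≤ a) (h' : b ≤ b') :
    winSub f M a b ≤ winSub f M a' b' :=
  fun _ hy => ⟨hy.1.mono fun _ hx => ⟨h.trans hx.1, hx.2.trans h'⟩, hy.2⟩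

theorem winSub_le_top (M : Submodule (ZG Γ) (F Γ ι)) (a b : ℤ) :
    winSub f M a b ≤ winSub f ⊤ a b :=
  fun _ hy => ⟨hy.1, trivial⟩

theorem noeth_win (h : StPWin.{u}) (hf : Function.Surjective f)
    (hn : IsNoetherianRing (MonoidAlgebra ℤ (St f))) [Finite ι]
    (M : Submodule (ZG Γ) (F Γ ι)) (a b : ℤ) :
    IsNoetherian (MonoidAlgebra ℤ (St f)) (winSub f M a b) := by
  have h0 := h Γ f hf ι a b
  have h1 : IsNoetherian (MonoidAlgebra ℤ (St f))
      (winSub f (⊤ : Submodule (ZG Γ) (F Γ ι)) a b) :=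
    isNoetherian_of_isNoetherianRing_of_finite _ _
  exact isNoetherian_of_le (winSub_le_top M a b)

/-- The part of degree `0`. -/
noncomputable def pr0 (f : Γ →* Multiplicative ℤ) (ι : Type) :
    Vec (St f) ι →ₗ[MonoidAlgebra ℤ (St f)] Vec (St f) ι where
  toFun y := pr (pz f ι) {pt f 0} (y : F Γ ι)
  map_add' y z := map_add (pr (pz f ι) {pt f 0}) (asF y) (asF z)
  map_smul' s y := by
    rw [RingHom.id_apply]
    induction s using MonoidAlgebra.induction_linear with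
    | zero =>
      rw [zero_smul, zero_smul]
      exact map_zero (pr (pz f ι) {pt f 0})
    | add a b h1 h2 =>
      rw [add_smul, add_smul, ← h1, ← h2]
      exact map_add (pr (pz f ι) {pt f 0}) (asF (a • y)) (asF (b • y))
    | single γ c =>
      rw [vec_single, vec_single]
      have h0 : (γ : Γ) • pt f 0 = pt f 0 := γ.2
      have h1 := pr_smul_singleton (pz f ι) (pt f 0) (γ : Γ) c (asF y)
      rw [h0] at h1
      exact h1

theorem pr0_mem (y : Vec (St f) ι) :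
    pr0 f ι y ∈ winSub f (⊤ : Submodule (ZG Γ) (F Γ ι)) 0 0 := by
  refine ⟨(in_pr (pz f ι) {pt f 0} (asF y)).mono fun x hx => ?_, trivial⟩
  rw [Set.mem_singleton_iff.1 hx]
  exact ⟨le_refl _, le_refl _⟩

/-- The initial parts of the vectors of `M` with degrees in `[0, j]`. -/
noncomputable def ini (f : Γ →* Multiplicative ℤ) (M : Submodule (ZG Γ) (F Γ ι)) (j : ℕ) :
    Submodule (MonoidAlgebra ℤ (St f)) (winSub f (⊤ : Submodule (ZG Γ) (F Γ ι)) 0 0) :=
  (Submodule.map (pr0 f ι) (winSub f M 0 j)).comap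
    (winSub f (⊤ : Submodule (ZG Γ) (F Γ ι)) 0 0).subtype

theorem ini_mono (M : Submodule (ZG Γ) (F Γ ι)) : Monotone (ini f M) := by
  intro i j hij
  exact Submodule.comap_mono (Submodule.map_mono (winSub_mono M le_rfl (Int.ofNat_le.2 hij)))

theorem exists_stable (h : StPWin.{u}) (hf : Function.Surjective f)
    (hn : IsNoetherianRing (MonoidAlgebra ℤ (St f))) [Finite ι]
    (M : Submodule (ZG Γ) (F Γ ι)) :
    ∃ k : ℕ, ∀ j : ℕ, k ≤ j → ∀ y : F Γ ι, y ∈ M → In (pz f ι) (seg f 0 j) y →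
      ∃ z : F Γ ι, z ∈ M ∧ In (pz f ι) (seg f 0 k) z ∧
        pr (pz f ι) {pt f 0} z = pr (pz f ι) {pt f 0} y := by
  have h1 := noeth_win (ι := ι) h hf hn ⊤ 0 0
  obtain ⟨k, hk⟩ := monotone_stabilizes_iff_noetherian.2 h1 ⟨ini f M, ini_mono M⟩
  refine ⟨k, fun j hj y hy hin => ?_⟩
  have h2 : (⟨pr0 f ι y, pr0_mem y⟩ : winSub f (⊤ : Submodule (ZG Γ) (F Γ ι)) 0 0) ∈
      ini f M j := ⟨y, ⟨hin, hy⟩, rfl⟩
  have h3 : ini f M k = ini f M j := hk j hj
  rw [← h3] at h2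
  obtain ⟨z, ⟨hz1, hz2⟩, hz⟩ := h2
  exact ⟨z, hz2, hz1, hz⟩

theorem single_mul_cancel (t : Γ) (y : F Γ ι) :
    (MonoidAlgebra.single t 1 : ZG Γ) • ((MonoidAlgebra.single t⁻¹ 1 : ZG Γ) • y) = y := by
  rw [smul_smul, MonoidAlgebra.single_mul_single, mul_inv_cancel, one_mul]
  exact one_smul _ _

theorem claim (t : Γ) (ht : f t = Multiplicative.ofAdd 1) (M : Submodule (ZG Γ) (F Γ ι)) (k : ℕ)
    (hk : ∀ j : ℕ, k ≤ j → ∀ y : F Γ ι, y ∈ M → In (pz f ι) (seg f 0 j) y →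
      ∃ z : F Γ ι, z ∈ M ∧ In (pz f ι) (seg f 0 k) z ∧
        pr (pz f ι) {pt f 0} z = pr (pz f ι) {pt f 0} y) (b : ℕ) :
    ∀ y ∈ M, In (pz f ι) (seg f 0 b) y →
      y ∈ Submodule.span (ZG Γ) {z : F Γ ι | z ∈ M ∧ In (pz f ι) (seg f 0 k) z} := by
  induction b with
  | zero =>
    intro y hy hin
    refine Submodule.subset_span ⟨hy, hin.mono fun x hx => ⟨hx.1, hx.2.trans ?_⟩⟩
    exact Int.ofNat_le.2 (Nat.zero_le k)
  | succ b ih =>
    intro y hy hin
    rcases Nat.lt_or_ge k (b + 1) with hlt | hge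
    · obtain ⟨z, hz, hzin, hzy⟩ := hk (b + 1) hlt.le y hy hin
      have hzin' : In (pz f ι) (seg f 0 ((b + 1 : ℕ) : ℤ)) z :=
        hzin.mono fun x hx => ⟨hx.1, hx.2.trans (Int.ofNat_le.2 hlt.le)⟩
      have h1 : In (pz f ι) (seg f 0 ((b + 1 : ℕ) : ℤ)) (y - z) := hin.sub hzin'
      have h2 : In (pz f ι) (seg f 1 ((b + 1 : ℕ) : ℤ)) (y - z) := by
        refine in_of_forall fun x hx => ?_
        by_cases hx0 : x = pt f 0
        · rw [hx0, map_sub, hzy, sub_self]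
        · refine h1.pr_eq_zero (Set.disjoint_singleton_left.2 fun hx1 => hx ⟨?_, hx1.2⟩)
          have h3 : co x ≠ 0 := fun h3 => hx0 h3
          have h4 : 0 ≤ co x := hx1.1
          omega
      have hsub : y - z ∈ M := M.sub_mem hy hz
      have h5 : (MonoidAlgebra.single t⁻¹ 1 : ZG Γ) • (y - z) ∈
          Submodule.span (ZG Γ) {z : F Γ ι | z ∈ M ∧ In (pz f ι) (seg f 0 k) z} := by
        refine ih _ (M.smul_mem _ hsub) (h2.smul _ _ fun x hx => ?_)
        have h6 : (f t⁻¹).toAdd = -1 := by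
          rw [map_inv, ht]
          rfl
        have h7 : co (t⁻¹ • x) = -1 + co x := by rw [co_smul, h6]
        have h8 : 1 ≤ co x := hx.1
        have h9 : co x ≤ ((b + 1 : ℕ) : ℤ) := hx.2
        constructor
        · rw [h7]
          omega
        · rw [h7]
          push_cast at h9
          omega
      have h10 : y = z + (MonoidAlgebra.single t 1 : ZG Γ) •
          ((MonoidAlgebra.single t⁻¹ 1 : ZG Γ) • (y - z)) := by
        rw [single_mul_cancel, add_sub_cancel]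
      rw [h10]
      exact Submodule.add_mem _ (Submodule.subset_span ⟨hz, hzin⟩) (Submodule.smul_mem _ _ h5)
    · exact Submodule.subset_span
        ⟨hy, hin.mono fun x hx => ⟨hx.1, hx.2.trans (Int.ofNat_le.2 hge)⟩⟩

theorem exists_bound [Finite ι] (y : F Γ ι) :
    ∃ N : ℕ, In (pz f ι) (seg f (-(N : ℤ)) N) y := by
  obtain ⟨s, hs⟩ := exists_finset (pz f ι) y
  refine ⟨∑ x ∈ s, (co x).natAbs, hs.mono fun x hx => ?_⟩
  have h1 : (co x).natAbs ≤ ∑ x ∈ s, (co x).natAbs :=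
    Finset.single_le_sum (f := fun x => (co x).natAbs) (fun _ _ => Nat.zero_le _)
      (Finset.mem_coe.1 hx)
  constructor
  · omega
  · omega

theorem generated (t : Γ) (ht : f t = Multiplicative.ofAdd 1) [Finite ι]
    (M : Submodule (ZG Γ) (F Γ ι)) (k : ℕ)
    (hk : ∀ j : ℕ, k ≤ j → ∀ y : F Γ ι, y ∈ M → In (pz f ι) (seg f 0 j) y →
      ∃ z : F Γ ι, z ∈ M ∧ In (pz f ι) (seg f 0 k) z ∧
        pr (pz f ι) {pt f 0} z = pr (pz f ι) {pt f 0} y) :
    ∀ y ∈ M, y ∈ Submodule.span (ZG Γ) {z : F Γ ι | z ∈ M ∧ In (pz f ι) (seg f 0 k) z} := by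
  intro y hy
  obtain ⟨N, hN⟩ := exists_bound (f := f) y
  have h1 : (f (t ^ N)).toAdd = N := by
    rw [map_pow, ht, toAdd_pow, toAdd_ofAdd, nsmul_eq_mul, mul_one]
  have h2 : (MonoidAlgebra.single (t ^ N) 1 : ZG Γ) • y ∈
      Submodule.span (ZG Γ) {z : F Γ ι | z ∈ M ∧ In (pz f ι) (seg f 0 k) z} := by
    refine claim t ht M k hk (2 * N) _ (M.smul_mem _ hy) (hN.smul _ _ fun x hx => ?_)
    have h7 : co (t ^ N • x) = N + co x := by rw [co_smul, h1]
    have h8 : -(N : ℤ) ≤ co x := hx.1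
    have h9 : co x ≤ N := hx.2
    constructor
    · rw [h7]
      omega
    · rw [h7]
      push_cast
      omega
  have h3 : y = (MonoidAlgebra.single (t ^ N)⁻¹ 1 : ZG Γ) •
      ((MonoidAlgebra.single (t ^ N) 1 : ZG Γ) • y) := by
    have h4 := single_mul_cancel (t ^ N)⁻¹ y
    rw [inv_inv] at h4
    exact h4.symm
  rw [h3]
  exact Submodule.smul_mem _ _ h2

theorem fg_of (h : StPWin.{u}) (hf : Function.Surjective f)
    (hn : IsNoetherianRing (MonoidAlgebra ℤ (St f))) [Finite ι]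
    (M : Submodule (ZG Γ) (F Γ ι)) (k : ℕ)
    (hk : ∀ y ∈ M, y ∈ Submodule.span (ZG Γ) {z : F Γ ι | z ∈ M ∧ In (pz f ι) (seg f 0 k) z}) :
    M.FG := by
  have h1 := noeth_win h hf hn M 0 k
  have h2 : (winSub f M 0 k).FG := by
    have h3 : Module.Finite (MonoidAlgebra ℤ (St f)) (winSub f M 0 k) := inferInstance
    exact Module.Finite.iff_fg.1 h3
  obtain ⟨T, hT⟩ := h2
  obtain ⟨T', hT'⟩ : ∃ T' : Finset (F Γ ι), T' = T := ⟨T, rfl⟩
  have hTT : ∀ z : Vec (St f) ι, z ∈ (T : Set (Vec (St f) ι)) → asF z ∈ (T' : Set (F Γ ι)) := by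
    intro z hz
    rw [hT']
    exact hz
  have hTT' : ∀ z : F Γ ι, z ∈ (T' : Set (F Γ ι)) →
      (z : Vec (St f) ι) ∈ (T : Set (Vec (St f) ι)) := by
    intro z hz
    rw [hT'] at hz
    exact hz
  have h4 : ∀ z : Vec (St f) ι, z ∈ winSub f M 0 k →
      asF z ∈ Submodule.span (ZG Γ) (T' : Set (F Γ ι)) := by
    intro z hz
    rw [← hT] at hz
    induction hz using Submodule.span_induction with
    | mem x hx => exact Submodule.subset_span (hTT x hx)
    | zero => exact Submodule.zero_mem _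
    | add x y _ _ hx hy => exact Submodule.add_mem _ hx hy
    | smul a x _ hx =>
      refine vec_smul_induction
        (Q := fun y : Vec (St f) ι => asF y ∈ Submodule.span (ZG Γ) (T' : Set (F Γ ι)))
        (Submodule.zero_mem _) (fun a b ha hb => Submodule.add_mem _ ha hb) (fun γ c => ?_) a
      rw [vec_single]
      exact Submodule.smul_mem _ _ hx
  refine ⟨T', le_antisymm ?_ ?_⟩
  · rw [Submodule.span_le]
    intro z hz
    have h5 : (z : Vec (St f) ι) ∈ winSub f M 0 k := by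
      rw [← hT]
      exact Submodule.subset_span (hTT' z hz)
    exact h5.2
  · intro y hy
    refine (Submodule.span_le.2 ?_ : Submodule.span (ZG Γ)
      {z : F Γ ι | z ∈ M ∧ In (pz f ι) (seg f 0 k) z} ≤ _) (hk y hy)
    intro z hz
    exact h4 z ⟨hz.2, hz.1⟩

end PNoethAux

open PNoethAux in
theorem stPNoeth (h : StPWin.{u}) : StPNoeth.{u} := by
  intro Γ _ f hf hn
  obtain ⟨t, ht⟩ := hf (Multiplicative.ofAdd 1)
  have key : ∀ (ι : Type) [Finite ι] (M : Submodule (ZG Γ) (F Γ ι)),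
      ∃ k : ℕ, ∀ y ∈ M,
        y ∈ Submodule.span (ZG Γ) {z : F Γ ι | z ∈ M ∧ In (pz f ι) (seg f 0 k) z} := by
    intro ι _ M
    obtain ⟨k, hk⟩ := exists_stable h hf hn M
    exact ⟨k, generated t ht M k hk⟩
  refine ⟨?_, key⟩
  have h1 : IsNoetherian (ZG Γ) (F Γ Unit) := by
    rw [isNoetherian_def]
    intro M
    obtain ⟨k, hk⟩ := key Unit M
    exact fg_of h hf hn M k hk
  exact isNoetherian_of_linearEquiv (LinearEquiv.funUnique Unit (ZG Γ) (ZG Γ))

end Pool.Agent.Lib.MP_551055_al.LS
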