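import Mathlib
import Pool.Agent.Lib.MP_551055_al.Trim.LS.Stmts
import Pool.Agent.Lib.MP_551055_al.Trim.LS.TreeB

/-!
# Module RayE: nilpotent maps along edges are good if the long segments are good
-/

set_option autoImplicit false

namespace Pool.Agent.Lib.MP_551055_al
end Pool.Agent.Lib.MP_551055_al

namespace Pool.Agent.Lib.MP_551055_al.LS

open Pool.Agent.Lib.MP_551055_al

universe u v

theorem itr_dist_snd {V : Type v} {T : SimpleGraph V} (hT : T.IsTree) {l : ℕ} (hl : 1 ≤ l)
    (c : V × V) (i : ℕ) (b : V × V) (hb : T.dist b.1 b.2 = l) (h : itr (sh T l) i b c) :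
    T.dist c.1 c.2 = l ∧ T.dist c.2 b.2 = i := by
  have key : ∀ (i : ℕ) (b : V × V), T.dist b.1 b.2 = l → itr (sh T l) i b c →
      T.dist c.1 c.2 = l ∧ T.dist c.2 b.2 ≤ i := by
    intro i
    induction i with
    | zero =>
      intro b hb h
      have h1 : b = c := h
      subst h1
      exact ⟨hb, by rw [T.dist_self]⟩
    | succ i ih =>
      intro b hb h
      obtain ⟨d, hbd, hdc⟩ := h
      obtain ⟨h1, h2, h3, h4, h5⟩ := hbd
      obtain ⟨h6, h7⟩ := ih d h3 hdc
      refine ⟨h6, ?_⟩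
      have h8 := hT.connected.dist_triangle (u := c.2) (v := d.2) (w := b.2)
      have h9 : T.dist d.2 b.2 = 1 := T.dist_eq_one_iff_adj.2 h2
      omega
  obtain ⟨h1, h2⟩ := key i b hb h
  refine ⟨h1, ?_⟩
  obtain ⟨h3, h4⟩ := itr_dist hT hl c i b hb h
  have h5 := hT.connected.dist_triangle (u := c.1) (v := c.2) (w := b.2)
  omega

end Pool.Agent.Lib.MP_551055_al.LS
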